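import Mathlib
import Pool.Graph.R_pool_sql_team_seeded_63374d34.N253.LS.Fin

/-!
# The passage property at the critical value, without exponential losses

`z_j` is the orbit of the critical value, `P_j` the derivative of the `j`-th iterate there. The
distortion of the first `k` iterates on a disc of radius `s` is bounded as long as
`s * ∑ P_j / |z_j|` (the sum over `j < k`) is small.
-/

set_option autoImplicit false

open Set Filter Metric Topology

namespace Pool.Agent.KS6_34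

open Pool.Agent.TH279.MD Pool.Agent.Y298.SH Pool.Agent.Y298.SH.CD

/-- The sum which controls the distortion. -/
noncomputable def Sm (d : ℕ) (c : ℂ) (n : ℕ) : ℝ := ∑ j ∈ Finset.range n, Pd d c j / ‖zz d c j‖

theorem Sm_zero (d : ℕ) (c : ℂ) : Sm d c 0 = 0 := by simp [Sm]

theorem Sm_succ (d : ℕ) (c : ℂ) (n : ℕ) :
    Sm d c (n + 1) = Sm d c n + Pd d c n / ‖zz d c n‖ := by
  unfold Sm
  rw [Finset.sum_range_succ]

theorem Sm_term_nonneg (d : ℕ) (c : ℂ) (n : ℕ) : 0 ≤ Pd d c n / ‖zz d c n‖ :=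
  div_nonneg (Pd_nonneg d c n) (norm_nonneg _)

theorem Sm_nonneg (d : ℕ) (c : ℂ) (n : ℕ) : 0 ≤ Sm d c n :=
  Finset.sum_nonneg fun j _ => Sm_term_nonneg d c j

theorem Sm_mono (d : ℕ) (c : ℂ) {m n : ℕ} (h : m ≤ n) : Sm d c m ≤ Sm d c n :=
  Finset.sum_le_sum_of_subset_of_nonneg (Finset.range_mono h) fun j _ _ => Sm_term_nonneg d c j

theorem Sm_term_le (d : ℕ) (c : ℂ) {j n : ℕ} (h : j < n) :
    Pd d c j / ‖zz d c j‖ ≤ Sm d c n := by
  have h1 := Sm_mono d c (Nat.succ_le_of_lt h)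
  have h2 := Sm_succ d c j
  have h3 := Sm_nonneg d c j
  linarith

/-- The sum of the inverses of the derivatives. -/
noncomputable def Iv (d : ℕ) (c : ℂ) (n : ℕ) : ℝ := ∑ j ∈ Finset.range (n + 1), 1 / Pd d c j

theorem Iv_succ (d : ℕ) (c : ℂ) (n : ℕ) : Iv d c (n + 1) = Iv d c n + 1 / Pd d c (n + 1) := by
  unfold Iv
  rw [Finset.sum_range_succ]

theorem Iv_nonneg (d : ℕ) (c : ℂ) (n : ℕ) : 0 ≤ Iv d c n :=
  Finset.sum_nonneg fun j _ => div_nonneg zero_le_one (Pd_nonneg d c j)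

/-- The constant of the passage property. -/
noncomputable def CA (C₁ lam : ℝ) : ℝ := 2 * (2 + C₁ * (1 - lam⁻¹)⁻¹)

variable {d : ℕ} {C₁ lam : ℝ} {c₁ : ℂ}

theorem CA_four (h : CEp d C₁ lam c₁) : 4 ≤ CA C₁ lam := by
  have h1 := h.C1
  have h2 := h.lam1
  have h3 : lam⁻¹ < 1 := inv_lt_one_of_one_lt₀ h2
  have h4 : 0 < (1 - lam⁻¹)⁻¹ := inv_pos.mpr (by linarith)
  unfold CA
  have : 0 ≤ C₁ * (1 - lam⁻¹)⁻¹ := by positivity
  linarith

theorem Iv_le (h : CEp d C₁ lam c₁) (n : ℕ) : 2 * (2 + Iv d c₁ n) ≤ CA C₁ lam := by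
  have hl := h.lam1
  have hl0 : 0 < lam := by linarith
  have hC := h.C1
  have hr0 : 0 ≤ lam⁻¹ := by positivity
  have hr1 : lam⁻¹ < 1 := inv_lt_one_of_one_lt₀ hl
  have h1 : Iv d c₁ n ≤ ∑ j ∈ Finset.range (n + 1), C₁ * lam⁻¹ ^ j := by
    refine Finset.sum_le_sum fun j _ => ?_
    have h2 := h.exp j
    have h3 := h.Pd_pos j
    rw [div_le_iff₀ h3, inv_pow]
    have h4 : 0 < lam ^ j := pow_pos hl0 j
    calc (1 : ℝ) = (lam ^ j)⁻¹ * lam ^ j := by field_simp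
      _ ≤ (lam ^ j)⁻¹ * (C₁ * Pd d c₁ j) := by gcongr
      _ = _ := by ring
  have h2 : ∑ j ∈ Finset.range (n + 1), C₁ * lam⁻¹ ^ j ≤ C₁ * (1 - lam⁻¹)⁻¹ := by
    rw [← Finset.mul_sum]
    refine mul_le_mul_of_nonneg_left ?_ (by linarith)
    have h3 := (summable_geometric_of_lt_one hr0 hr1).sum_le_tsum (Finset.range (n + 1))
      (fun j _ => by positivity)
    rwa [tsum_geometric_of_lt_one hr0 hr1] at h3
  unfold CA
  linarith

theorem exp_quarter : Real.exp (1 / 4) ≤ 2 := by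
  have h1 : Real.exp (1 / 4) ≤ Real.exp 1 ^ ((1 : ℝ) / 4) := by
    rw [← Real.exp_mul]; simp
  have h2 : Real.exp 1 ^ ((1 : ℝ) / 4) ≤ (16 : ℝ) ^ ((1 : ℝ) / 4) := by
    apply Real.rpow_le_rpow (Real.exp_pos _).le _ (by norm_num)
    have := Real.exp_one_lt_d9
    linarith
  have h3 : (16 : ℝ) ^ ((1 : ℝ) / 4) = 2 := by
    rw [show (16 : ℝ) = 2 ^ (4 : ℝ) by norm_num, ← Real.rpow_mul (by norm_num)]
    norm_num
  linarith

theorem exp_neg_half : 1 / 2 ≤ Real.exp (-(1 / 2)) := by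
  have h1 := Real.add_one_le_exp (-(1 / 2) : ℝ)
  linarith

theorem one_sub_exp {t : ℝ} (h0 : 0 ≤ t) (h1 : t ≤ 1 / 2) : Real.exp (-(2 * t)) ≤ 1 - t := by
  have h2 := Real.add_one_le_exp (2 * t)
  have h3 : 1 ≤ (1 - t) * Real.exp (2 * t) := by
    have h4 : (1 - t) * (2 * t + 1) ≤ (1 - t) * Real.exp (2 * t) :=
      mul_le_mul_of_nonneg_left h2 (by linarith)
    nlinarith
  have h5 : Real.exp (-(2 * t)) * Real.exp (2 * t) = 1 := by
    rw [← Real.exp_add]; simp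
  have h6 : 0 < Real.exp (2 * t) := Real.exp_pos _
  nlinarith

theorem deriv_succ (d : ℕ) (c x : ℂ) (k : ℕ) :
    ‖deriv ((f d c)^[k + 1]) x‖ = d * ‖(f d c)^[k] x‖ ^ (d - 1) * ‖deriv ((f d c)^[k]) x‖ := by
  rw [add_comm, deriv_iter_add, Function.iterate_one, deriv_f, norm_mul, norm_mul, norm_pow,
    Complex.norm_natCast]

/-- **The passage property.** -/
theorem pass (h : CEp d C₁ lam c₁) {c : ℂ} {s : ℝ} {k : ℕ} (hs : 0 < s) (hc : ‖c - c₁‖ ≤ s)
    (hk : 4 * d * CA C₁ lam * (s * Sm d c₁ k) ≤ 1) {x : ℂ} (hx : x ∈ ball c s) :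
    ∀ j ≤ k, ‖(f d c)^[j] x - zz d c₁ j‖ ≤ CA C₁ lam * s * Pd d c₁ j ∧
      Pd d c₁ j / 2 ≤ ‖deriv ((f d c)^[j]) x‖ ∧ ‖deriv ((f d c)^[j]) x‖ ≤ 2 * Pd d c₁ j ∧
      (j < k → 4 * d * ‖(f d c)^[j] x - zz d c₁ j‖ ≤ ‖zz d c₁ j‖) := by
  have hd := h.hd
  have hdR : (2 : ℝ) ≤ d := by exact_mod_cast hd
  have hd0 : (0 : ℝ) < d := by linarith
  have hA4 := CA_four h
  obtain ⟨A, hA⟩ : ∃ A, A = CA C₁ lam := ⟨_, rfl⟩
  rw [← hA] at hk hA4 ⊢
  have hA0 : 0 < A := by linarith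
  -- the exponents
  have hE : ∀ j ≤ k, 4 * (d * A * (s * Sm d c₁ j)) ≤ 1 := by
    intro j hj
    have h1 : s * Sm d c₁ j ≤ s * Sm d c₁ k := mul_le_mul_of_nonneg_left (Sm_mono d c₁ hj) hs.le
    have h2 : 4 * (d * A * (s * Sm d c₁ j)) ≤ 4 * (d * A * (s * Sm d c₁ k)) := by gcongr
    linarith
  have hE0 : ∀ j, 0 ≤ d * A * (s * Sm d c₁ j) := fun j => by
    have := Sm_nonneg d c₁ j
    positivity
  -- one term
  have hterm : ∀ j < k, ∀ a : ℝ, a ≤ A * s * Pd d c₁ j → 4 * d * a ≤ ‖zz d c₁ j‖ ∧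
      (a / ‖zz d c₁ j‖ ≤ A * (s * (Pd d c₁ j / ‖zz d c₁ j‖))) := by
    intro j hj a ha
    have hz : 0 < ‖zz d c₁ j‖ := norm_pos_iff.mpr (h.zz_ne j)
    have h1 : s * (Pd d c₁ j / ‖zz d c₁ j‖) ≤ s * Sm d c₁ k :=
      mul_le_mul_of_nonneg_left (Sm_term_le d c₁ hj) hs.le
    have h2 : 4 * d * A * (s * (Pd d c₁ j / ‖zz d c₁ j‖)) ≤ 1 := by
      have h3 : 4 * d * A * (s * (Pd d c₁ j / ‖zz d c₁ j‖)) ≤ 4 * d * A * (s * Sm d c₁ k) := by
        gcongr
      linarith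
    have h4 : a / ‖zz d c₁ j‖ ≤ A * (s * (Pd d c₁ j / ‖zz d c₁ j‖)) := by
      rw [div_le_iff₀ hz]
      have : A * (s * (Pd d c₁ j / ‖zz d c₁ j‖)) * ‖zz d c₁ j‖ = A * s * Pd d c₁ j := by
        field_simp
      rw [this]
      exact ha
    refine ⟨?_, h4⟩
    have h5 : 4 * d * (a / ‖zz d c₁ j‖) ≤ 1 := by
      have h6 : 4 * d * (a / ‖zz d c₁ j‖) ≤ 4 * d * (A * (s * (Pd d c₁ j / ‖zz d c₁ j‖))) := by
        gcongr
      linarith
    have h7 : 4 * d * (a / ‖zz d c₁ j‖) = 4 * d * a / ‖zz d c₁ j‖ := by ring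
    rw [h7, div_le_one hz] at h5
    exact h5
  -- the main estimate
  have main : ∀ j ≤ k, ‖(f d c)^[j] x - zz d c₁ j‖ ≤
      s * Pd d c₁ j * ((1 + Iv d c₁ j) * Real.exp (d * A * (s * Sm d c₁ j))) ∧
      ‖(f d c)^[j] x - zz d c₁ j‖ ≤ A * s * Pd d c₁ j := by
    have hsecond : ∀ j ≤ k, ∀ a : ℝ, a ≤
        s * Pd d c₁ j * ((1 + Iv d c₁ j) * Real.exp (d * A * (s * Sm d c₁ j))) →
        a ≤ A * s * Pd d c₁ j := by
      intro j hj a ha
      refine ha.trans ?_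
      have h1 : Real.exp (d * A * (s * Sm d c₁ j)) ≤ 2 := by
        refine le_trans (Real.exp_le_exp.mpr ?_) exp_quarter
        have := hE j hj
        linarith
      have h2 := Iv_le h j
      rw [← hA] at h2
      have h3 : 0 ≤ Iv d c₁ j := Iv_nonneg _ _ _
      have h4 : (1 + Iv d c₁ j) * Real.exp (d * A * (s * Sm d c₁ j)) ≤ A := by
        calc (1 + Iv d c₁ j) * Real.exp (d * A * (s * Sm d c₁ j)) ≤ (1 + Iv d c₁ j) * 2 := by gcongr
          _ ≤ A := by linarith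
      have h5 : 0 ≤ s * Pd d c₁ j := mul_nonneg hs.le (Pd_nonneg _ _ _)
      calc _ ≤ s * Pd d c₁ j * A := mul_le_mul_of_nonneg_left h4 h5
        _ = _ := by ring
    intro j
    induction j with
    | zero =>
      intro h0
      have h1 : ‖(f d c)^[0] x - zz d c₁ 0‖ ≤
          s * Pd d c₁ 0 * ((1 + Iv d c₁ 0) * Real.exp (d * A * (s * Sm d c₁ 0))) := by
        rw [Sm_zero, Pd_zero, zz_zero, mul_zero, mul_zero, Real.exp_zero]
        have e1 : Iv d c₁ 0 = 1 := by simp [Iv, Pd_zero]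
        rw [e1]
        rw [mem_ball, dist_eq_norm] at hx
        have e2 : (f d c)^[0] x - c₁ = (x - c) + (c - c₁) := by
          rw [Function.iterate_zero, id_eq]; ring
        rw [e2]
        have := norm_add_le (x - c) (c - c₁)
        linarith
      exact ⟨h1, hsecond 0 h0 _ h1⟩
    | succ j ih =>
      intro hj
      have hjk : j < k := by omega
      obtain ⟨ih1, ih2⟩ := ih hjk.le
      obtain ⟨ht4, htz⟩ := hterm j hjk _ ih2
      have hz : 0 < ‖zz d c₁ j‖ := norm_pos_iff.mpr (h.zz_ne j)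
      obtain ⟨w, hw⟩ : ∃ w : ℂ, w = (f d c)^[j] x - zz d c₁ j := ⟨_, rfl⟩
      rw [← hw] at ih1 ih2 ht4 htz
      have e1 : (f d c)^[j + 1] x - zz d c₁ (j + 1) =
          ((zz d c₁ j + w) ^ d - zz d c₁ j ^ d) + (c - c₁) := by
        rw [Function.iterate_succ_apply', zz_succ]
        have : (f d c)^[j] x = zz d c₁ j + w := by rw [hw]; ring
        rw [this]
        unfold f
        ring
      have h1 : ‖(zz d c₁ j + w) ^ d - zz d c₁ j ^ d‖ ≤
          d * (‖zz d c₁ j‖ + ‖w‖) ^ (d - 1) * ‖w‖ := by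
        have h2 := pow_sub_le (zz d c₁ j + w) (zz d c₁ j) (m := ‖zz d c₁ j‖ + ‖w‖)
          (norm_add_le _ _) (by have := norm_nonneg w; linarith) d
        rwa [add_sub_cancel_left] at h2
      have h2 : (‖zz d c₁ j‖ + ‖w‖) ^ (d - 1) ≤ ‖zz d c₁ j‖ ^ (d - 1) *
          Real.exp (d * A * (s * (Pd d c₁ j / ‖zz d c₁ j‖))) := by
        have e2 : ‖zz d c₁ j‖ + ‖w‖ = ‖zz d c₁ j‖ * (1 + ‖w‖ / ‖zz d c₁ j‖) := by field_simp
        rw [e2, mul_pow]
        refine mul_le_mul_of_nonneg_left ?_ (by positivity)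
        have h3 : 1 + ‖w‖ / ‖zz d c₁ j‖ ≤ Real.exp (‖w‖ / ‖zz d c₁ j‖) := by
          linarith [Real.add_one_le_exp (‖w‖ / ‖zz d c₁ j‖)]
        calc (1 + ‖w‖ / ‖zz d c₁ j‖) ^ (d - 1) ≤ Real.exp (‖w‖ / ‖zz d c₁ j‖) ^ (d - 1) :=
              pow_le_pow_left₀ (by positivity) h3 _
          _ = Real.exp ((d - 1 : ℕ) * (‖w‖ / ‖zz d c₁ j‖)) := by rw [← Real.exp_nat_mul]
          _ ≤ Real.exp (d * A * (s * (Pd d c₁ j / ‖zz d c₁ j‖))) := by
            rw [Real.exp_le_exp]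
            have h4 : ((d - 1 : ℕ) : ℝ) ≤ d := by exact_mod_cast Nat.sub_le d 1
            have h5 : 0 ≤ ‖w‖ / ‖zz d c₁ j‖ := by positivity
            calc ((d - 1 : ℕ) : ℝ) * (‖w‖ / ‖zz d c₁ j‖) ≤ d * (‖w‖ / ‖zz d c₁ j‖) := by gcongr
              _ ≤ d * (A * (s * (Pd d c₁ j / ‖zz d c₁ j‖))) := by gcongr
              _ = _ := by ring
      obtain ⟨E, hEd⟩ : ∃ E : ℝ, E = Real.exp (d * A * (s * (Pd d c₁ j / ‖zz d c₁ j‖))) :=
        ⟨_, rfl⟩
      obtain ⟨F, hF⟩ : ∃ F : ℝ, F = Real.exp (d * A * (s * Sm d c₁ j)) := ⟨_, rfl⟩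
      obtain ⟨F', hF'⟩ : ∃ F' : ℝ, F' = Real.exp (d * A * (s * Sm d c₁ (j + 1))) := ⟨_, rfl⟩
      have hFF : F * E = F' := by
        rw [hF, hEd, hF', ← Real.exp_add, Sm_succ]
        congr 1
        ring
      have hF'1 : 1 ≤ F' := by
        rw [hF']
        exact Real.one_le_exp (hE0 _)
      have hP := h.Pd_pos j
      have hP' := h.Pd_pos (j + 1)
      have hPs := Pd_succ d c₁ j
      rw [← hEd] at h2
      rw [← hF] at ih1
      have h3 : ‖(f d c)^[j + 1] x - zz d c₁ (j + 1)‖ ≤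
          s * Pd d c₁ (j + 1) * ((1 + Iv d c₁ (j + 1)) * F') := by
        rw [e1]
        refine (norm_add_le _ _).trans ?_
        have h4 : d * (‖zz d c₁ j‖ + ‖w‖) ^ (d - 1) * ‖w‖ ≤
            s * Pd d c₁ (j + 1) * ((1 + Iv d c₁ j) * F') := by
          have hE0 : 0 ≤ E := by rw [hEd]; exact (Real.exp_pos _).le
          calc d * (‖zz d c₁ j‖ + ‖w‖) ^ (d - 1) * ‖w‖
              ≤ d * (‖zz d c₁ j‖ ^ (d - 1) * E) * (s * Pd d c₁ j * ((1 + Iv d c₁ j) * F)) := by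
                gcongr
            _ = s * (d * ‖zz d c₁ j‖ ^ (d - 1) * Pd d c₁ j) * ((1 + Iv d c₁ j) * (F * E)) := by ring
            _ = _ := by rw [← hPs, hFF]
        have h5 : s ≤ s * Pd d c₁ (j + 1) * (1 / Pd d c₁ (j + 1) * F') := by
          have e3 : s * Pd d c₁ (j + 1) * (1 / Pd d c₁ (j + 1) * F') = s * F' := by field_simp
          rw [e3]
          exact le_mul_of_one_le_right hs.le hF'1
        rw [Iv_succ]
        have e4 : s * Pd d c₁ (j + 1) * ((1 + (Iv d c₁ j + 1 / Pd d c₁ (j + 1))) * F') =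
          s * Pd d c₁ (j + 1) * ((1 + Iv d c₁ j) * F') +
            s * Pd d c₁ (j + 1) * (1 / Pd d c₁ (j + 1) * F') := by ring
        rw [e4]
        linarith [h1.trans h4]
      rw [hF'] at h3
      exact ⟨h3, hsecond (j + 1) hj _ h3⟩
  -- the derivative
  have hder : ∀ j ≤ k, Pd d c₁ j * Real.exp (-(2 * (d * A * (s * Sm d c₁ j)))) ≤
      ‖deriv ((f d c)^[j]) x‖ ∧
      ‖deriv ((f d c)^[j]) x‖ ≤ Pd d c₁ j * Real.exp (d * A * (s * Sm d c₁ j)) := by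
    intro j
    induction j with
    | zero =>
      intro _
      rw [Sm_zero, Pd_zero, Function.iterate_zero, deriv_id']
      simp
    | succ j ih =>
      intro hj
      have hjk : j < k := by omega
      obtain ⟨ih1, ih2⟩ := ih hjk.le
      obtain ⟨ht4, htz⟩ := hterm j hjk _ (main j hjk.le).2
      have hz : 0 < ‖zz d c₁ j‖ := norm_pos_iff.mpr (h.zz_ne j)
      obtain ⟨w, hw⟩ : ∃ w : ℂ, w = (f d c)^[j] x - zz d c₁ j := ⟨_, rfl⟩
      rw [← hw] at ht4 htz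
      have hx' : (f d c)^[j] x = zz d c₁ j + w := by rw [hw]; ring
      obtain ⟨t, ht⟩ : ∃ t : ℝ, t = ‖w‖ / ‖zz d c₁ j‖ := ⟨_, rfl⟩
      have ht0 : 0 ≤ t := by rw [ht]; positivity
      have hwt : ‖w‖ = t * ‖zz d c₁ j‖ := by rw [ht]; field_simp
      have ht8 : t ≤ 1 / 2 := by
        rw [hwt] at ht4
        have h1 : 4 * d * t * ‖zz d c₁ j‖ ≤ 1 * ‖zz d c₁ j‖ := by linarith
        have h2 := le_of_mul_le_mul_right h1 hz
        nlinarith
      rw [← ht] at htz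
      have hdt : d * t ≤ d * A * (s * (Pd d c₁ j / ‖zz d c₁ j‖)) := by
        calc d * t ≤ d * (A * (s * (Pd d c₁ j / ‖zz d c₁ j‖))) := by gcongr
          _ = _ := by ring
      have hd1 : ((d - 1 : ℕ) : ℝ) ≤ d := by exact_mod_cast Nat.sub_le d 1
      have hup : ‖zz d c₁ j + w‖ ^ (d - 1) ≤ ‖zz d c₁ j‖ ^ (d - 1) * Real.exp (d * t) := by
        have h1 : ‖zz d c₁ j + w‖ ≤ ‖zz d c₁ j‖ * Real.exp t := by
          refine (norm_add_le _ _).trans ?_
          rw [hwt]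
          have := Real.add_one_le_exp t
          nlinarith
        calc ‖zz d c₁ j + w‖ ^ (d - 1) ≤ (‖zz d c₁ j‖ * Real.exp t) ^ (d - 1) :=
              pow_le_pow_left₀ (norm_nonneg _) h1 _
          _ = ‖zz d c₁ j‖ ^ (d - 1) * Real.exp ((d - 1 : ℕ) * t) := by
              rw [mul_pow, ← Real.exp_nat_mul]
          _ ≤ _ := by gcongr
      have hlo : ‖zz d c₁ j‖ ^ (d - 1) * Real.exp (-(2 * (d * t))) ≤ ‖zz d c₁ j + w‖ ^ (d - 1) := by
        have h1 : ‖zz d c₁ j‖ * Real.exp (-(2 * t)) ≤ ‖zz d c₁ j + w‖ := by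
          have h2 := one_sub_exp ht0 ht8
          have h3 : ‖zz d c₁ j‖ ≤ ‖zz d c₁ j + w‖ + ‖w‖ := by
            have := norm_sub_le (zz d c₁ j + w) w
            rwa [add_sub_cancel_right] at this
          rw [hwt] at h3
          nlinarith
        calc ‖zz d c₁ j‖ ^ (d - 1) * Real.exp (-(2 * (d * t)))
            ≤ ‖zz d c₁ j‖ ^ (d - 1) * Real.exp ((d - 1 : ℕ) * (-(2 * t))) := by
              gcongr
              nlinarith
          _ = (‖zz d c₁ j‖ * Real.exp (-(2 * t))) ^ (d - 1) := by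
              rw [mul_pow, ← Real.exp_nat_mul]
          _ ≤ _ := pow_le_pow_left₀ (by positivity) h1 _
      rw [deriv_succ, hx', Pd_succ, Sm_succ]
      have hPn := Pd_nonneg d c₁ j
      constructor
      · calc d * ‖zz d c₁ j‖ ^ (d - 1) * Pd d c₁ j *
              Real.exp (-(2 * (d * A * (s * (Sm d c₁ j + Pd d c₁ j / ‖zz d c₁ j‖)))))
            = d * (‖zz d c₁ j‖ ^ (d - 1) *
                Real.exp (-(2 * (d * A * (s * (Pd d c₁ j / ‖zz d c₁ j‖)))))) *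
                (Pd d c₁ j * Real.exp (-(2 * (d * A * (s * Sm d c₁ j))))) := by
              have e : Real.exp (-(2 * (d * A * (s * (Sm d c₁ j + Pd d c₁ j / ‖zz d c₁ j‖))))) =
                Real.exp (-(2 * (d * A * (s * (Pd d c₁ j / ‖zz d c₁ j‖))))) *
                  Real.exp (-(2 * (d * A * (s * Sm d c₁ j)))) := by
                rw [← Real.exp_add]; congr 1; ring
              rw [e]; ring
          _ ≤ d * (‖zz d c₁ j‖ ^ (d - 1) * Real.exp (-(2 * (d * t)))) *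
                ‖deriv ((f d c)^[j]) x‖ := by gcongr
          _ ≤ d * ‖zz d c₁ j + w‖ ^ (d - 1) * ‖deriv ((f d c)^[j]) x‖ := by gcongr
      · calc d * ‖zz d c₁ j + w‖ ^ (d - 1) * ‖deriv ((f d c)^[j]) x‖
            ≤ d * (‖zz d c₁ j‖ ^ (d - 1) * Real.exp (d * t)) *
              (Pd d c₁ j * Real.exp (d * A * (s * Sm d c₁ j))) := by gcongr
          _ ≤ d * (‖zz d c₁ j‖ ^ (d - 1) *
                Real.exp (d * A * (s * (Pd d c₁ j / ‖zz d c₁ j‖)))) *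
              (Pd d c₁ j * Real.exp (d * A * (s * Sm d c₁ j))) := by gcongr
          _ = _ := by
            have e : Real.exp (d * A * (s * (Sm d c₁ j + Pd d c₁ j / ‖zz d c₁ j‖))) =
              Real.exp (d * A * (s * (Pd d c₁ j / ‖zz d c₁ j‖))) *
                Real.exp (d * A * (s * Sm d c₁ j)) := by
              rw [← Real.exp_add]; congr 1; ring
            rw [e]; ring
  intro j hj
  obtain ⟨h1, h2⟩ := main j hj
  obtain ⟨h3, h4⟩ := hder j hj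
  have hPn := Pd_nonneg d c₁ j
  have h5 := hE j hj
  refine ⟨h2, ?_, ?_, fun hjk => (hterm j hjk _ h2).1⟩
  · refine le_trans ?_ h3
    have h6 : 1 / 2 ≤ Real.exp (-(2 * (d * A * (s * Sm d c₁ j)))) := by
      refine exp_neg_half.trans (Real.exp_le_exp.mpr ?_)
      linarith
    calc Pd d c₁ j / 2 = Pd d c₁ j * (1 / 2) := by ring
      _ ≤ _ := mul_le_mul_of_nonneg_left h6 hPn
  · refine h4.trans ?_
    have h6 : Real.exp (d * A * (s * Sm d c₁ j)) ≤ 2 := by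
      refine le_trans (Real.exp_le_exp.mpr ?_) exp_quarter
      linarith
    calc Pd d c₁ j * Real.exp (d * A * (s * Sm d c₁ j)) ≤ Pd d c₁ j * 2 := by gcongr
      _ = _ := by ring

end Pool.Agent.KS6_34
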