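import Mathlib
import Pool.Agent.KS6_34.Pass

/-!
# The time at which the small disc about a slow Collet-Eckmann parameter becomes large
-/

set_option autoImplicit false

open Set Filter Metric Topology

namespace Pool.Agent.KS6_34

open Pool.Agent.TH279.MD Pool.Agent.Y298.SH Pool.Agent.Y298.SH.CD
open Pool.Agent.H712R2 (P)
open Pool.Agent.N253.LS (Slow S_EXQ QQ t_EXQ')

/-- The number of iterates for which the distortion is controlled at the scale `σ`. -/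
noncomputable def NN (d : ℕ) (c : ℂ) (τ σ : ℝ) : ℕ := sInf {n : ℕ | τ < σ * Sm d c (n + 1)}

/-- The largest derivative of `z ^ d` in the disc of radius `3`. -/
noncomputable def LL (d : ℕ) : ℝ := d * 3 ^ (d - 1)

variable {d : ℕ} {C₁ lam : ℝ} {c₀ : ℂ}

theorem LL_two (hd : 2 ≤ d) : 2 ≤ LL d := by
  have hdR : (2 : ℝ) ≤ d := by exact_mod_cast hd
  have h1 : (1 : ℝ) ≤ 3 ^ (d - 1) := one_le_pow₀ (by norm_num)
  unfold LL
  nlinarith

theorem Sm_unbounded (h : CEp d C₁ lam c₀) (x : ℝ) : ∃ n : ℕ, x < Sm d c₀ (n + 1) := by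
  have hC := h.C1
  obtain ⟨n, hn⟩ := pow_unbounded_of_one_lt (2 * C₁ * |x|) h.lam1
  refine ⟨n, ?_⟩
  have h1 := Sm_term_le d c₀ (Nat.lt_succ_self n)
  have h2 := h.exp n
  have hz : 0 < ‖zz d c₀ n‖ := norm_pos_iff.mpr (h.zz_ne n)
  have hP := h.Pd_pos n
  have h3 : Pd d c₀ n / 2 ≤ Pd d c₀ n / ‖zz d c₀ n‖ :=
    div_le_div_of_nonneg_left hP.le hz (h.bd n)
  have h4 : 2 * C₁ * |x| < C₁ * Pd d c₀ n := hn.trans_le h2
  have h5 : C₁ * (2 * |x|) < C₁ * Pd d c₀ n := by linarith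
  have h6 := lt_of_mul_lt_mul_left h5 (by linarith)
  have h7 := le_abs_self x
  linarith

theorem NN_spec (h : CEp d C₁ lam c₀) {τ σ : ℝ} (hτ : 0 ≤ τ) (hσ : 0 < σ) :
    τ < σ * Sm d c₀ (NN d c₀ τ σ + 1) ∧ σ * Sm d c₀ (NN d c₀ τ σ) ≤ τ := by
  have hne : {n : ℕ | τ < σ * Sm d c₀ (n + 1)}.Nonempty := by
    obtain ⟨n, hn⟩ := Sm_unbounded h (τ / σ)
    refine ⟨n, ?_⟩
    rw [div_lt_iff₀ hσ] at hn
    show τ < σ * Sm d c₀ (n + 1)
    linarith
  refine ⟨Nat.sInf_mem hne, ?_⟩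
  obtain ⟨m, hm⟩ : ∃ m, m = NN d c₀ τ σ := ⟨_, rfl⟩
  rw [← hm]
  rcases m with _ | m
  · rw [Sm_zero, mul_zero]
    exact hτ
  · by_contra hcon
    push Not at hcon
    have h1 : NN d c₀ τ σ ≤ m := Nat.sInf_le hcon
    omega

theorem NN_mono (h : CEp d C₁ lam c₀) {τ σ σ' : ℝ} (hτ : 0 ≤ τ) (hσ : 0 < σ) (hs : σ ≤ σ') :
    NN d c₀ τ σ' ≤ NN d c₀ τ σ := by
  apply Nat.sInf_le
  have h1 := (NN_spec h hτ hσ).1
  have h2 := Sm_nonneg d c₀ (NN d c₀ τ σ + 1)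
  show τ < σ' * Sm d c₀ (NN d c₀ τ σ + 1)
  nlinarith

theorem NN_ge (h : CEp d C₁ lam c₀) {τ σ : ℝ} (hτ : 0 ≤ τ) (hσ : 0 < σ) {J : ℕ}
    (hJ : σ * Sm d c₀ J ≤ τ) : J ≤ NN d c₀ τ σ := by
  by_contra hcon
  push Not at hcon
  have h1 := (NN_spec h hτ hσ).1
  have h2 : Sm d c₀ (NN d c₀ τ σ + 1) ≤ Sm d c₀ J := Sm_mono d c₀ (by omega)
  nlinarith

theorem Pd_step (h : CEp d C₁ lam c₀) (k : ℕ) : Pd d c₀ (k + 1) ≤ LL d * Pd d c₀ k := by
  rw [Pd_succ]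
  have h1 : ‖zz d c₀ k‖ ^ (d - 1) ≤ 3 ^ (d - 1) :=
    pow_le_pow_left₀ (norm_nonneg _) ((h.bd k).trans (by norm_num)) _
  have h2 := Pd_nonneg d c₀ k
  unfold LL
  gcongr

theorem Pd_add_le (h : CEp d C₁ lam c₀) (m k : ℕ) :
    Pd d c₀ (m + k) ≤ LL d ^ k * Pd d c₀ m := by
  induction k with
  | zero => simp
  | succ k ih =>
    have h1 := Pd_step h (m + k)
    have h2 : 0 ≤ LL d := by linarith [LL_two h.hd]
    calc Pd d c₀ (m + (k + 1)) ≤ LL d * Pd d c₀ (m + k) := h1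
      _ ≤ LL d * (LL d ^ k * Pd d c₀ m) := by gcongr
      _ = _ := by ring

theorem NN_le (h : CEp d C₁ lam c₀) {τ : ℝ} (hτ : 0 < τ) : ∃ W : ℝ, 1 ≤ W ∧
    ∀ σ : ℝ, 0 < σ → σ ≤ 1 → (NN d c₀ τ σ : ℝ) ≤ W * (1 + Real.log (1 / σ)) := by
  have hC := h.C1
  have hl : 0 < Real.log lam := Real.log_pos h.lam1
  have hlam0 : 0 < lam := by linarith [h.lam1]
  obtain ⟨X, hX⟩ : ∃ X : ℝ, X = |Real.log (2 * C₁ * τ)| := ⟨_, rfl⟩
  have hX0 : 0 ≤ X := by rw [hX]; exact abs_nonneg _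
  refine ⟨1 + (1 + X) / Real.log lam, by
    have : 0 ≤ (1 + X) / Real.log lam := by positivity
    linarith, ?_⟩
  intro σ hσ hσ1
  have hlog : 0 ≤ Real.log (1 / σ) := by
    apply Real.log_nonneg
    rw [le_div_iff₀ hσ]; linarith
  obtain ⟨n, hn⟩ : ∃ n, n = NN d c₀ τ σ := ⟨_, rfl⟩
  have h1 := (NN_spec h hτ.le hσ).2
  rw [← hn] at h1 ⊢
  rcases n with _ | m
  · push_cast
    have : 0 ≤ (1 + X) / Real.log lam := by positivity
    positivity
  · have h2 := Sm_term_le d c₀ (Nat.lt_succ_self m)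
    have hz : 0 < ‖zz d c₀ m‖ := norm_pos_iff.mpr (h.zz_ne m)
    have hP := h.Pd_pos m
    have h3 : Pd d c₀ m / 2 ≤ Pd d c₀ m / ‖zz d c₀ m‖ :=
      div_le_div_of_nonneg_left hP.le hz (h.bd m)
    have h4 : σ * (Pd d c₀ m / 2) ≤ τ := by
      refine le_trans ?_ h1
      have : Pd d c₀ m / 2 ≤ Sm d c₀ (m + 1) := h3.trans h2
      gcongr
    have h5 : lam ^ m ≤ C₁ * Pd d c₀ m := h.exp m
    have h6 : lam ^ m * σ ≤ 2 * C₁ * τ := by
      have h7 : C₁ * (σ * (Pd d c₀ m / 2)) ≤ C₁ * τ := by gcongr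
      have h8 : lam ^ m * σ ≤ C₁ * Pd d c₀ m * σ := by gcongr
      nlinarith
    have h7 := Real.log_le_log (by positivity) h6
    rw [Real.log_mul (by positivity) hσ.ne', Real.log_pow] at h7
    have h8 : Real.log (1 / σ) = - Real.log σ := by rw [one_div, Real.log_inv]
    have h9 : (m : ℝ) * Real.log lam ≤ X + Real.log (1 / σ) := by
      have := le_abs_self (Real.log (2 * C₁ * τ))
      rw [h8, hX]
      linarith
    have h10 : (m : ℝ) ≤ (X + Real.log (1 / σ)) / Real.log lam := by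
      rwa [le_div_iff₀ hl]
    have h11 : (X + Real.log (1 / σ)) / Real.log lam ≤
        (1 + X) / Real.log lam * (1 + Real.log (1 / σ)) := by
      rw [div_mul_eq_mul_div]
      gcongr
      nlinarith
    push_cast
    nlinarith

/-- The derivative at the time `NN σ` is at least `1 / σ`, up to a power of the recurrence. -/
theorem NN_low (hd : 2 ≤ d) (hS : Slow d c₀) (h : CEp d C₁ lam c₀) {τ : ℝ} (hτ : 0 < τ) :
    ∃ a A : ℝ, 0 < a ∧ 1 ≤ A ∧ ∀ σ : ℝ, 0 < σ → ∀ t : ℝ, 0 < t → t ≤ 1 →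
      (∀ j ≤ NN d c₀ τ σ, t ≤ ‖zz d c₀ j‖) → a * t ^ A ≤ σ * Pd d c₀ (NN d c₀ τ σ) := by
  obtain ⟨κ, η, a₁, A, r₀, hκ, hκ1, hη, -, -, hA, hr₀, H⟩ := t_EXQ' d c₀ hd hS
  have hq : Real.exp (-η) < 1 := by rw [Real.exp_lt_one_iff]; linarith
  have hq0 : 0 < Real.exp (-η) := Real.exp_pos _
  obtain ⟨G, hG⟩ : ∃ G, G = (1 - Real.exp (-η))⁻¹ := ⟨_, rfl⟩
  have hG0 : 0 < G := by rw [hG]; exact inv_pos.mpr (by linarith)
  refine ⟨τ * κ / G, A + 1, by positivity, by linarith, ?_⟩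
  intro σ hσ t ht ht1 hrec
  obtain ⟨N, hN⟩ : ∃ N, N = NN d c₀ τ σ := ⟨_, rfl⟩
  have h1 := (NN_spec h hτ.le hσ).1
  rw [← hN] at h1 hrec ⊢
  have hPN := h.Pd_pos N
  have htA : 0 < t ^ A := Real.rpow_pos_of_pos ht _
  have hterm : ∀ j ∈ Finset.range (N + 1), Pd d c₀ j / ‖zz d c₀ j‖ ≤
      Pd d c₀ N / (κ * t ^ A * t) * Real.exp (-η) ^ (N + 1 - 1 - j) := by
    intro j hj
    rw [Finset.mem_range] at hj
    have hjN : j ≤ N := by omega
    have hr : 0 < min r₀ (t ^ d) := lt_min hr₀ (by positivity)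
    have h2 := (H c₀ (min r₀ (t ^ d)) (zz d c₀ j) (N - j) hr (min_le_left _ _)
      (by rw [sub_self, norm_zero]; exact hr.le)).2.2 t ht ht1 (min_le_right _ _)
      (fun i _ => by rw [zz_add]; exact (h.bd _).trans (by norm_num))
      (fun i hi => by rw [zz_add]; exact hrec _ (by omega))
    have h3 : Pd d c₀ N = ‖deriv ((f d c₀)^[N - j]) (zz d c₀ j)‖ * Pd d c₀ j := by
      rw [← Pd_add, Nat.sub_add_cancel hjN]
    have hPj := h.Pd_pos j
    have hz : t ≤ ‖zz d c₀ j‖ := hrec j hjN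
    have h4 : κ * t ^ A * Real.exp (η * ((N - j : ℕ) : ℝ)) * Pd d c₀ j ≤ Pd d c₀ N := by
      rw [h3]
      gcongr
    have h5 : Real.exp (-η) ^ (N + 1 - 1 - j) * Real.exp (η * ((N - j : ℕ) : ℝ)) = 1 := by
      rw [← Real.exp_nat_mul, ← Real.exp_add, Nat.add_sub_cancel, Real.exp_eq_one_iff]
      ring
    calc Pd d c₀ j / ‖zz d c₀ j‖ ≤ Pd d c₀ j / t := div_le_div_of_nonneg_left hPj.le ht hz
      _ = κ * t ^ A * (Real.exp (-η) ^ (N + 1 - 1 - j) * Real.exp (η * ((N - j : ℕ) : ℝ))) *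
            Pd d c₀ j / (κ * t ^ A * t) := by
          rw [h5]; field_simp
      _ = (κ * t ^ A * Real.exp (η * ((N - j : ℕ) : ℝ)) * Pd d c₀ j) / (κ * t ^ A * t) *
            Real.exp (-η) ^ (N + 1 - 1 - j) := by ring
      _ ≤ _ := by gcongr
  have h6 : Sm d c₀ (N + 1) ≤ Pd d c₀ N / (κ * t ^ A * t) * G := by
    unfold Sm
    refine (Finset.sum_le_sum hterm).trans ?_
    rw [← Finset.mul_sum, Finset.sum_range_reflect (fun i => Real.exp (-η) ^ i) (N + 1)]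
    have h7 := (summable_geometric_of_lt_one hq0.le hq).sum_le_tsum (Finset.range (N + 1))
      (fun j _ => by positivity)
    rw [tsum_geometric_of_lt_one hq0.le hq, ← hG] at h7
    gcongr
  have h8 : τ ≤ σ * (Pd d c₀ N / (κ * t ^ A * t) * G) := h1.le.trans (by gcongr)
  rw [Real.rpow_add ht, Real.rpow_one]
  have h9 : σ * (Pd d c₀ N / (κ * t ^ A * t) * G) = σ * Pd d c₀ N * G / (κ * t ^ A * t) := by ring
  rw [h9, le_div_iff₀ (by positivity)] at h8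
  rw [div_mul_eq_mul_div, div_le_iff₀ hG0]
  linarith

theorem geom_le {L : ℝ} (hL : 2 ≤ L) (k : ℕ) : ∑ i ∈ Finset.range (k + 1), L ^ i ≤ L ^ (k + 1) := by
  induction k with
  | zero => simp; linarith
  | succ k ih =>
    rw [Finset.sum_range_succ]
    have h0 : 0 < L ^ (k + 1) := by positivity
    calc _ ≤ L ^ (k + 1) + L ^ (k + 1) := by linarith
      _ ≤ L ^ (k + 1 + 1) := by
        rw [pow_succ L (k + 1)]
        nlinarith

/-- The growth of the time when the scale decreases. -/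
theorem NN_grow (h : CEp d C₁ lam c₀) {τ : ℝ} (hτ : 0 < τ) {σ σ' : ℝ} (hσ : 0 < σ) (hs : σ ≤ σ')
    (hsτ : σ' ≤ τ) {t : ℝ} (ht : 0 < t) (ht1 : t ≤ 1) (hrec : ∀ j ≤ NN d c₀ τ σ, t ≤ ‖zz d c₀ j‖) :
    t * σ' ≤ 3 * LL d ^ (NN d c₀ τ σ - NN d c₀ τ σ' + 2) * σ := by
  have hL2 := LL_two h.hd
  have hσ' : 0 < σ' := hσ.trans_le hs
  obtain ⟨N, hN⟩ : ∃ N, N = NN d c₀ τ σ := ⟨_, rfl⟩
  obtain ⟨M, hM⟩ : ∃ M, M = NN d c₀ τ σ' := ⟨_, rfl⟩
  have hMN : M ≤ N := by rw [hM, hN]; exact NN_mono h hτ.le hσ hs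
  have h1 := (NN_spec h hτ.le hσ).1
  have h2 := (NN_spec h hτ.le hσ').2
  rw [← hN] at h1 hrec ⊢
  rw [← hM] at h2 ⊢
  obtain ⟨k, hk⟩ := Nat.exists_eq_add_of_le hMN
  have hkk : N - M = k := by omega
  rw [hkk]
  obtain ⟨L, hL⟩ : ∃ L, L = LL d := ⟨_, rfl⟩
  rw [← hL] at hL2 ⊢
  -- the derivative at the time `M`
  have h3 : Pd d c₀ M ≤ 2 * L * τ / σ' := by
    rw [le_div_iff₀ hσ']
    rcases Nat.eq_zero_or_pos M with h0 | h0
    · rw [h0, Pd_zero]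
      nlinarith
    · obtain ⟨m, rfl⟩ : ∃ m, M = m + 1 := ⟨M - 1, by omega⟩
      have h4 := Sm_term_le d c₀ (Nat.lt_succ_self m)
      have hz : 0 < ‖zz d c₀ m‖ := norm_pos_iff.mpr (h.zz_ne m)
      have hP := h.Pd_pos m
      have h5 : Pd d c₀ m / 2 ≤ Pd d c₀ m / ‖zz d c₀ m‖ :=
        div_le_div_of_nonneg_left hP.le hz (h.bd m)
      have h6 := Pd_step h m
      rw [← hL] at h6
      have h7 : σ' * (Pd d c₀ m / 2) ≤ τ := by
        refine le_trans ?_ h2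
        have : Pd d c₀ m / 2 ≤ Sm d c₀ (m + 1) := h5.trans h4
        gcongr
      have h8 : Pd d c₀ (m + 1) * σ' ≤ L * Pd d c₀ m * σ' := by gcongr
      nlinarith
  -- the sum
  have h4 : Sm d c₀ (N + 1) ≤ τ / σ' + 2 * L * τ / σ' * L ^ (k + 1) / t := by
    have e1 : Sm d c₀ (N + 1) = Sm d c₀ M +
        ∑ i ∈ Finset.range (k + 1), Pd d c₀ (M + i) / ‖zz d c₀ (M + i)‖ := by
      unfold Sm
      rw [hk, add_assoc, Finset.sum_range_add]
    have e2 : Sm d c₀ M ≤ τ / σ' := by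
      rw [le_div_iff₀ hσ']
      linarith
    have e3 : ∑ i ∈ Finset.range (k + 1), Pd d c₀ (M + i) / ‖zz d c₀ (M + i)‖ ≤
        ∑ i ∈ Finset.range (k + 1), 2 * L * τ / σ' / t * L ^ i := by
      refine Finset.sum_le_sum fun i hi => ?_
      rw [Finset.mem_range] at hi
      have h5 := Pd_add_le h M i
      rw [← hL] at h5
      have h6 : t ≤ ‖zz d c₀ (M + i)‖ := hrec _ (by omega)
      calc Pd d c₀ (M + i) / ‖zz d c₀ (M + i)‖ ≤ Pd d c₀ (M + i) / t :=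
            div_le_div_of_nonneg_left (Pd_nonneg _ _ _) ht h6
        _ ≤ L ^ i * Pd d c₀ M / t := by gcongr
        _ ≤ L ^ i * (2 * L * τ / σ') / t := by gcongr
        _ = _ := by ring
    rw [← Finset.mul_sum] at e3
    have e4 := geom_le hL2 k
    have e5 : 2 * L * τ / σ' / t * ∑ i ∈ Finset.range (k + 1), L ^ i ≤
        2 * L * τ / σ' / t * L ^ (k + 1) := by gcongr
    rw [e1]
    have e6 : 2 * L * τ / σ' * L ^ (k + 1) / t = 2 * L * τ / σ' / t * L ^ (k + 1) := by ring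
    rw [e6]
    linarith
  have h5 : τ ≤ σ * (τ / σ' + 2 * L * τ / σ' * L ^ (k + 1) / t) :=
    h1.le.trans (by gcongr)
  have h6 : σ * (τ / σ' + 2 * L * τ / σ' * L ^ (k + 1) / t) =
      τ * (σ * (t + 2 * L ^ (k + 2)) / (t * σ')) := by
    field_simp
    ring
  rw [h6] at h5
  have h7 : 1 ≤ σ * (t + 2 * L ^ (k + 2)) / (t * σ') := by
    have h8 : τ * 1 ≤ τ * (σ * (t + 2 * L ^ (k + 2)) / (t * σ')) := by linarith
    exact le_of_mul_le_mul_left h8 hτ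
  rw [le_div_iff₀ (by positivity)] at h7
  have h9 : 1 ≤ L ^ (k + 2) := one_le_pow₀ (by linarith)
  nlinarith

/-- The facts on the scale function. -/
structure Scale (d : ℕ) (c₀ : ℂ) (N : ℝ → ℕ) (a b A W r₀ : ℝ) : Prop where
  a0 : 0 < a
  b0 : 0 < b
  A1 : 1 ≤ A
  W1 : 1 ≤ W
  r0 : 0 < r₀
  r1 : r₀ ≤ 1
  mono : ∀ σ σ', 0 < σ → σ ≤ σ' → N σ' ≤ N σ
  le : ∀ σ, 0 < σ → σ ≤ r₀ → (N σ : ℝ) ≤ W * (1 + Real.log (1 / σ))
  low : ∀ σ, 0 < σ → ∀ t, 0 < t → t ≤ 1 → (∀ j ≤ N σ, t ≤ ‖zz d c₀ j‖) →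
    a * t ^ A ≤ σ * Pd d c₀ (N σ)
  up : ∀ σ, 0 < σ → σ ≤ r₀ → σ * Pd d c₀ (N σ) ≤ 2 * LL d
  grow : ∀ σ σ', 0 < σ → σ ≤ σ' → σ' ≤ r₀ → ∀ t, 0 < t → t ≤ 1 → (∀ j ≤ N σ, t ≤ ‖zz d c₀ j‖) →
    t * σ' ≤ 3 * LL d ^ (N σ - N σ' + 2) * σ
  stay : ∀ σ, 0 < σ → σ ≤ r₀ → ∀ c x, ‖c - c₀‖ ≤ σ → ‖x - c‖ ≤ σ → ∀ j ≤ N σ,
    ‖(f d c)^[j] x‖ ≤ 3
  two : ∀ σ, 0 < σ → σ ≤ r₀ → ∀ c c', ‖c - c₀‖ ≤ σ → ‖c' - c₀‖ ≤ σ →
    b * Pd d c₀ (N σ) * ‖c - c'‖ ≤ ‖(f d c)^[N σ] c - (f d c')^[N σ] c'‖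

theorem exists_scale (hd : 2 ≤ d) (hSl : Slow d c₀) :
    ∃ (N : ℝ → ℕ) (a b A W r₀ : ℝ), Scale d c₀ N a b A W r₀ := by
  obtain ⟨C₁, lam, h⟩ := hSl.1
  have hdR : (2 : ℝ) ≤ d := by exact_mod_cast hd
  obtain ⟨κ, εg, J, hκ, hεg, hg⟩ := h.grow
  have hA4 := CA_four h
  obtain ⟨Ca, hCa⟩ : ∃ Ca, Ca = CA C₁ lam := ⟨_, rfl⟩
  rw [← hCa] at hA4
  obtain ⟨S, hS⟩ : ∃ S : ℝ, S = 8 + 64 * Ca + 64 * Ca / κ := ⟨_, rfl⟩
  have hS0 : 0 < 64 * Ca / κ := by positivity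
  have hS8 : 8 ≤ S := by linarith
  have hS2 : 16 * Ca / S ≤ κ / 4 := by
    rw [div_le_iff₀ (by linarith)]
    have h3 : κ / 4 * (64 * Ca / κ) = 16 * Ca := by
      field_simp
      ring
    have h4 : κ / 4 * S = κ / 4 * (8 + 64 * Ca) + κ / 4 * (64 * Ca / κ) := by rw [hS]; ring
    rw [h4, h3]
    have : 0 ≤ κ / 4 * (8 + 64 * Ca) := by positivity
    linarith
  obtain ⟨τ, hτ⟩ : ∃ τ : ℝ, τ = 1 / (4 * d * Ca * S) := ⟨_, rfl⟩
  have hτ0 : 0 < τ := by rw [hτ]; positivity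
  have hτ1 : τ ≤ 1 := by
    rw [hτ, div_le_one (by positivity)]
    have h1 : 1 ≤ 4 * (d : ℝ) * Ca := by nlinarith
    nlinarith
  obtain ⟨W, hW, hNW⟩ := NN_le h hτ0
  obtain ⟨a, A, ha, hA, hlow⟩ := NN_low hd hSl h hτ0
  have hSJ := Sm_nonneg d c₀ J
  have hkey : ∀ σ : ℝ, 0 < σ → 4 * d * CA C₁ lam * (S * σ * Sm d c₀ (NN d c₀ τ σ)) ≤ 1 := by
    intro σ hσ
    have h1 := (NN_spec h hτ0.le hσ).2
    rw [← hCa]
    calc 4 * d * Ca * (S * σ * Sm d c₀ (NN d c₀ τ σ))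
        = 4 * d * Ca * S * (σ * Sm d c₀ (NN d c₀ τ σ)) := by ring
      _ ≤ 4 * d * Ca * S * τ := by gcongr
      _ = 1 := by rw [hτ]; field_simp
  refine ⟨NN d c₀ τ, a, κ / 2, A, W, min τ (min (τ / (Sm d c₀ J + 1)) (1 / 4)), ha, by positivity,
    hA, hW, by positivity, (min_le_left _ _).trans hτ1, ?_, ?_, hlow, ?_, ?_, ?_, ?_⟩
  · intro σ σ' hσ hs
    exact NN_mono h hτ0.le hσ hs
  · intro σ hσ hσr
    exact hNW σ hσ ((hσr.trans (min_le_left _ _)).trans hτ1)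
  · intro σ hσ hσr
    have hστ : σ ≤ τ := hσr.trans (min_le_left _ _)
    have h2 := (NN_spec h hτ0.le hσ).2
    have hL2 := LL_two hd
    obtain ⟨M, hM⟩ : ∃ M, M = NN d c₀ τ σ := ⟨_, rfl⟩
    rw [← hM] at h2 ⊢
    rcases Nat.eq_zero_or_pos M with h0 | h0
    · rw [h0, Pd_zero]
      linarith
    · obtain ⟨m, rfl⟩ : ∃ m, M = m + 1 := ⟨M - 1, by omega⟩
      have h4 := Sm_term_le d c₀ (Nat.lt_succ_self m)
      have hz : 0 < ‖zz d c₀ m‖ := norm_pos_iff.mpr (h.zz_ne m)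
      have hP := h.Pd_pos m
      have h5 : Pd d c₀ m / 2 ≤ Pd d c₀ m / ‖zz d c₀ m‖ :=
        div_le_div_of_nonneg_left hP.le hz (h.bd m)
      have h6 := Pd_step h m
      have h7 : σ * (Pd d c₀ m / 2) ≤ τ := by
        refine le_trans ?_ h2
        have : Pd d c₀ m / 2 ≤ Sm d c₀ (m + 1) := h5.trans h4
        gcongr
      have h8 : σ * Pd d c₀ (m + 1) ≤ σ * (LL d * Pd d c₀ m) := by gcongr
      nlinarith
  · intro σ σ' hσ hs hsr t ht ht1 hrec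
    exact NN_grow h hτ0 hσ hs (hsr.trans (min_le_left _ _)) ht ht1 hrec
  · -- no escape
    intro σ hσ hσr c x hc hx j hj
    have hσ4 : σ ≤ 1 / 4 := hσr.trans ((min_le_right _ _).trans (min_le_right _ _))
    have hx' : x ∈ ball c (2 * σ) := by
      rw [mem_ball, dist_eq_norm]
      linarith
    obtain ⟨n, hn⟩ : ∃ n, n = NN d c₀ τ σ := ⟨_, rfl⟩
    have hk := hkey σ hσ
    rw [← hn] at hj hk
    have hSm0 := Sm_nonneg d c₀ n
    have hk2 : 4 * d * CA C₁ lam * (2 * σ * Sm d c₀ n) ≤ 1 / 4 := by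
      rw [← hCa] at hk ⊢
      have h1 : 4 * d * Ca * (8 * σ * Sm d c₀ n) ≤ 4 * d * Ca * (S * σ * Sm d c₀ n) := by gcongr
      linarith
    have hpass := pass h (c := c) (s := 2 * σ) (k := n) (by positivity) (by linarith)
      (by linarith) hx'
    -- the distance for `j < n`
    have hsmall : ∀ i < n, 16 * d * ‖(f d c)^[i] x - zz d c₀ i‖ ≤ ‖zz d c₀ i‖ := by
      intro i hi
      have h1 := (hpass i hi.le).1
      have hz : 0 < ‖zz d c₀ i‖ := norm_pos_iff.mpr (h.zz_ne i)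
      have h2 := Sm_term_le d c₀ hi
      rw [← hCa] at h1 hk2
      have h3 : 4 * d * Ca * (2 * σ * (Pd d c₀ i / ‖zz d c₀ i‖)) ≤ 1 / 4 := by
        refine le_trans ?_ hk2
        gcongr
      have h4 : 16 * d * (Ca * (2 * σ) * Pd d c₀ i) / ‖zz d c₀ i‖ ≤ 1 := by
        have e : 16 * d * (Ca * (2 * σ) * Pd d c₀ i) / ‖zz d c₀ i‖ =
          4 * (4 * d * Ca * (2 * σ * (Pd d c₀ i / ‖zz d c₀ i‖))) := by ring
        rw [e]
        linarith
      rw [div_le_one hz] at h4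
      refine le_trans ?_ h4
      gcongr
    rcases Nat.lt_or_ge j n with hj' | hj'
    · have h1 := hsmall j hj'
      have h2 := h.bd j
      have h3 := norm_le_insert' ((f d c)^[j] x) (zz d c₀ j)
      have h4 : ‖(f d c)^[j] x - zz d c₀ j‖ ≤ 1 := by
        have := norm_nonneg ((f d c)^[j] x - zz d c₀ j)
        nlinarith
      linarith
    · have hjn : j = n := by omega
      subst hjn
      rcases j with _ | m
      · have h5 := h.bd 0
        rw [zz_zero] at h5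
        change ‖x‖ ≤ 3
        have h7 : x = (x - c) + (c - c₀) + c₀ := by ring
        have h8 := norm_add_le ((x - c) + (c - c₀)) c₀
        have h9 := norm_add_le (x - c) (c - c₀)
        rw [← h7] at h8
        linarith
      · have h1 := hsmall m (Nat.lt_succ_self m)
        have hz : 0 < ‖zz d c₀ m‖ := norm_pos_iff.mpr (h.zz_ne m)
        obtain ⟨w, hw⟩ : ∃ w : ℂ, w = (f d c)^[m] x - zz d c₀ m := ⟨_, rfl⟩
        obtain ⟨z, hzz⟩ : ∃ z : ℂ, z = zz d c₀ m := ⟨_, rfl⟩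
        have hx1 : (f d c)^[m] x = z + w := by rw [hw, hzz]; ring
        rw [← hw, ← hzz] at h1
        rw [← hzz] at hz
        have e1 : (f d c)^[m + 1] x = ((z + w) ^ d - z ^ d) + (c - c₀) + zz d c₀ (m + 1) := by
          rw [Function.iterate_succ_apply', hx1, zz_succ, ← hzz]
          unfold f
          ring
        have h2 : ‖(z + w) ^ d - z ^ d‖ ≤ 1 / 2 := by
          have h3 := pow_sub_le (z + w) z (m := ‖z‖ + ‖w‖)
            (norm_add_le _ _) (by have := norm_nonneg w; linarith) d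
          rw [add_sub_cancel_left] at h3
          refine h3.trans ?_
          have h4 : (‖z‖ + ‖w‖) ^ (d - 1) ≤ ‖z‖ ^ (d - 1) * 2 := by
            have e2 : ‖z‖ + ‖w‖ = ‖z‖ * (1 + ‖w‖ / ‖z‖) := by field_simp
            rw [e2, mul_pow]
            refine mul_le_mul_of_nonneg_left ?_ (by positivity)
            have h5 : 1 + ‖w‖ / ‖z‖ ≤ Real.exp (‖w‖ / ‖z‖) := by
              linarith [Real.add_one_le_exp (‖w‖ / ‖z‖)]
            calc (1 + ‖w‖ / ‖z‖) ^ (d - 1) ≤ Real.exp (‖w‖ / ‖z‖) ^ (d - 1) :=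
                  pow_le_pow_left₀ (by positivity) h5 _
              _ = Real.exp ((d - 1 : ℕ) * (‖w‖ / ‖z‖)) := by rw [← Real.exp_nat_mul]
              _ ≤ Real.exp (1 / 4) := by
                rw [Real.exp_le_exp]
                have h6 : ((d - 1 : ℕ) : ℝ) ≤ d := by exact_mod_cast Nat.sub_le d 1
                have h7 : 0 ≤ ‖w‖ / ‖z‖ := by positivity
                have h8 : 16 * (d * (‖w‖ / ‖z‖)) ≤ 1 := by
                  have e : 16 * (d * (‖w‖ / ‖z‖)) = 16 * d * ‖w‖ / ‖z‖ := by ring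
                  rw [e, div_le_one hz]
                  exact h1
                have h9 : ((d - 1 : ℕ) : ℝ) * (‖w‖ / ‖z‖) ≤ d * (‖w‖ / ‖z‖) := by gcongr
                linarith
              _ ≤ 2 := exp_quarter
          have h5 : ‖z‖ ^ (d - 1) * ‖z‖ ≤ 4 := by
            have e3 : ‖z‖ ^ (d - 1) * ‖z‖ = ‖z ^ d‖ := by
              rw [norm_pow, ← pow_succ]
              congr 1
              omega
            rw [e3]
            have e4 : z ^ d = zz d c₀ (m + 1) - zz d c₀ 0 := by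
              rw [zz_succ, zz_zero, ← hzz]; ring
            rw [e4]
            refine (norm_sub_le _ _).trans ?_
            have := h.bd (m + 1)
            have := h.bd 0
            linarith
          have h6 : d * (‖z‖ + ‖w‖) ^ (d - 1) * ‖w‖ ≤ ‖z‖ ^ (d - 1) * ‖z‖ * (1 / 8) := by
            have h7 : (d : ℝ) * ‖w‖ ≤ ‖z‖ / 16 := by linarith
            calc d * (‖z‖ + ‖w‖) ^ (d - 1) * ‖w‖ = (‖z‖ + ‖w‖) ^ (d - 1) * (d * ‖w‖) := by ring
              _ ≤ (‖z‖ ^ (d - 1) * 2) * (‖z‖ / 16) := by gcongr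
              _ = _ := by ring
          linarith
        rw [e1]
        have h10 := norm_add_le (((z + w) ^ d - z ^ d) + (c - c₀)) (zz d c₀ (m + 1))
        have h11 := norm_add_le ((z + w) ^ d - z ^ d) (c - c₀)
        have h12 := h.bd (m + 1)
        linarith
  · -- two parameters
    intro σ hσ hσr c c' hc hc'
    obtain ⟨n, hn⟩ : ∃ n, n = NN d c₀ τ σ := ⟨_, rfl⟩
    have hJn : J ≤ n := by
      rw [hn]
      apply NN_ge h hτ0.le hσ
      have h1 : σ ≤ τ / (Sm d c₀ J + 1) := hσr.trans ((min_le_right _ _).trans (min_le_left _ _))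
      rw [le_div_iff₀ (by linarith)] at h1
      nlinarith
    have hk := hkey σ hσ
    rw [← hn] at hk ⊢
    have hSr : 0 < S * σ := by positivity
    have hPn := h.Pd_pos n
    have hconst : 16 * (CA C₁ lam * (S * σ) * Pd d c₀ n) / (S ^ 2 * σ) =
        16 * Ca / S * Pd d c₀ n := by
      rw [← hCa]
      field_simp
    have hpass : ∀ b ∈ ball c₀ (S * σ), ∀ j ≤ n,
        ‖(f d b)^[j] b - zz d c₀ j‖ ≤ CA C₁ lam * (S * σ) * Pd d c₀ j ∧
        Pd d c₀ j / 2 ≤ ‖deriv ((f d b)^[j]) b‖ := by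
      intro b hb j hj
      rw [mem_ball, dist_eq_norm] at hb
      have h3 := pass h (c := b) (s := S * σ) (k := n) hSr hb.le hk (mem_ball_self hSr) j hj
      exact ⟨h3.1, h3.2.1⟩
    have hne : ∀ b ∈ ball c₀ (S * σ), ∀ j ≤ n, deriv ((f d b)^[j]) b ≠ 0 := by
      intro b hb j hj
      have h4 := h.Pd_pos j
      rw [← norm_pos_iff]
      linarith [(hpass b hb j hj).2]
    have h3 := Pool.Agent.N253.LC.Shad_.two_pt (fun b => (f d b)^[n] b) c₀ (zz d c₀ n) σ S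
      (CA C₁ lam * (S * σ) * Pd d c₀ n) hσ
      hS8 (fun b hb => (der_sum d hd b n (hne b hb)).differentiableAt.differentiableWithinAt)
      (fun z hz => (hpass z hz n le_rfl).1) c c' hc hc'
    rw [hconst] at h3
    have h4 := hg c₀ h c₀ (by rw [sub_self, norm_zero]; exact hεg.le) n hJn (fun j hj =>
      (hpass c₀ (mem_ball_self hSr) j hj).2)
    rw [P_succ_eq hd] at h4
    have h5 : ‖deriv (fun b => (f d b)^[n] b) c₀ * (c - c')‖ ≤
        ‖(f d c)^[n] c - (f d c')^[n] c'‖ + 16 * Ca / S * Pd d c₀ n * ‖c - c'‖ := by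
      have e1 : deriv (fun b => (f d b)^[n] b) c₀ * (c - c') =
        ((f d c)^[n] c - (f d c')^[n] c') -
        ((f d c)^[n] c - (f d c')^[n] c' - deriv (fun b => (f d b)^[n] b) c₀ * (c - c')) := by
          ring
      rw [e1]
      exact (norm_sub_le _ _).trans (by linarith)
    rw [norm_mul] at h5
    have h6 : κ * Pd d c₀ n * ‖c - c'‖ ≤ ‖deriv (fun b => (f d b)^[n] b) c₀‖ * ‖c - c'‖ := by
      gcongr
    have h7 : 16 * Ca / S * Pd d c₀ n * ‖c - c'‖ ≤ κ / 4 * Pd d c₀ n * ‖c - c'‖ := by gcongr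
    have h9 : 0 ≤ κ / 4 * Pd d c₀ n * ‖c - c'‖ := by positivity
    have h10 : κ / 2 * Pd d c₀ n * ‖c - c'‖ = κ * Pd d c₀ n * ‖c - c'‖ -
        2 * (κ / 4 * Pd d c₀ n * ‖c - c'‖) := by ring
    linarith

end Pool.Agent.KS6_34
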