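import Mathlib
import Pool.Agent.KS6_34.Scale

/-!
# The scale function, with the derivatives
-/

set_option autoImplicit false

open Set Filter Metric Topology

namespace Pool.Agent.KS6_34

open Pool.Agent.TH279.MD Pool.Agent.Y298.SH Pool.Agent.Y298.SH.CD
open Pool.Agent.H712R2 (P)
open Pool.Agent.N253.LS (Slow S_EXQ QQ t_EXQ')

variable {d : ℕ} {C₁ lam : ℝ} {c₀ : ℂ}

/-- The derivative along the passage. -/
def Pas (d : ℕ) (c₀ : ℂ) (N : ℝ → ℕ) (r₀ : ℝ) : Prop :=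
  ∀ σ : ℝ, 0 < σ → σ ≤ r₀ → ∀ c x : ℂ, ‖c - c₀‖ ≤ σ → ‖x - c‖ ≤ σ → ∀ j ≤ N σ,
    Pd d c₀ j / 2 ≤ ‖deriv ((f d c)^[j]) x‖ ∧ ‖deriv ((f d c)^[j]) x‖ ≤ 2 * Pd d c₀ j ∧
    (j < N σ → ‖zz d c₀ j‖ / 2 ≤ ‖(f d c)^[j] x‖)

theorem exists_scale2 (hd : 2 ≤ d) (hSl : Slow d c₀) :
    ∃ (N : ℝ → ℕ) (a b A W r₀ : ℝ), Scale d c₀ N a b A W r₀ ∧ Pas d c₀ N r₀ := by
  obtain ⟨C₁, lam, h⟩ := hSl.1
  have hdR : (2 : ℝ) ≤ d := by exact_mod_cast hd
  obtain ⟨κ, εg, J, hκ, hεg, hg⟩ := h.grow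
  have hA4 := CA_four h
  obtain ⟨Ca, hCa⟩ : ∃ Ca, Ca = CA C₁ lam := ⟨_, rfl⟩
  rw [← hCa] at hA4
  obtain ⟨S, hS⟩ : ∃ S : ℝ, S = 8 + 64 * Ca + 64 * Ca / κ := ⟨_, rfl⟩
  have hS0 : 0 < 64 * Ca / κ := by positivity
  have hS8 : 8 ≤ S := by linarith
  have hS2 : 16 * Ca / S ≤ κ / 4 := by
    rw [div_le_iff₀ (by linarith)]
    have h3 : κ / 4 * (64 * Ca / κ) = 16 * Ca := by
      field_simp
      ring
    have h4 : κ / 4 * S = κ / 4 * (8 + 64 * Ca) + κ / 4 * (64 * Ca / κ) := by rw [hS]; ring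
    rw [h4, h3]
    have : 0 ≤ κ / 4 * (8 + 64 * Ca) := by positivity
    linarith
  obtain ⟨τ, hτ⟩ : ∃ τ : ℝ, τ = 1 / (4 * d * Ca * S) := ⟨_, rfl⟩
  have hτ0 : 0 < τ := by rw [hτ]; positivity
  have hτ1 : τ ≤ 1 := by
    rw [hτ, div_le_one (by positivity)]
    have h1 : 1 ≤ 4 * (d : ℝ) * Ca := by nlinarith
    nlinarith
  obtain ⟨W, hW, hNW⟩ := NN_le h hτ0
  obtain ⟨a, A, ha, hA, hlow⟩ := NN_low hd hSl h hτ0
  have hSJ := Sm_nonneg d c₀ J
  have hkey : ∀ σ : ℝ, 0 < σ → 4 * d * CA C₁ lam * (S * σ * Sm d c₀ (NN d c₀ τ σ)) ≤ 1 := by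
    intro σ hσ
    have h1 := (NN_spec h hτ0.le hσ).2
    rw [← hCa]
    calc 4 * d * Ca * (S * σ * Sm d c₀ (NN d c₀ τ σ))
        = 4 * d * Ca * S * (σ * Sm d c₀ (NN d c₀ τ σ)) := by ring
      _ ≤ 4 * d * Ca * S * τ := by gcongr
      _ = 1 := by rw [hτ]; field_simp
  refine ⟨NN d c₀ τ, a, κ / 2, A, W, min τ (min (τ / (Sm d c₀ J + 1)) (1 / 4)), ⟨ha, by positivity,
    hA, hW, by positivity, (min_le_left _ _).trans hτ1, ?_, ?_, hlow, ?_, ?_, ?_, ?_⟩, ?_⟩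
  · intro σ σ' hσ hs
    exact NN_mono h hτ0.le hσ hs
  · intro σ hσ hσr
    exact hNW σ hσ ((hσr.trans (min_le_left _ _)).trans hτ1)
  · intro σ hσ hσr
    have hστ : σ ≤ τ := hσr.trans (min_le_left _ _)
    have h2 := (NN_spec h hτ0.le hσ).2
    have hL2 := LL_two hd
    obtain ⟨M, hM⟩ : ∃ M, M = NN d c₀ τ σ := ⟨_, rfl⟩
    rw [← hM] at h2 ⊢
    rcases Nat.eq_zero_or_pos M with h0 | h0
    · rw [h0, Pd_zero]
      linarith
    · obtain ⟨m, rfl⟩ : ∃ m, M = m + 1 := ⟨M - 1, by omega⟩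
      have h4 := Sm_term_le d c₀ (Nat.lt_succ_self m)
      have hz : 0 < ‖zz d c₀ m‖ := norm_pos_iff.mpr (h.zz_ne m)
      have hP := h.Pd_pos m
      have h5 : Pd d c₀ m / 2 ≤ Pd d c₀ m / ‖zz d c₀ m‖ :=
        div_le_div_of_nonneg_left hP.le hz (h.bd m)
      have h6 := Pd_step h m
      have h7 : σ * (Pd d c₀ m / 2) ≤ τ := by
        refine le_trans ?_ h2
        have : Pd d c₀ m / 2 ≤ Sm d c₀ (m + 1) := h5.trans h4
        gcongr
      have h8 : σ * Pd d c₀ (m + 1) ≤ σ * (LL d * Pd d c₀ m) := by gcongr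
      nlinarith
  · intro σ σ' hσ hs hsr t ht ht1 hrec
    exact NN_grow h hτ0 hσ hs (hsr.trans (min_le_left _ _)) ht ht1 hrec
  · -- no escape
    intro σ hσ hσr c x hc hx j hj
    have hσ4 : σ ≤ 1 / 4 := hσr.trans ((min_le_right _ _).trans (min_le_right _ _))
    have hx' : x ∈ ball c (2 * σ) := by
      rw [mem_ball, dist_eq_norm]
      linarith
    obtain ⟨n, hn⟩ : ∃ n, n = NN d c₀ τ σ := ⟨_, rfl⟩
    have hk := hkey σ hσ
    rw [← hn] at hj hk
    have hSm0 := Sm_nonneg d c₀ n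
    have hk2 : 4 * d * CA C₁ lam * (2 * σ * Sm d c₀ n) ≤ 1 / 4 := by
      rw [← hCa] at hk ⊢
      have h1 : 4 * d * Ca * (8 * σ * Sm d c₀ n) ≤ 4 * d * Ca * (S * σ * Sm d c₀ n) := by gcongr
      linarith
    have hpass := pass h (c := c) (s := 2 * σ) (k := n) (by positivity) (by linarith)
      (by linarith) hx'
    -- the distance for `j < n`
    have hsmall : ∀ i < n, 16 * d * ‖(f d c)^[i] x - zz d c₀ i‖ ≤ ‖zz d c₀ i‖ := by
      intro i hi
      have h1 := (hpass i hi.le).1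
      have hz : 0 < ‖zz d c₀ i‖ := norm_pos_iff.mpr (h.zz_ne i)
      have h2 := Sm_term_le d c₀ hi
      rw [← hCa] at h1 hk2
      have h3 : 4 * d * Ca * (2 * σ * (Pd d c₀ i / ‖zz d c₀ i‖)) ≤ 1 / 4 := by
        refine le_trans ?_ hk2
        gcongr
      have h4 : 16 * d * (Ca * (2 * σ) * Pd d c₀ i) / ‖zz d c₀ i‖ ≤ 1 := by
        have e : 16 * d * (Ca * (2 * σ) * Pd d c₀ i) / ‖zz d c₀ i‖ =
          4 * (4 * d * Ca * (2 * σ * (Pd d c₀ i / ‖zz d c₀ i‖))) := by ring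
        rw [e]
        linarith
      rw [div_le_one hz] at h4
      refine le_trans ?_ h4
      gcongr
    rcases Nat.lt_or_ge j n with hj' | hj'
    · have h1 := hsmall j hj'
      have h2 := h.bd j
      have h3 := norm_le_insert' ((f d c)^[j] x) (zz d c₀ j)
      have h4 : ‖(f d c)^[j] x - zz d c₀ j‖ ≤ 1 := by
        have := norm_nonneg ((f d c)^[j] x - zz d c₀ j)
        nlinarith
      linarith
    · have hjn : j = n := by omega
      subst hjn
      rcases j with _ | m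
      · have h5 := h.bd 0
        rw [zz_zero] at h5
        change ‖x‖ ≤ 3
        have h7 : x = (x - c) + (c - c₀) + c₀ := by ring
        have h8 := norm_add_le ((x - c) + (c - c₀)) c₀
        have h9 := norm_add_le (x - c) (c - c₀)
        rw [← h7] at h8
        linarith
      · have h1 := hsmall m (Nat.lt_succ_self m)
        have hz : 0 < ‖zz d c₀ m‖ := norm_pos_iff.mpr (h.zz_ne m)
        obtain ⟨w, hw⟩ : ∃ w : ℂ, w = (f d c)^[m] x - zz d c₀ m := ⟨_, rfl⟩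
        obtain ⟨z, hzz⟩ : ∃ z : ℂ, z = zz d c₀ m := ⟨_, rfl⟩
        have hx1 : (f d c)^[m] x = z + w := by rw [hw, hzz]; ring
        rw [← hw, ← hzz] at h1
        rw [← hzz] at hz
        have e1 : (f d c)^[m + 1] x = ((z + w) ^ d - z ^ d) + (c - c₀) + zz d c₀ (m + 1) := by
          rw [Function.iterate_succ_apply', hx1, zz_succ, ← hzz]
          unfold f
          ring
        have h2 : ‖(z + w) ^ d - z ^ d‖ ≤ 1 / 2 := by
          have h3 := pow_sub_le (z + w) z (m := ‖z‖ + ‖w‖)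
            (norm_add_le _ _) (by have := norm_nonneg w; linarith) d
          rw [add_sub_cancel_left] at h3
          refine h3.trans ?_
          have h4 : (‖z‖ + ‖w‖) ^ (d - 1) ≤ ‖z‖ ^ (d - 1) * 2 := by
            have e2 : ‖z‖ + ‖w‖ = ‖z‖ * (1 + ‖w‖ / ‖z‖) := by field_simp
            rw [e2, mul_pow]
            refine mul_le_mul_of_nonneg_left ?_ (by positivity)
            have h5 : 1 + ‖w‖ / ‖z‖ ≤ Real.exp (‖w‖ / ‖z‖) := by
              linarith [Real.add_one_le_exp (‖w‖ / ‖z‖)]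
            calc (1 + ‖w‖ / ‖z‖) ^ (d - 1) ≤ Real.exp (‖w‖ / ‖z‖) ^ (d - 1) :=
                  pow_le_pow_left₀ (by positivity) h5 _
              _ = Real.exp ((d - 1 : ℕ) * (‖w‖ / ‖z‖)) := by rw [← Real.exp_nat_mul]
              _ ≤ Real.exp (1 / 4) := by
                rw [Real.exp_le_exp]
                have h6 : ((d - 1 : ℕ) : ℝ) ≤ d := by exact_mod_cast Nat.sub_le d 1
                have h7 : 0 ≤ ‖w‖ / ‖z‖ := by positivity
                have h8 : 16 * (d * (‖w‖ / ‖z‖)) ≤ 1 := by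
                  have e : 16 * (d * (‖w‖ / ‖z‖)) = 16 * d * ‖w‖ / ‖z‖ := by ring
                  rw [e, div_le_one hz]
                  exact h1
                have h9 : ((d - 1 : ℕ) : ℝ) * (‖w‖ / ‖z‖) ≤ d * (‖w‖ / ‖z‖) := by gcongr
                linarith
              _ ≤ 2 := exp_quarter
          have h5 : ‖z‖ ^ (d - 1) * ‖z‖ ≤ 4 := by
            have e3 : ‖z‖ ^ (d - 1) * ‖z‖ = ‖z ^ d‖ := by
              rw [norm_pow, ← pow_succ]
              congr 1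
              omega
            rw [e3]
            have e4 : z ^ d = zz d c₀ (m + 1) - zz d c₀ 0 := by
              rw [zz_succ, zz_zero, ← hzz]; ring
            rw [e4]
            refine (norm_sub_le _ _).trans ?_
            have := h.bd (m + 1)
            have := h.bd 0
            linarith
          have h6 : d * (‖z‖ + ‖w‖) ^ (d - 1) * ‖w‖ ≤ ‖z‖ ^ (d - 1) * ‖z‖ * (1 / 8) := by
            have h7 : (d : ℝ) * ‖w‖ ≤ ‖z‖ / 16 := by linarith
            calc d * (‖z‖ + ‖w‖) ^ (d - 1) * ‖w‖ = (‖z‖ + ‖w‖) ^ (d - 1) * (d * ‖w‖) := by ring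
              _ ≤ (‖z‖ ^ (d - 1) * 2) * (‖z‖ / 16) := by gcongr
              _ = _ := by ring
          linarith
        rw [e1]
        have h10 := norm_add_le (((z + w) ^ d - z ^ d) + (c - c₀)) (zz d c₀ (m + 1))
        have h11 := norm_add_le ((z + w) ^ d - z ^ d) (c - c₀)
        have h12 := h.bd (m + 1)
        linarith
  · -- two parameters
    intro σ hσ hσr c c' hc hc'
    obtain ⟨n, hn⟩ : ∃ n, n = NN d c₀ τ σ := ⟨_, rfl⟩
    have hJn : J ≤ n := by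
      rw [hn]
      apply NN_ge h hτ0.le hσ
      have h1 : σ ≤ τ / (Sm d c₀ J + 1) := hσr.trans ((min_le_right _ _).trans (min_le_left _ _))
      rw [le_div_iff₀ (by linarith)] at h1
      nlinarith
    have hk := hkey σ hσ
    rw [← hn] at hk ⊢
    have hSr : 0 < S * σ := by positivity
    have hPn := h.Pd_pos n
    have hconst : 16 * (CA C₁ lam * (S * σ) * Pd d c₀ n) / (S ^ 2 * σ) =
        16 * Ca / S * Pd d c₀ n := by
      rw [← hCa]
      field_simp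
    have hpass : ∀ b ∈ ball c₀ (S * σ), ∀ j ≤ n,
        ‖(f d b)^[j] b - zz d c₀ j‖ ≤ CA C₁ lam * (S * σ) * Pd d c₀ j ∧
        Pd d c₀ j / 2 ≤ ‖deriv ((f d b)^[j]) b‖ := by
      intro b hb j hj
      rw [mem_ball, dist_eq_norm] at hb
      have h3 := pass h (c := b) (s := S * σ) (k := n) hSr hb.le hk (mem_ball_self hSr) j hj
      exact ⟨h3.1, h3.2.1⟩
    have hne : ∀ b ∈ ball c₀ (S * σ), ∀ j ≤ n, deriv ((f d b)^[j]) b ≠ 0 := by
      intro b hb j hj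
      have h4 := h.Pd_pos j
      rw [← norm_pos_iff]
      linarith [(hpass b hb j hj).2]
    have h3 := Pool.Agent.N253.LC.Shad_.two_pt (fun b => (f d b)^[n] b) c₀ (zz d c₀ n) σ S
      (CA C₁ lam * (S * σ) * Pd d c₀ n) hσ
      hS8 (fun b hb => (der_sum d hd b n (hne b hb)).differentiableAt.differentiableWithinAt)
      (fun z hz => (hpass z hz n le_rfl).1) c c' hc hc'
    rw [hconst] at h3
    have h4 := hg c₀ h c₀ (by rw [sub_self, norm_zero]; exact hεg.le) n hJn (fun j hj =>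
      (hpass c₀ (mem_ball_self hSr) j hj).2)
    rw [P_succ_eq hd] at h4
    have h5 : ‖deriv (fun b => (f d b)^[n] b) c₀ * (c - c')‖ ≤
        ‖(f d c)^[n] c - (f d c')^[n] c'‖ + 16 * Ca / S * Pd d c₀ n * ‖c - c'‖ := by
      have e1 : deriv (fun b => (f d b)^[n] b) c₀ * (c - c') =
        ((f d c)^[n] c - (f d c')^[n] c') -
        ((f d c)^[n] c - (f d c')^[n] c' - deriv (fun b => (f d b)^[n] b) c₀ * (c - c')) := by
          ring
      rw [e1]
      exact (norm_sub_le _ _).trans (by linarith)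
    rw [norm_mul] at h5
    have h6 : κ * Pd d c₀ n * ‖c - c'‖ ≤ ‖deriv (fun b => (f d b)^[n] b) c₀‖ * ‖c - c'‖ := by
      gcongr
    have h7 : 16 * Ca / S * Pd d c₀ n * ‖c - c'‖ ≤ κ / 4 * Pd d c₀ n * ‖c - c'‖ := by gcongr
    have h9 : 0 ≤ κ / 4 * Pd d c₀ n * ‖c - c'‖ := by positivity
    have h10 : κ / 2 * Pd d c₀ n * ‖c - c'‖ = κ * Pd d c₀ n * ‖c - c'‖ -
        2 * (κ / 4 * Pd d c₀ n * ‖c - c'‖) := by ring
    linarith
  · -- the derivative
    intro σ hσ hσr c x hc hx j hj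
    have hx' : x ∈ ball c (2 * σ) := by
      rw [mem_ball, dist_eq_norm]
      linarith
    obtain ⟨n, hn⟩ : ∃ n, n = NN d c₀ τ σ := ⟨_, rfl⟩
    have hk := hkey σ hσ
    rw [← hn] at hj hk ⊢
    have hSm0 := Sm_nonneg d c₀ n
    have hk2 : 4 * d * CA C₁ lam * (2 * σ * Sm d c₀ n) ≤ 1 := by
      rw [← hCa] at hk ⊢
      have h1 : 4 * d * Ca * (8 * σ * Sm d c₀ n) ≤ 4 * d * Ca * (S * σ * Sm d c₀ n) := by gcongr
      have h2 : 0 ≤ 4 * d * Ca * (σ * Sm d c₀ n) := by positivity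
      linarith
    obtain ⟨h1, h2, h3, h4⟩ := pass h (c := c) (s := 2 * σ) (k := n) (by positivity) (by linarith)
      hk2 hx' j hj
    refine ⟨h2, h3, fun hjn => ?_⟩
    have h5 := h4 hjn
    have h6 : ‖zz d c₀ j‖ ≤ ‖(f d c)^[j] x‖ + ‖(f d c)^[j] x - zz d c₀ j‖ := by
      have := norm_sub_le ((f d c)^[j] x) ((f d c)^[j] x - zz d c₀ j)
      rwa [sub_sub_cancel] at this
    have h7 := norm_nonneg ((f d c)^[j] x - zz d c₀ j)
    have h8 : 8 * ‖(f d c)^[j] x - zz d c₀ j‖ ≤ ‖zz d c₀ j‖ := by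
      refine le_trans ?_ h5
      have : (8 : ℝ) ≤ 4 * d := by linarith
      gcongr
    linarith

end Pool.Agent.KS6_34
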