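import Mathlib

/-!
# Orbits with close passages: the sums of the inverses of the derivatives

`g i` is the derivative at the `i`-th point of an orbit, `x i` its distance from the critical point;
`Cl i` says that the point is close to the critical point. All is about real sequences.
-/

set_option autoImplicit false

open Finset

namespace Pool.Agent.KS6_34

/-- The product of the derivatives from the time `i` to the time `l`. -/
noncomputable def PP (g : ℕ → ℝ) (i l : ℕ) : ℝ := ∏ k ∈ Ico i l, g k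

/-- The sum of the inverses of the products. -/
noncomputable def HH (g : ℕ → ℝ) (i T : ℕ) : ℝ := ∑ l ∈ Ioc i T, (PP g i l)⁻¹

/-- The sum for the error at the end. -/
noncomputable def B1 (g x : ℕ → ℝ) (i T : ℕ) : ℝ := ∑ k ∈ Ico i T, (PP g k T)⁻¹ / x k

/-- The sum for the error in the parameter. -/
noncomputable def B2 (g x : ℕ → ℝ) (i T : ℕ) : ℝ := ∑ k ∈ Ico i T, HH g k T / x k

theorem PP_self (g : ℕ → ℝ) (i : ℕ) : PP g i i = 1 := by simp [PP]

theorem PP_mul (g : ℕ → ℝ) {i m l : ℕ} (h1 : i ≤ m) (h2 : m ≤ l) :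
    PP g i l = PP g i m * PP g m l := by
  unfold PP
  rw [prod_Ico_consecutive g h1 h2]

theorem PP_pos {g : ℕ → ℝ} {i l : ℕ} (h : ∀ k, i ≤ k → k < l → 0 < g k) : 0 < PP g i l := by
  unfold PP
  apply prod_pos
  intro k hk
  rw [mem_Ico] at hk
  exact h k hk.1 hk.2

theorem HH_self (g : ℕ → ℝ) (i : ℕ) : HH g i i = 0 := by simp [HH]

theorem B1_self (g x : ℕ → ℝ) (i : ℕ) : B1 g x i i = 0 := by simp [B1]

theorem B2_self (g x : ℕ → ℝ) (i : ℕ) : B2 g x i i = 0 := by simp [B2]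

theorem HH_add (g : ℕ → ℝ) {i m T : ℕ} (h1 : i ≤ m) (h2 : m ≤ T) :
    HH g i T = HH g i m + (PP g i m)⁻¹ * HH g m T := by
  have h3 : HH g i T = HH g i m + ∑ l ∈ Ioc m T, (PP g i l)⁻¹ := by
    unfold HH
    rw [sum_Ioc_consecutive _ h1 h2]
  rw [h3]
  unfold HH
  rw [mul_sum]
  congr 1
  refine sum_congr rfl fun l hl => ?_
  rw [mem_Ioc] at hl
  rw [PP_mul g h1 hl.1.le, mul_inv]

theorem B1_add (g x : ℕ → ℝ) {i m T : ℕ} (h1 : i ≤ m) (h2 : m ≤ T) :
    B1 g x i T = (PP g m T)⁻¹ * B1 g x i m + B1 g x m T := by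
  have h3 : B1 g x i T = (∑ k ∈ Ico i m, (PP g k T)⁻¹ / x k) + B1 g x m T := by
    unfold B1
    rw [sum_Ico_consecutive _ h1 h2]
  rw [h3]
  congr 1
  unfold B1
  rw [mul_sum]
  refine sum_congr rfl fun k hk => ?_
  rw [mem_Ico] at hk
  rw [PP_mul g hk.2.le h2, mul_inv]
  ring

theorem B2_add (g x : ℕ → ℝ) {i m T : ℕ} (h1 : i ≤ m) (h2 : m ≤ T) :
    B2 g x i T = B2 g x i m + HH g m T * B1 g x i m + B2 g x m T := by
  have h3 : B2 g x i T = (∑ k ∈ Ico i m, HH g k T / x k) + B2 g x m T := by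
    unfold B2
    rw [sum_Ico_consecutive _ h1 h2]
  rw [h3]
  congr 1
  unfold B2 B1
  rw [mul_sum, ← sum_add_distrib]
  refine sum_congr rfl fun k hk => ?_
  rw [mem_Ico] at hk
  rw [HH_add g hk.2.le h2]
  ring

theorem HH_nonneg {g : ℕ → ℝ} {i T : ℕ} (h : ∀ k, i ≤ k → k < T → 0 < g k) : 0 ≤ HH g i T := by
  unfold HH
  apply sum_nonneg
  intro l hl
  rw [mem_Ioc] at hl
  exact (inv_pos.mpr (PP_pos fun k h1 h2 => h k h1 (by omega))).le

theorem B1_nonneg {g x : ℕ → ℝ} {i T : ℕ} (h : ∀ k, i ≤ k → k < T → 0 < g k)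
    (hx : ∀ k, i ≤ k → k < T → 0 < x k) : 0 ≤ B1 g x i T := by
  unfold B1
  apply sum_nonneg
  intro l hl
  rw [mem_Ico] at hl
  have h1 : 0 < PP g l T := PP_pos fun k h1 h2 => h k (by omega) h2
  have h2 := hx l hl.1 hl.2
  positivity

theorem B2_nonneg {g x : ℕ → ℝ} {i T : ℕ} (h : ∀ k, i ≤ k → k < T → 0 < g k)
    (hx : ∀ k, i ≤ k → k < T → 0 < x k) : 0 ≤ B2 g x i T := by
  unfold B2
  apply sum_nonneg
  intro l hl
  rw [mem_Ico] at hl
  have h1 : 0 ≤ HH g l T := HH_nonneg fun k h1 h2 => h k (by omega) h2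
  have h2 := hx l hl.1 hl.2
  positivity

/-- Geometric sums. -/
theorem geo_Ioc {η : ℝ} (hη : 0 < η) (i T : ℕ) :
    ∑ l ∈ Ioc i T, Real.exp (-(η * ((l - i : ℕ) : ℝ))) ≤ 1 / (Real.exp η - 1) := by
  have hQ : 0 < Real.exp η - 1 := by
    have := Real.one_lt_exp_iff.2 hη
    linarith
  rcases le_total i T with hiT | hiT
  · obtain ⟨m, rfl⟩ := Nat.exists_eq_add_of_le hiT
    clear hiT
    have key : ∑ l ∈ Ioc i (i + m), Real.exp (-(η * ((l - i : ℕ) : ℝ))) =
        (1 - Real.exp (-(η * m))) / (Real.exp η - 1) := by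
      induction m with
      | zero => simp
      | succ m ih =>
        rw [← add_assoc, sum_Ioc_succ_top (by omega), ih]
        have e1 : i + m + 1 - i = m + 1 := by omega
        rw [e1]
        have e2 : Real.exp (-(η * m)) = Real.exp (-(η * ((m + 1 : ℕ) : ℝ))) * Real.exp η := by
          rw [← Real.exp_add]
          congr 1
          push_cast
          ring
        rw [e2]
        field_simp
        ring
    rw [key]
    apply div_le_div_of_nonneg_right _ hQ.le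
    have := Real.exp_pos (-(η * m))
    linarith
  · rw [Ioc_eq_empty_of_le hiT, sum_empty]
    positivity

theorem geo_Ico {η : ℝ} (hη : 0 < η) (i T : ℕ) :
    ∑ k ∈ Ico i T, Real.exp (-(η * ((T - k : ℕ) : ℝ))) ≤ 1 / (Real.exp η - 1) := by
  have hQ : 0 < Real.exp η - 1 := by
    have := Real.one_lt_exp_iff.2 hη
    linarith
  rcases le_total i T with hiT | hiT
  · obtain ⟨m, rfl⟩ := Nat.exists_eq_add_of_le hiT
    clear hiT
    have e0 : ∑ k ∈ Ico i (i + m), Real.exp (-(η * ((i + m - k : ℕ) : ℝ))) =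
        ∑ k ∈ range m, Real.exp (-(η * ((m - k : ℕ) : ℝ))) := by
      rw [sum_Ico_eq_sum_range]
      have e1 : i + m - i = m := by omega
      rw [e1]
      refine sum_congr rfl fun k _ => ?_
      have e2 : i + m - (i + k) = m - k := by omega
      rw [e2]
    rw [e0]
    clear e0
    have key : ∑ k ∈ range m, Real.exp (-(η * ((m - k : ℕ) : ℝ))) =
        (1 - Real.exp (-(η * m))) / (Real.exp η - 1) := by
      induction m with
      | zero => simp
      | succ m ih =>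
        rw [sum_range_succ']
        have e1 : ∑ k ∈ range m, Real.exp (-(η * ((m + 1 - (k + 1) : ℕ) : ℝ))) =
            ∑ k ∈ range m, Real.exp (-(η * ((m - k : ℕ) : ℝ))) := by
          refine sum_congr rfl fun k _ => ?_
          have e2 : m + 1 - (k + 1) = m - k := by omega
          rw [e2]
        rw [e1, ih]
        have e2 : Real.exp (-(η * m)) = Real.exp (-(η * ((m + 1 : ℕ) : ℝ))) * Real.exp η := by
          rw [← Real.exp_add]
          congr 1
          push_cast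
          ring
        rw [e2, Nat.sub_zero]
        field_simp
        ring
    rw [key]
    apply div_le_div_of_nonneg_right _ hQ.le
    have := Real.exp_pos (-(η * m))
    linarith
  · rw [Ico_eq_empty_of_le hiT, sum_empty]
    positivity

theorem inv_le_exp {q η A : ℝ} {m : ℕ} (hq : 0 < q) (h : q * Real.exp (η * m) ≤ A) :
    A⁻¹ ≤ q⁻¹ * Real.exp (-(η * m)) := by
  have h1 : 0 < q * Real.exp (η * m) := by positivity
  have h2 := inv_anti₀ h1 h
  rwa [mul_inv, ← Real.exp_neg] at h2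

/-- The assumptions on an orbit of length `j`. -/
structure Orb (j N : ℕ) (Cl : ℕ → Prop) (g x : ℕ → ℝ) (κ η a s Γ q₀ q₁ q₂ t₁ r₁ : ℝ) : Prop where
  κ0 : 0 < κ
  κ1 : κ ≤ 1
  η0 : 0 < η
  a0 : 0 ≤ a
  a1 : a ≤ 1
  s0 : 0 < s
  Γ0 : 0 < Γ
  q00 : 0 < q₀
  q10 : 0 < q₁
  q20 : 0 < q₂
  t0 : 0 < t₁
  r0 : 0 < r₁
  g0 : ∀ i < j, 0 < g i
  xs : ∀ i < j, s ≤ x i
  x4 : ∀ i < j, x i ≤ 4
  pN : ∀ i < j, Cl i → i + N + 1 ≤ j
  pΓ : ∀ i < j, Cl i → Γ ≤ PP g i (i + N + 1)
  p0 : ∀ i < j, Cl i → ∀ l, i < l → l ≤ i + N + 1 →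
    q₀ * Real.exp (η * ((l - i : ℕ) : ℝ)) ≤ PP g i l
  p1 : ∀ i < j, Cl i → ∀ k, i < k → k < i + N + 1 → t₁ ≤ x k ∧ ∀ l, k < l → l ≤ i + N + 1 →
    q₁ * Real.exp (η * ((l - k : ℕ) : ℝ)) ≤ PP g k l
  s1 : ∀ i l, i < l → l ≤ j → (∀ k, i ≤ k → k < l → ¬ Cl k) → Cl l →
    κ * Real.exp (η * ((l - i : ℕ) : ℝ)) * x i ^ (-a) ≤ PP g i l
  s2 : ∀ i l, i < l → l ≤ j → (∀ k, i ≤ k → k < l → ¬ Cl k) →
    q₂ * Real.exp (η * ((l - i : ℕ) : ℝ)) ≤ PP g i l
  far : ∀ i < j, ¬ Cl i → r₁ ≤ x i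

namespace Orb

variable {j N : ℕ} {Cl : ℕ → Prop} {g x : ℕ → ℝ} {κ η a s Γ q₀ q₁ q₂ t₁ r₁ : ℝ}

theorem Q0 (h : Orb j N Cl g x κ η a s Γ q₀ q₁ q₂ t₁ r₁) : 0 < Real.exp η - 1 := by
  have := Real.one_lt_exp_iff.2 h.η0
  linarith

theorem x0 (h : Orb j N Cl g x κ η a s Γ q₀ q₁ q₂ t₁ r₁) {i : ℕ} (hi : i < j) : 0 < x i :=
  h.s0.trans_le (h.xs i hi)

theorem Ppos (h : Orb j N Cl g x κ η a s Γ q₀ q₁ q₂ t₁ r₁) {i l : ℕ} (hl : l ≤ j) :
    0 < PP g i l :=
  PP_pos fun k _ h2 => h.g0 k (by omega)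

/-- The sums over a stretch without close points. -/
theorem stretch (h : Orb j N Cl g x κ η a s Γ q₀ q₁ q₂ t₁ r₁) {i T : ℕ} (hiT : i ≤ T)
    (hT : T ≤ j) (hfar : ∀ k, i ≤ k → k < T → ¬ Cl k) (hC : Cl T) :
    κ / 4 * Real.exp (η * ((T - i : ℕ) : ℝ)) ≤ PP g i T ∧
    HH g i T ≤ 1 / (q₂ * (Real.exp η - 1)) ∧
    B1 g x i T ≤ r₁ ^ (a - 1) / (κ * (Real.exp η - 1)) ∧
    B2 g x i T ≤ ((T - i : ℕ) : ℝ) * (1 / (q₂ * (Real.exp η - 1) * r₁)) := by
  have hκ := h.κ0
  have hκ1 := h.κ1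
  have hQ := h.Q0
  have hq2 := h.q20
  have hr := h.r0
  have hH : ∀ k, i ≤ k → k < T → HH g k T ≤ 1 / (q₂ * (Real.exp η - 1)) := by
    intro k hk hkT
    unfold HH
    calc ∑ l ∈ Ioc k T, (PP g k l)⁻¹ ≤ ∑ l ∈ Ioc k T, q₂⁻¹ * Real.exp (-(η * ((l - k : ℕ) : ℝ))) := by
          refine sum_le_sum fun l hl => ?_
          rw [mem_Ioc] at hl
          exact inv_le_exp hq2 (h.s2 k l hl.1 (by omega) fun m h1 h2 => hfar m (by omega) (by omega))
      _ = q₂⁻¹ * ∑ l ∈ Ioc k T, Real.exp (-(η * ((l - k : ℕ) : ℝ))) := by rw [mul_sum]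
      _ ≤ q₂⁻¹ * (1 / (Real.exp η - 1)) := by gcongr; exact geo_Ioc h.η0 k T
      _ = _ := by field_simp
  refine ⟨?_, ?_, ?_, ?_⟩
  · rcases Nat.eq_or_lt_of_le hiT with h0 | h0
    · subst h0
      rw [PP_self, Nat.sub_self]
      simp
      linarith
    · refine le_trans ?_ (h.s1 i T h0 hT hfar hC)
      have hx := h.x0 (i := i) (by omega)
      have h1 : (1 : ℝ) / 4 ≤ x i ^ (-a) := by
        rw [Real.rpow_neg hx.le, one_div]
        apply inv_anti₀ (Real.rpow_pos_of_pos hx _)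
        calc x i ^ a ≤ 4 ^ a := Real.rpow_le_rpow hx.le (h.x4 i (by omega)) h.a0
          _ ≤ 4 ^ (1 : ℝ) := Real.rpow_le_rpow_of_exponent_le (by norm_num) h.a1
          _ = 4 := Real.rpow_one 4
      calc κ / 4 * Real.exp (η * ((T - i : ℕ) : ℝ)) =
            κ * Real.exp (η * ((T - i : ℕ) : ℝ)) * (1 / 4) := by ring
        _ ≤ _ := by gcongr
  · rcases Nat.eq_or_lt_of_le hiT with h0 | h0
    · subst h0
      rw [HH_self]
      positivity
    · exact hH i le_rfl h0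
  · unfold B1
    calc ∑ k ∈ Ico i T, (PP g k T)⁻¹ / x k
        ≤ ∑ k ∈ Ico i T, r₁ ^ (a - 1) / κ * Real.exp (-(η * ((T - k : ℕ) : ℝ))) := by
          refine sum_le_sum fun k hk => ?_
          rw [mem_Ico] at hk
          have hxk := h.x0 (i := k) (by omega)
          have hfk := h.far k (by omega) (hfar k hk.1 hk.2)
          have h1 := h.s1 k T hk.2 hT (fun m h1 h2 => hfar m (by omega) h2) hC
          have h2 : 0 < κ * x k ^ (-a) := by
            have := Real.rpow_pos_of_pos hxk (-a)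
            positivity
          have h3 := inv_le_exp (η := η) (m := T - k) h2 (by
            calc κ * x k ^ (-a) * Real.exp (η * ((T - k : ℕ) : ℝ)) =
                κ * Real.exp (η * ((T - k : ℕ) : ℝ)) * x k ^ (-a) := by ring
              _ ≤ _ := h1)
          have h4 : (κ * x k ^ (-a))⁻¹ / x k = x k ^ (a - 1) / κ := by
            rw [mul_inv, Real.rpow_neg hxk.le, inv_inv, Real.rpow_sub hxk, Real.rpow_one]
            field_simp
          have h5 : x k ^ (a - 1) ≤ r₁ ^ (a - 1) :=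
            Real.rpow_le_rpow_of_nonpos hr hfk (by linarith [h.a1])
          calc (PP g k T)⁻¹ / x k ≤ ((κ * x k ^ (-a))⁻¹ * Real.exp (-(η * ((T - k : ℕ) : ℝ)))) / x k := by
                gcongr
            _ = ((κ * x k ^ (-a))⁻¹ / x k) * Real.exp (-(η * ((T - k : ℕ) : ℝ))) := by ring
            _ = x k ^ (a - 1) / κ * Real.exp (-(η * ((T - k : ℕ) : ℝ))) := by rw [h4]
            _ ≤ _ := by gcongr
      _ = r₁ ^ (a - 1) / κ * ∑ k ∈ Ico i T, Real.exp (-(η * ((T - k : ℕ) : ℝ))) := by rw [mul_sum]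
      _ ≤ r₁ ^ (a - 1) / κ * (1 / (Real.exp η - 1)) := by
          have := Real.rpow_pos_of_pos hr (a - 1)
          gcongr
          exact geo_Ico h.η0 i T
      _ = _ := by field_simp
  · unfold B2
    calc ∑ k ∈ Ico i T, HH g k T / x k ≤ ∑ k ∈ Ico i T, 1 / (q₂ * (Real.exp η - 1) * r₁) := by
          refine sum_le_sum fun k hk => ?_
          rw [mem_Ico] at hk
          have hfk := h.far k (by omega) (hfar k hk.1 hk.2)
          have h1 := hH k hk.1 hk.2
          have h2 : 0 ≤ HH g k T := HH_nonneg fun m _ h2 => h.g0 m (by omega)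
          calc HH g k T / x k ≤ HH g k T / r₁ := by gcongr
            _ ≤ 1 / (q₂ * (Real.exp η - 1)) / r₁ := by gcongr
            _ = _ := by rw [div_div]
      _ = _ := by rw [sum_const, Nat.card_Ico, nsmul_eq_mul]

/-- The sums over a close passage. -/
theorem passage (h : Orb j N Cl g x κ η a s Γ q₀ q₁ q₂ t₁ r₁) {i : ℕ} (hi : i < j) (hC : Cl i) :
    Γ ≤ PP g i (i + N + 1) ∧ HH g i (i + N + 1) ≤ 1 / (q₀ * (Real.exp η - 1)) ∧
    B1 g x i (i + N + 1) ≤ 1 / (Γ * s) + 1 / (q₁ * (Real.exp η - 1) * t₁) ∧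
    B2 g x i (i + N + 1) ≤ 1 / (q₀ * (Real.exp η - 1) * s) + N * (1 / (q₁ * (Real.exp η - 1) * t₁)) := by
  have hQ := h.Q0
  have hq0 := h.q00
  have hq1 := h.q10
  have ht := h.t0
  have hs := h.s0
  have hΓ := h.Γ0
  have hN := h.pN i hi hC
  have hΓ' := h.pΓ i hi hC
  have hH0 : HH g i (i + N + 1) ≤ 1 / (q₀ * (Real.exp η - 1)) := by
    unfold HH
    calc ∑ l ∈ Ioc i (i + N + 1), (PP g i l)⁻¹
        ≤ ∑ l ∈ Ioc i (i + N + 1), q₀⁻¹ * Real.exp (-(η * ((l - i : ℕ) : ℝ))) := by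
          refine sum_le_sum fun l hl => ?_
          rw [mem_Ioc] at hl
          exact inv_le_exp hq0 (h.p0 i hi hC l hl.1 hl.2)
      _ = q₀⁻¹ * ∑ l ∈ Ioc i (i + N + 1), Real.exp (-(η * ((l - i : ℕ) : ℝ))) := by rw [mul_sum]
      _ ≤ q₀⁻¹ * (1 / (Real.exp η - 1)) := by gcongr; exact geo_Ioc h.η0 _ _
      _ = _ := by field_simp
  refine ⟨hΓ', hH0, ?_, ?_⟩
  · have e1 : B1 g x i (i + N + 1) = (PP g i (i + N + 1))⁻¹ / x i +
        ∑ k ∈ Ico (i + 1) (i + N + 1), (PP g k (i + N + 1))⁻¹ / x k := by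
      unfold B1
      rw [sum_eq_sum_Ico_succ_bot (by omega)]
    rw [e1]
    apply add_le_add
    · have hxi := h.xs i hi
      have hP : 0 < PP g i (i + N + 1) := hΓ.trans_le hΓ'
      calc (PP g i (i + N + 1))⁻¹ / x i ≤ Γ⁻¹ / s := by gcongr
        _ = _ := by field_simp
    · calc ∑ k ∈ Ico (i + 1) (i + N + 1), (PP g k (i + N + 1))⁻¹ / x k
          ≤ ∑ k ∈ Ico (i + 1) (i + N + 1),
            q₁⁻¹ / t₁ * Real.exp (-(η * ((i + N + 1 - k : ℕ) : ℝ))) := by
            refine sum_le_sum fun k hk => ?_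
            rw [mem_Ico] at hk
            obtain ⟨h1, h2⟩ := h.p1 i hi hC k (by omega) hk.2
            have h3 := inv_le_exp hq1 (h2 (i + N + 1) hk.2 le_rfl)
            have hP : 0 < PP g k (i + N + 1) := h.Ppos hN
            calc (PP g k (i + N + 1))⁻¹ / x k ≤
                (q₁⁻¹ * Real.exp (-(η * ((i + N + 1 - k : ℕ) : ℝ)))) / t₁ := by gcongr
              _ = _ := by ring
        _ = q₁⁻¹ / t₁ * ∑ k ∈ Ico (i + 1) (i + N + 1), Real.exp (-(η * ((i + N + 1 - k : ℕ) : ℝ))) := by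
            rw [mul_sum]
        _ ≤ q₁⁻¹ / t₁ * (1 / (Real.exp η - 1)) := by gcongr; exact geo_Ico h.η0 _ _
        _ = _ := by field_simp
  · have e1 : B2 g x i (i + N + 1) = HH g i (i + N + 1) / x i +
        ∑ k ∈ Ico (i + 1) (i + N + 1), HH g k (i + N + 1) / x k := by
      unfold B2
      rw [sum_eq_sum_Ico_succ_bot (by omega)]
    rw [e1]
    apply add_le_add
    · have hxi := h.xs i hi
      have hH1 : 0 ≤ HH g i (i + N + 1) := HH_nonneg fun m _ h2 => h.g0 m (by omega)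
      calc HH g i (i + N + 1) / x i ≤ HH g i (i + N + 1) / s := by gcongr
        _ ≤ 1 / (q₀ * (Real.exp η - 1)) / s := by gcongr
        _ = _ := by rw [div_div]
    · calc ∑ k ∈ Ico (i + 1) (i + N + 1), HH g k (i + N + 1) / x k
          ≤ ∑ k ∈ Ico (i + 1) (i + N + 1), 1 / (q₁ * (Real.exp η - 1) * t₁) := by
            refine sum_le_sum fun k hk => ?_
            rw [mem_Ico] at hk
            obtain ⟨h1, h2⟩ := h.p1 i hi hC k (by omega) hk.2
            have hH1 : 0 ≤ HH g k (i + N + 1) := HH_nonneg fun m _ h2 => h.g0 m (by omega)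
            have hH2 : HH g k (i + N + 1) ≤ 1 / (q₁ * (Real.exp η - 1)) := by
              unfold HH
              calc ∑ l ∈ Ioc k (i + N + 1), (PP g k l)⁻¹
                  ≤ ∑ l ∈ Ioc k (i + N + 1), q₁⁻¹ * Real.exp (-(η * ((l - k : ℕ) : ℝ))) := by
                    refine sum_le_sum fun l hl => ?_
                    rw [mem_Ioc] at hl
                    exact inv_le_exp hq1 (h2 l hl.1 hl.2)
                _ = q₁⁻¹ * ∑ l ∈ Ioc k (i + N + 1), Real.exp (-(η * ((l - k : ℕ) : ℝ))) := by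
                    rw [mul_sum]
                _ ≤ q₁⁻¹ * (1 / (Real.exp η - 1)) := by gcongr; exact geo_Ioc h.η0 _ _
                _ = _ := by field_simp
            calc HH g k (i + N + 1) / x k ≤ HH g k (i + N + 1) / t₁ := by gcongr
              _ ≤ 1 / (q₁ * (Real.exp η - 1)) / t₁ := by gcongr
              _ = _ := by rw [div_div]
        _ = ((N : ℕ) : ℝ) * (1 / (q₁ * (Real.exp η - 1) * t₁)) := by
            rw [sum_const, Nat.card_Ico, nsmul_eq_mul]
            congr 2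
            omega

/-- The next close time. -/
theorem next (hend : Cl j) {i : ℕ} (hi : i ≤ j) :
    ∃ T, i ≤ T ∧ T ≤ j ∧ Cl T ∧ ∀ k, i ≤ k → k < T → ¬ Cl k := by
  classical
  have hex : ∃ T, i ≤ T ∧ Cl T := ⟨j, hi, hend⟩
  refine ⟨Nat.find hex, (Nat.find_spec hex).1, Nat.find_min' hex ⟨hi, hend⟩, (Nat.find_spec hex).2, ?_⟩
  intro k hk hkT hC
  exact Nat.find_min hex hkT ⟨hk, hC⟩

/-- The constants. -/
structure Cst (N : ℕ) (κ η a s Γ q₀ q₁ q₂ t₁ r₁ α β γ u : ℝ) : Prop where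
  big : 2 ≤ Γ * (κ / 4)
  Γ1 : 1 ≤ Γ
  hα : 2 * (1 / (q₀ * (Real.exp η - 1)) + 1 / (q₂ * (Real.exp η - 1))) ≤ α
  hβ : 2 * ((1 / (Γ * s) + 1 / (q₁ * (Real.exp η - 1) * t₁)) * (4 / κ) +
    r₁ ^ (a - 1) / (κ * (Real.exp η - 1))) ≤ β
  hγ : (1 / (q₀ * (Real.exp η - 1) * s) + N * (1 / (q₁ * (Real.exp η - 1) * t₁))) +
    1 / (q₂ * (Real.exp η - 1)) * (1 / (Γ * s) + 1 / (q₁ * (Real.exp η - 1) * t₁)) +
    1 / (q₂ * (Real.exp η - 1) * r₁) / η ≤ γ
  hu : 2 * (γ + α * β) ≤ u * (Γ * (κ / 4))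

/-- **The sums from a close point to the end.** -/
theorem close (h : Orb j N Cl g x κ η a s Γ q₀ q₁ q₂ t₁ r₁) {α β γ u : ℝ}
    (c : Cst N κ η a s Γ q₀ q₁ q₂ t₁ r₁ α β γ u) (hend : Cl j) :
    ∀ m i : ℕ, i + m = j → Cl i → 1 ≤ PP g i j ∧ (i < j → Γ * (κ / 4) ≤ PP g i j) ∧
      HH g i j ≤ α ∧ B1 g x i j ≤ β * (1 - (PP g i j)⁻¹) ∧ B2 g x i j ≤ u * PP g i j := by
  have hQ := h.Q0
  have hq0 := h.q00
  have hq1 := h.q10
  have hq2 := h.q20
  have ht := h.t0
  have hs := h.s0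
  have hΓ := h.Γ0
  have hκ := h.κ0
  have hκ1 := h.κ1
  have hη := h.η0
  have hr := h.r0
  have hrr : 0 < r₁ ^ (a - 1) := Real.rpow_pos_of_pos hr _
  obtain ⟨α₀, hα₀⟩ : ∃ y, y = 1 / (q₀ * (Real.exp η - 1)) := ⟨_, rfl⟩
  obtain ⟨α₁, hα₁⟩ : ∃ y, y = 1 / (q₂ * (Real.exp η - 1)) := ⟨_, rfl⟩
  obtain ⟨β₀, hβ₀⟩ : ∃ y, y = 1 / (Γ * s) + 1 / (q₁ * (Real.exp η - 1) * t₁) := ⟨_, rfl⟩
  obtain ⟨β₁, hβ₁⟩ : ∃ y, y = r₁ ^ (a - 1) / (κ * (Real.exp η - 1)) := ⟨_, rfl⟩
  obtain ⟨γ₀, hγ₀⟩ : ∃ y, y = 1 / (q₀ * (Real.exp η - 1) * s) +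
    N * (1 / (q₁ * (Real.exp η - 1) * t₁)) := ⟨_, rfl⟩
  obtain ⟨γ₁, hγ₁⟩ : ∃ y, y = 1 / (q₂ * (Real.exp η - 1) * r₁) := ⟨_, rfl⟩
  obtain ⟨G, hG⟩ : ∃ y, y = Γ * (κ / 4) := ⟨_, rfl⟩
  have p1 : 0 < α₀ := by rw [hα₀]; positivity
  have p2 : 0 < α₁ := by rw [hα₁]; positivity
  have p3 : 0 < β₀ := by rw [hβ₀]; positivity
  have p4 : 0 < β₁ := by rw [hβ₁]; positivity
  have p5 : 0 < γ₀ := by rw [hγ₀]; positivity
  have p6 : 0 < γ₁ := by rw [hγ₁]; positivity
  have c1 := c.big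
  have c2 := c.Γ1
  have c3 := c.hα
  have c4 := c.hβ
  have c5 := c.hγ
  have c6 := c.hu
  rw [← hG] at c1 c6
  rw [← hα₀, ← hα₁] at c3
  rw [← hβ₀, ← hβ₁] at c4
  rw [← hα₁, ← hβ₀, ← hγ₀, ← hγ₁] at c5
  have pα : 0 < α := by linarith
  have pβ : 0 < β := lt_of_lt_of_le (by positivity) c4
  have pγ : 0 < γ := lt_of_lt_of_le (by positivity) c5
  have pu : 0 < u := by
    by_contra hcon
    push Not at hcon
    have : u * G ≤ 0 := mul_nonpos_of_nonpos_of_nonneg hcon (by linarith)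
    have : 0 < 2 * (γ + α * β) := by positivity
    linarith
  intro m
  induction m using Nat.strong_induction_on with
  | _ m ih =>
    intro i hij hCi
    rcases Nat.eq_zero_or_pos m with hm | hm
    · have : i = j := by omega
      subst this
      rw [PP_self, HH_self, B1_self, B2_self]
      refine ⟨le_rfl, fun h => absurd h (lt_irrefl _), pα.le, by simp, by linarith⟩
    · have hi : i < j := by omega
      have hN := h.pN i hi hCi
      obtain ⟨M, hM⟩ : ∃ M, M = i + N + 1 := ⟨_, rfl⟩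
      obtain ⟨a1, a2, a3, a4⟩ := h.passage hi hCi
      rw [← hM] at a1 a2 a3 a4 hN
      rw [← hα₀] at a2
      rw [← hβ₀] at a3
      rw [← hγ₀] at a4
      obtain ⟨T, hMT, hTj, hCT, hfar⟩ := next hend hN
      obtain ⟨b1, b2, b3, b4⟩ := h.stretch hMT hTj hfar hCT
      rw [← hα₁] at b2
      rw [← hβ₁] at b3
      rw [← hγ₁] at b4
      obtain ⟨f1, -, f3, f4, f5⟩ := ih (j - T) (by omega) T (by omega) hCT
      have hiM : i ≤ M := by omega
      have hiT : i ≤ T := by omega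
      have e0 := PP_mul g hiM hMT
      have e1 := HH_add g hiM hMT
      have e2 := B1_add g x hiM hMT
      have e3 := B2_add g x hiM hMT
      have P1 : 0 < PP g i M := h.Ppos hN
      have P2 : 0 < PP g M T := h.Ppos hTj
      have P3 : 0 < PP g T j := by linarith
      have H1 : 0 ≤ HH g i M := HH_nonneg fun k _ h2 => h.g0 k (by omega)
      have H2 : 0 ≤ HH g M T := HH_nonneg fun k _ h2 => h.g0 k (by omega)
      have H3 : 0 ≤ HH g T j := HH_nonneg fun k _ h2 => h.g0 k (by omega)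
      have S1 : 0 ≤ B1 g x i M := B1_nonneg (fun k _ h2 => h.g0 k (by omega))
        fun k _ h2 => h.x0 (by omega)
      have S2 : 0 ≤ B1 g x M T := B1_nonneg (fun k _ h2 => h.g0 k (by omega))
        fun k _ h2 => h.x0 (by omega)
      -- the block
      obtain ⟨n, hn⟩ : ∃ n, n = T - M := ⟨_, rfl⟩
      rw [← hn] at b1 b4
      obtain ⟨X, hX⟩ : ∃ X, X = Real.exp (η * (n : ℝ)) := ⟨_, rfl⟩
      rw [← hX] at b1
      have hX1 : 1 ≤ X := by rw [hX]; exact Real.one_le_exp (by positivity)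
      have hnX : (n : ℝ) ≤ X / η := by
        rw [le_div_iff₀ hη, hX]
        have := Real.add_one_le_exp (η * (n : ℝ))
        linarith
      have k1 : G * X ≤ PP g i T := by
        rw [e0, hG]
        calc Γ * (κ / 4) * X = Γ * (κ / 4 * X) := by ring
          _ ≤ PP g i M * PP g M T := by gcongr
      have k1' : G ≤ PP g i T := le_trans (by nlinarith) k1
      have P4 : 0 < PP g i T := by linarith
      have k2 : HH g i T ≤ α₀ + α₁ := by
        rw [e1]
        have h1 : (PP g i M)⁻¹ ≤ 1 := inv_le_one_of_one_le₀ (c2.trans a1)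
        have h2 : (PP g i M)⁻¹ * HH g M T ≤ 1 * HH g M T := by gcongr
        linarith
      have k3 : B1 g x i T ≤ β / 2 := by
        rw [e2]
        have h1 : (PP g M T)⁻¹ ≤ 4 / κ := by
          have h2 : κ / 4 ≤ PP g M T := le_trans (by nlinarith) b1
          calc (PP g M T)⁻¹ ≤ (κ / 4)⁻¹ := inv_anti₀ (by positivity) h2
            _ = 4 / κ := by rw [inv_div]
        have h2 : (PP g M T)⁻¹ * B1 g x i M ≤ 4 / κ * β₀ := by gcongr
        linarith
      have k4 : B2 g x i T ≤ γ * X := by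
        rw [e3]
        have h1 : HH g M T * B1 g x i M ≤ α₁ * β₀ := by gcongr
        have h2 : (n : ℝ) * γ₁ ≤ γ₁ / η * X := by
          calc (n : ℝ) * γ₁ ≤ X / η * γ₁ := by gcongr
            _ = γ₁ / η * X := by ring
        have h3 : γ₀ + α₁ * β₀ ≤ (γ₀ + α₁ * β₀) * X := le_mul_of_one_le_right (by positivity) hX1
        calc B2 g x i M + HH g M T * B1 g x i M + B2 g x M T
            ≤ γ₀ + α₁ * β₀ + (n : ℝ) * γ₁ := by linarith
          _ ≤ (γ₀ + α₁ * β₀ + γ₁ / η) * X := by linarith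
          _ ≤ γ * X := by gcongr
      have S3 : 0 ≤ B1 g x i T := B1_nonneg (fun k _ h2 => h.g0 k (by omega))
        fun k _ h2 => h.x0 (by omega)
      rw [PP_mul g hiT hTj, HH_add g hiT hTj, B1_add g x hiT hTj, B2_add g x hiT hTj]
      have k5 : G ≤ PP g i T * PP g T j := by
        calc G ≤ PP g i T * 1 := by linarith
          _ ≤ PP g i T * PP g T j := by gcongr
      refine ⟨by linarith, fun _ => by rw [← hG]; exact k5, ?_, ?_, ?_⟩
      · have h1 : (PP g i T)⁻¹ ≤ 1 / 2 := by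
          rw [one_div]
          exact inv_anti₀ (by norm_num) (by linarith)
        have h2 : (PP g i T)⁻¹ * HH g T j ≤ 1 / 2 * α := by gcongr
        linarith
      · have h1 : (PP g T j)⁻¹ * B1 g x i T ≤ (PP g T j)⁻¹ * (β / 2) := by gcongr
        have h2 : (PP g i T * PP g T j)⁻¹ ≤ 1 / 2 * (PP g T j)⁻¹ := by
          rw [mul_inv]
          have h1 : (PP g i T)⁻¹ ≤ 1 / 2 := by
            rw [one_div]
            exact inv_anti₀ (by norm_num) (by linarith)
          gcongr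
        have h3 : β * (PP g i T * PP g T j)⁻¹ ≤ β * (1 / 2 * (PP g T j)⁻¹) := by gcongr
        nlinarith
      · have h1 : HH g T j * B1 g x i T ≤ α * β := by
          have : B1 g x i T ≤ β := by linarith
          gcongr
        have h2 : γ * X + α * β ≤ (γ + α * β) * X := by
          have : α * β ≤ α * β * X := le_mul_of_one_le_right (by positivity) hX1
          linarith
        have h3 : (γ + α * β) * X ≤ u / 2 * (G * X) := by
          have h4 : (γ + α * β) ≤ u / 2 * G := by linarith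
          calc (γ + α * β) * X ≤ (u / 2 * G) * X := by gcongr
            _ = _ := by ring
        have h4 : u / 2 * (G * X) ≤ u / 2 * (PP g i T * PP g T j) := by
          have h5 : G * X ≤ PP g i T * PP g T j := by
            calc G * X ≤ PP g i T * 1 := by linarith
              _ ≤ PP g i T * PP g T j := by gcongr
          gcongr
        have h5 : u * PP g T j ≤ u / 2 * (PP g i T * PP g T j) := by
          have h6 : 2 * PP g T j ≤ PP g i T * PP g T j := by
            have : 2 ≤ PP g i T := by linarith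
            gcongr
          calc u * PP g T j = u / 2 * (2 * PP g T j) := by ring
            _ ≤ _ := by gcongr
        linarith

/-- **The sums from the beginning to the end.** -/
theorem total (h : Orb j N Cl g x κ η a s Γ q₀ q₁ q₂ t₁ r₁) {α β γ u : ℝ}
    (c : Cst N κ η a s Γ q₀ q₁ q₂ t₁ r₁ α β γ u) (hend : Cl j) :
    κ / 4 ≤ PP g 0 j ∧ HH g 0 j ≤ α * (1 + 4 / κ) ∧ B1 g x 0 j ≤ 2 * β ∧
      B2 g x 0 j ≤ 4 / κ * (γ + α * β + u) * PP g 0 j := by
  have hQ := h.Q0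
  have hq0 := h.q00
  have hq1 := h.q10
  have hq2 := h.q20
  have ht := h.t0
  have hs := h.s0
  have hΓ := h.Γ0
  have hκ := h.κ0
  have hκ1 := h.κ1
  have hη := h.η0
  have hr := h.r0
  have hrr : 0 < r₁ ^ (a - 1) := Real.rpow_pos_of_pos hr _
  obtain ⟨α₀, hα₀⟩ : ∃ y, y = 1 / (q₀ * (Real.exp η - 1)) := ⟨_, rfl⟩
  obtain ⟨α₁, hα₁⟩ : ∃ y, y = 1 / (q₂ * (Real.exp η - 1)) := ⟨_, rfl⟩
  obtain ⟨β₀, hβ₀⟩ : ∃ y, y = 1 / (Γ * s) + 1 / (q₁ * (Real.exp η - 1) * t₁) := ⟨_, rfl⟩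
  obtain ⟨β₁, hβ₁⟩ : ∃ y, y = r₁ ^ (a - 1) / (κ * (Real.exp η - 1)) := ⟨_, rfl⟩
  obtain ⟨γ₀, hγ₀⟩ : ∃ y, y = 1 / (q₀ * (Real.exp η - 1) * s) +
    N * (1 / (q₁ * (Real.exp η - 1) * t₁)) := ⟨_, rfl⟩
  obtain ⟨γ₁, hγ₁⟩ : ∃ y, y = 1 / (q₂ * (Real.exp η - 1) * r₁) := ⟨_, rfl⟩
  have p1 : 0 < α₀ := by rw [hα₀]; positivity
  have p2 : 0 < α₁ := by rw [hα₁]; positivity
  have p3 : 0 < β₀ := by rw [hβ₀]; positivity
  have p4 : 0 < β₁ := by rw [hβ₁]; positivity
  have p5 : 0 < γ₀ := by rw [hγ₀]; positivity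
  have p6 : 0 < γ₁ := by rw [hγ₁]; positivity
  have c3 := c.hα
  have c4 := c.hβ
  have c5 := c.hγ
  have c6 := c.hu
  have c1 := c.big
  rw [← hα₀, ← hα₁] at c3
  rw [← hβ₀, ← hβ₁] at c4
  rw [← hα₁, ← hβ₀, ← hγ₀, ← hγ₁] at c5
  have pα : 0 < α := by linarith
  have pβ : 0 < β := lt_of_lt_of_le (by positivity) c4
  have pγ : 0 < γ := lt_of_lt_of_le (by positivity) c5
  have pu : 0 < u := by
    by_contra hcon
    push Not at hcon
    have : u * (Γ * (κ / 4)) ≤ 0 := mul_nonpos_of_nonpos_of_nonneg hcon (by linarith)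
    have : 0 < 2 * (γ + α * β) := by positivity
    linarith
  obtain ⟨T, -, hTj, hCT, hfar⟩ := next hend (Nat.zero_le j)
  obtain ⟨b1, b2, b3, b4⟩ := h.stretch (Nat.zero_le T) hTj hfar hCT
  rw [← hα₁] at b2
  rw [← hβ₁] at b3
  rw [← hγ₁] at b4
  obtain ⟨f1, -, f3, f4, f5⟩ := h.close c hend (j - T) T (by omega) hCT
  obtain ⟨n, hn⟩ : ∃ n, n = T - 0 := ⟨_, rfl⟩
  rw [← hn] at b1 b4
  obtain ⟨X, hX⟩ : ∃ X, X = Real.exp (η * (n : ℝ)) := ⟨_, rfl⟩
  rw [← hX] at b1
  have hX1 : 1 ≤ X := by rw [hX]; exact Real.one_le_exp (by positivity)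
  have hnX : (n : ℝ) ≤ X / η := by
    rw [le_div_iff₀ hη, hX]
    have := Real.add_one_le_exp (η * (n : ℝ))
    linarith
  have P2 : 0 < PP g 0 T := h.Ppos hTj
  have P3 : 0 < PP g T j := by linarith
  have H2 : 0 ≤ HH g 0 T := HH_nonneg fun k _ h2 => h.g0 k (by omega)
  have H3 : 0 ≤ HH g T j := HH_nonneg fun k _ h2 => h.g0 k (by omega)
  have S2 : 0 ≤ B1 g x 0 T := B1_nonneg (fun k _ h2 => h.g0 k (by omega))
    fun k _ h2 => h.x0 (by omega)
  have hκX : κ / 4 ≤ κ / 4 * X := le_mul_of_one_le_right (by positivity) hX1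
  rw [PP_mul g (Nat.zero_le T) hTj, HH_add g (Nat.zero_le T) hTj, B1_add g x (Nat.zero_le T) hTj,
    B2_add g x (Nat.zero_le T) hTj]
  have k0 : κ / 4 ≤ PP g 0 T := hκX.trans b1
  have k1 : κ / 4 * X ≤ PP g 0 T * PP g T j := by
    calc κ / 4 * X ≤ PP g 0 T * 1 := by linarith
      _ ≤ _ := by gcongr
  have k2 : κ / 4 * PP g T j ≤ PP g 0 T * PP g T j := by gcongr
  have k3 : (PP g T j)⁻¹ ≤ 1 := inv_le_one_of_one_le₀ f1
  have k3' : 0 < (PP g T j)⁻¹ := inv_pos.mpr P3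
  refine ⟨by linarith, ?_, ?_, ?_⟩
  · have h1 : (PP g 0 T)⁻¹ ≤ 4 / κ := by
      calc (PP g 0 T)⁻¹ ≤ (κ / 4)⁻¹ := inv_anti₀ (by positivity) k0
        _ = 4 / κ := by rw [inv_div]
    have h2 : (PP g 0 T)⁻¹ * HH g T j ≤ 4 / κ * α := by gcongr
    have h3 : α * (1 + 4 / κ) = α + 4 / κ * α := by ring
    rw [h3]
    linarith
  · have h1 : (PP g T j)⁻¹ * B1 g x 0 T ≤ 1 * B1 g x 0 T := by gcongr
    have h2 : β₁ ≤ β / 2 := by
      have : 0 < β₀ * (4 / κ) := by positivity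
      linarith
    have h3 : β * (1 - (PP g T j)⁻¹) ≤ β := by nlinarith
    linarith
  · have h1 : HH g T j * B1 g x 0 T ≤ α * β := by
      have h2 : β₁ ≤ β := by
        have : 0 < β₀ * (4 / κ) := by positivity
        linarith
      calc HH g T j * B1 g x 0 T ≤ α * β₁ := by gcongr
        _ ≤ α * β := by gcongr
    have h2 : (n : ℝ) * γ₁ ≤ γ * X := by
      calc (n : ℝ) * γ₁ ≤ X / η * γ₁ := by gcongr
        _ = γ₁ / η * X := by ring
        _ ≤ γ * X := by
          have : γ₁ / η ≤ γ := by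
            have : 0 < α₁ * β₀ := by positivity
            linarith
          gcongr
    have h3 : (γ + α * β) * X ≤ 4 / κ * (γ + α * β) * (PP g 0 T * PP g T j) := by
      calc (γ + α * β) * X = 4 / κ * (γ + α * β) * (κ / 4 * X) := by field_simp
        _ ≤ _ := by gcongr
    have h4 : u * PP g T j ≤ 4 / κ * u * (PP g 0 T * PP g T j) := by
      calc u * PP g T j = 4 / κ * u * (κ / 4 * PP g T j) := by field_simp
        _ ≤ _ := by gcongr
    have h5 : α * β ≤ α * β * X := le_mul_of_one_le_right (by positivity) hX1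
    have h6 : 4 / κ * (γ + α * β + u) * (PP g 0 T * PP g T j) =
        4 / κ * (γ + α * β) * (PP g 0 T * PP g T j) + 4 / κ * u * (PP g 0 T * PP g T j) := by ring
    rw [h6]
    linarith

end Orb

/-- **Growth along an infinite orbit.** -/
theorem grow_inf {N : ℕ} {Cl : ℕ → Prop} {g : ℕ → ℝ} {κ η Γ q₀ q₂ : ℝ} (hκ : 0 < κ) (hκ1 : κ ≤ 1)
    (hη : 0 < η) (hq0 : 0 < q₀) (hq2 : 0 < q₂) (hΓ : 0 < Γ) (hg : ∀ i, 0 < g i)
    (hbig : 2 ≤ Γ * (κ / 4))
    (pΓ : ∀ i, Cl i → Γ ≤ PP g i (i + N + 1))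
    (p0 : ∀ i, Cl i → ∀ l, i < l → l ≤ i + N + 1 →
      q₀ * Real.exp (η * ((l - i : ℕ) : ℝ)) ≤ PP g i l)
    (s1 : ∀ i l, i < l → (∀ k, i ≤ k → k < l → ¬ Cl k) → Cl l →
      κ / 4 * Real.exp (η * ((l - i : ℕ) : ℝ)) ≤ PP g i l)
    (s2 : ∀ i l, i < l → (∀ k, i ≤ k → k < l → ¬ Cl k) →
      q₂ * Real.exp (η * ((l - i : ℕ) : ℝ)) ≤ PP g i l) :
    ∃ c η' : ℝ, 0 < c ∧ 0 < η' ∧ ∀ l : ℕ, c * Real.exp (η' * l) ≤ PP g 0 l := by
  classical
  obtain ⟨e, he⟩ : ∃ e : ℝ, e = min η (Real.log 2 / (N + 1)) := ⟨_, rfl⟩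
  have hN1 : (0 : ℝ) < N + 1 := by positivity
  have he0 : 0 < e := by
    rw [he]
    exact lt_min hη (div_pos (Real.log_pos (by norm_num)) hN1)
  have heη : e ≤ η := by rw [he]; exact min_le_left _ _
  have he2 : Real.exp (e * ((N + 1 : ℕ) : ℝ)) ≤ 2 := by
    have h1 : e * (N + 1) ≤ Real.log 2 := by
      have : e ≤ Real.log 2 / (N + 1) := by rw [he]; exact min_le_right _ _
      rwa [le_div_iff₀ hN1] at this
    calc Real.exp (e * ((N + 1 : ℕ) : ℝ)) ≤ Real.exp (Real.log 2) := by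
          rw [Real.exp_le_exp]; push_cast; exact h1
      _ = 2 := Real.exp_log (by norm_num)
  have hexp : ∀ m : ℕ, Real.exp (e * m) ≤ Real.exp (η * m) := fun m => by
    rw [Real.exp_le_exp]; gcongr
  obtain ⟨c, hc⟩ : ∃ c : ℝ, c = min (min 1 q₀) (min q₂ (Γ * q₂ / 2)) := ⟨_, rfl⟩
  have hc0 : 0 < c := by rw [hc]; positivity
  have hc1 : c ≤ 1 := by rw [hc]; exact (min_le_left _ _).trans (min_le_left _ _)
  have hcq : c ≤ q₀ := by rw [hc]; exact (min_le_left _ _).trans (min_le_right _ _)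
  have hcq2 : c ≤ q₂ := by rw [hc]; exact (min_le_right _ _).trans (min_le_left _ _)
  have hcq3 : c ≤ Γ * q₂ / 2 := by rw [hc]; exact (min_le_right _ _).trans (min_le_right _ _)
  have hP : ∀ i l, 0 < PP g i l := fun i l => PP_pos fun k _ _ => hg k
  -- from a close point
  have key : ∀ m i : ℕ, Cl i → c * Real.exp (e * m) ≤ PP g i (i + m) := by
    intro m
    induction m using Nat.strong_induction_on with
    | _ m ih =>
      intro i hi
      rcases Nat.eq_zero_or_pos m with hm | hm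
      · subst hm
        rw [add_zero, PP_self]
        simpa using hc1
      rcases Nat.lt_or_ge (N + 1) m with hmN | hmN
      · by_cases hcl : ∃ k, i + N + 1 ≤ k ∧ k < i + m ∧ Cl k
        · -- the next close point
          have hex : ∃ k, i + N + 1 ≤ k ∧ Cl k := by
            obtain ⟨k, h1, -, h3⟩ := hcl
            exact ⟨k, h1, h3⟩
          obtain ⟨T, hT⟩ : ∃ T, T = Nat.find hex := ⟨_, rfl⟩
          have hT1 : i + N + 1 ≤ T ∧ Cl T := by rw [hT]; exact Nat.find_spec hex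
          have hTm : T < i + m := by
            obtain ⟨k, h1, h2, h3⟩ := hcl
            have : T ≤ k := by rw [hT]; exact Nat.find_min' hex ⟨h1, h3⟩
            omega
          have hfar : ∀ k, i + N + 1 ≤ k → k < T → ¬ Cl k := by
            intro k h1 h2 h3
            rw [hT] at h2
            exact Nat.find_min hex h2 ⟨h1, h3⟩
          have h1 := pΓ i hi
          have h2 : κ / 4 * Real.exp (η * ((T - (i + N + 1) : ℕ) : ℝ)) ≤ PP g (i + N + 1) T := by
            rcases Nat.eq_or_lt_of_le hT1.1 with h0 | h0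
            · rw [← h0, PP_self, Nat.sub_self]
              simp
              linarith
            · exact s1 _ _ h0 hfar hT1.2
          have h3 := ih (i + m - T) (by omega) T hT1.2
          have e1 : T + (i + m - T) = i + m := by omega
          rw [e1] at h3
          have h4 : Real.exp (e * ((T - i : ℕ) : ℝ)) ≤ PP g i T := by
            rw [PP_mul g (by omega : i ≤ i + N + 1) hT1.1]
            have e2 : T - i = (N + 1) + (T - (i + N + 1)) := by omega
            rw [e2, Nat.cast_add, mul_add, Real.exp_add]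
            calc Real.exp (e * ((N + 1 : ℕ) : ℝ)) * Real.exp (e * ((T - (i + N + 1) : ℕ) : ℝ))
                ≤ 2 * Real.exp (η * ((T - (i + N + 1) : ℕ) : ℝ)) :=
                  mul_le_mul he2 (hexp _) (Real.exp_pos _).le (by norm_num)
              _ ≤ (Γ * (κ / 4)) * Real.exp (η * ((T - (i + N + 1) : ℕ) : ℝ)) := by gcongr
              _ = Γ * (κ / 4 * Real.exp (η * ((T - (i + N + 1) : ℕ) : ℝ))) := by ring
              _ ≤ _ := mul_le_mul h1 h2 (by positivity) (hP _ _).le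
          rw [PP_mul g (by omega : i ≤ T) (by omega : T ≤ i + m)]
          have e3 : (m : ℝ) = ((T - i : ℕ) : ℝ) + ((i + m - T : ℕ) : ℝ) := by
            rw [← Nat.cast_add]
            congr 1
            omega
          rw [e3, mul_add, Real.exp_add]
          calc c * (Real.exp (e * ((T - i : ℕ) : ℝ)) * Real.exp (e * ((i + m - T : ℕ) : ℝ)))
              = Real.exp (e * ((T - i : ℕ) : ℝ)) * (c * Real.exp (e * ((i + m - T : ℕ) : ℝ))) := by ring
            _ ≤ _ := mul_le_mul h4 h3 (by positivity) (hP _ _).le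
        · push Not at hcl
          have h1 := pΓ i hi
          have h2 := s2 (i + N + 1) (i + m) (by omega) (fun k h1 h2 => hcl k h1 h2)
          rw [PP_mul g (by omega : i ≤ i + N + 1) (by omega : i + N + 1 ≤ i + m)]
          have e1 : i + m - (i + N + 1) = m - (N + 1) := by omega
          rw [e1] at h2
          have e3 : (m : ℝ) = ((N + 1 : ℕ) : ℝ) + ((m - (N + 1) : ℕ) : ℝ) := by
            rw [← Nat.cast_add]
            congr 1
            omega
          rw [e3, mul_add, Real.exp_add]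
          calc c * (Real.exp (e * ((N + 1 : ℕ) : ℝ)) * Real.exp (e * ((m - (N + 1) : ℕ) : ℝ)))
              ≤ (Γ * q₂ / 2) * (2 * Real.exp (η * ((m - (N + 1) : ℕ) : ℝ))) := by
                refine mul_le_mul hcq3 ?_ (by positivity) (by positivity)
                exact mul_le_mul he2 (hexp _) (Real.exp_pos _).le (by norm_num)
            _ = Γ * (q₂ * Real.exp (η * ((m - (N + 1) : ℕ) : ℝ))) := by ring
            _ ≤ _ := mul_le_mul h1 h2 (by positivity) (hP _ _).le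
      · have h1 := p0 i hi (i + m) (by omega) (by omega)
        rw [Nat.add_sub_cancel_left] at h1
        calc c * Real.exp (e * m) ≤ q₀ * Real.exp (η * m) :=
              mul_le_mul hcq (hexp m) (Real.exp_pos _).le hq0.le
          _ ≤ _ := h1
  refine ⟨c * (κ / 4), e, by positivity, he0, fun l => ?_⟩
  by_cases hcl : ∃ k, k < l ∧ Cl k
  · have hex : ∃ k, Cl k := by
      obtain ⟨k, -, h3⟩ := hcl
      exact ⟨k, h3⟩
    obtain ⟨T, hT⟩ : ∃ T, T = Nat.find hex := ⟨_, rfl⟩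
    have hT1 : Cl T := by rw [hT]; exact Nat.find_spec hex
    have hTm : T < l := by
      obtain ⟨k, h2, h3⟩ := hcl
      have : T ≤ k := by rw [hT]; exact Nat.find_min' hex h3
      omega
    have hfar : ∀ k, 0 ≤ k → k < T → ¬ Cl k := by
      intro k _ h2 h3
      rw [hT] at h2
      exact Nat.find_min hex h2 h3
    have h2 : κ / 4 * Real.exp (η * (T : ℝ)) ≤ PP g 0 T := by
      rcases Nat.eq_zero_or_pos T with h0 | h0
      · rw [h0, PP_self]
        simp
        linarith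
      · have := s1 0 T h0 hfar hT1
        rwa [Nat.sub_zero] at this
    have h3 := key (l - T) T hT1
    have e1 : T + (l - T) = l := by omega
    rw [e1] at h3
    rw [PP_mul g (Nat.zero_le T) hTm.le]
    have e3 : (l : ℝ) = (T : ℝ) + ((l - T : ℕ) : ℝ) := by
      rw [← Nat.cast_add]
      congr 1
      omega
    rw [e3, mul_add, Real.exp_add]
    calc c * (κ / 4) * (Real.exp (e * T) * Real.exp (e * ((l - T : ℕ) : ℝ)))
        = (κ / 4 * Real.exp (e * T)) * (c * Real.exp (e * ((l - T : ℕ) : ℝ))) := by ring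
      _ ≤ PP g 0 T * PP g T l := by
          refine mul_le_mul (le_trans ?_ h2) h3 (by positivity) (hP _ _).le
          exact mul_le_mul_of_nonneg_left (hexp T) (by positivity)
  · push Not at hcl
    rcases Nat.eq_zero_or_pos l with h0 | h0
    · subst h0
      rw [PP_self]
      have h4 : c * (κ / 4) ≤ 1 * 1 := by
        apply mul_le_mul hc1 (by linarith) (by positivity) (by norm_num)
      simpa using h4
    · have h1 := s2 0 l h0 (fun k _ h2 => hcl k h2)
      rw [Nat.sub_zero] at h1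
      refine le_trans ?_ h1
      have h5 : c * (κ / 4) ≤ q₂ * 1 := by
        apply mul_le_mul hcq2 (by linarith) (by positivity) hq2.le
      rw [mul_one] at h5
      exact mul_le_mul h5 (hexp l) (Real.exp_pos _).le hq2.le

end Pool.Agent.KS6_34
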