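import Mathlib
import Pool.Agent.KS6_34.Scale2
import Pool.Agent.KS6_34.Seq

/-!
# Orbits near a slow Collet-Eckmann parameter which may come close to the critical point
-/

set_option autoImplicit false

open Set Filter Metric Topology

namespace Pool.Agent.KS6_34

open Pool.Agent.TH279.MD Pool.Agent.Y298.SH Pool.Agent.Y298.SH.CD
open Pool.Agent.N253.LS (Slow t_EXQ' t_EXP')

variable {d : ℕ} {c₀ : ℂ}

/-- The expansion of orbits which stay away from the critical point, and of the critical orbit. -/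
structure Exd (d : ℕ) (c₀ : ℂ) (κ η a κ₂ A r₁ : ℝ) : Prop where
  κ0 : 0 < κ
  κ1 : κ ≤ 1
  η0 : 0 < η
  a0 : 0 < a
  a1 : a ≤ 1
  k2 : 0 < κ₂
  A1 : 1 ≤ A
  r0 : 0 < r₁
  r1 : r₁ ≤ 1
  ret : ∀ (c : ℂ) (r : ℝ) (y : ℂ) (n : ℕ), 0 < r → r ≤ r₁ → ‖c - c₀‖ ≤ r →
    (∀ j ≤ n, ‖(f d c)^[j] y‖ ≤ 4) → (∀ j < n, r ≤ ‖(f d c)^[j] y‖ ^ d) → 1 ≤ n →
    ‖(f d c)^[n] y‖ ^ d < r → κ * Real.exp (η * n) * ‖y‖ ^ (-a) ≤ ‖deriv ((f d c)^[n]) y‖
  fre : ∀ (c : ℂ) (r : ℝ) (y : ℂ) (n : ℕ), 0 < r → r ≤ r₁ → ‖c - c₀‖ ≤ r →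
    (∀ j ≤ n, ‖(f d c)^[j] y‖ ≤ 4) → (∀ j < n, r ≤ ‖(f d c)^[j] y‖ ^ d) →
    κ₂ * r ^ (1 - 3 / (4 * (d : ℝ))) * Real.exp (η * n) ≤ ‖deriv ((f d c)^[n]) y‖
  cri : ∀ t : ℝ, 0 < t → t ≤ 1 → ∀ j l : ℕ, j ≤ l → (∀ i < l, t ≤ ‖zz d c₀ i‖) →
    κ * t ^ A * Real.exp (η * ((l - j : ℕ) : ℝ)) * Pd d c₀ j ≤ Pd d c₀ l

theorem exists_exd (hd : 2 ≤ d) (hSl : Slow d c₀) : ∃ κ η a κ₂ A r₁ : ℝ, Exd d c₀ κ η a κ₂ A r₁ := by
  obtain ⟨C₁, lam, h⟩ := hSl.1
  have hdR : (2 : ℝ) ≤ d := by exact_mod_cast hd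
  have hd0 : (0 : ℝ) < d := by linarith
  obtain ⟨κq, ηq, a₁, A, rq, hκq, hκq1, hηq, -, ha₁, hA, hrq, HQ⟩ := t_EXQ' d c₀ hd hSl
  obtain ⟨κe, ηe, K, re, hκe, hκe1, hηe, hK, hre, HE⟩ := t_EXP' d c₀ hd hSl
  have hK0 : 0 < K := by linarith
  obtain ⟨η, hη⟩ : ∃ η : ℝ, η = min ηq (min ηe (1 / (4 * K))) := ⟨_, rfl⟩
  have hη0 : 0 < η := by rw [hη]; positivity
  have hη1 : η ≤ ηq := by rw [hη]; exact min_le_left _ _
  have hη2 : η ≤ ηe := by rw [hη]; exact (min_le_right _ _).trans (min_le_left _ _)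
  have hη3 : η * K ≤ 1 / 4 := by
    have : η ≤ 1 / (4 * K) := by rw [hη]; exact (min_le_right _ _).trans (min_le_right _ _)
    rw [le_div_iff₀ (by positivity)] at this
    linarith
  have h4a : (0 : ℝ) < 4 ^ (-a₁) := by positivity
  have h4a1 : (4 : ℝ) ^ (-a₁) ≤ 1 := Real.rpow_le_one_of_one_le_of_nonpos (by norm_num) (by linarith)
  refine ⟨κq * 4 ^ (-a₁), η, min a₁ 1, κe ^ 2 * Real.exp (-(1 / 4)), A, min (min rq re) 1,
    by positivity, ?_, hη0, lt_min ha₁ one_pos, min_le_right _ _, by positivity, hA, by positivity,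
    min_le_right _ _, ?_, ?_, ?_⟩
  · calc κq * 4 ^ (-a₁) ≤ 1 * 1 := mul_le_mul hκq1 h4a1 h4a.le (by norm_num)
      _ = 1 := by norm_num
  · intro c r y n hr hrr hc h4 hfar hn hret
    have hr1 : r ≤ rq := hrr.trans ((min_le_left _ _).trans (min_le_left _ _))
    have hr2 : r ≤ 1 := hrr.trans (min_le_right _ _)
    have h5 : ‖(f d c)^[n] y‖ ≤ r ^ (3 / (4 * (d : ℝ))) := by
      have h6 : ‖(f d c)^[n] y‖ ≤ r ^ (1 / (d : ℝ)) := by
        have h7 : (‖(f d c)^[n] y‖ ^ d) ^ (1 / (d : ℝ)) ≤ r ^ (1 / (d : ℝ)) :=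
          Real.rpow_le_rpow (by positivity) hret.le (by positivity)
        rwa [← Real.rpow_natCast, ← Real.rpow_mul (norm_nonneg _), mul_one_div_cancel hd0.ne',
          Real.rpow_one] at h7
      refine h6.trans (Real.rpow_le_rpow_of_exponent_ge hr hr2 ?_)
      rw [div_le_div_iff₀ (by positivity) hd0]
      nlinarith
    have h6 := (HQ c r y n hr hr1 hc).2.1 hn h4 hfar h5
    have hy : 0 < ‖y‖ := by
      have h7 := hfar 0 hn
      have h8 : 0 < ‖y‖ ^ d := hr.trans_le h7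
      by_contra hcon
      push Not at hcon
      have h9 : ‖y‖ = 0 := le_antisymm hcon (norm_nonneg _)
      rw [h9, zero_pow (by omega)] at h8
      exact lt_irrefl _ h8
    refine le_trans ?_ h6
    have h7 : Real.exp (η * n) ≤ Real.exp (ηq * n) := by
      rw [Real.exp_le_exp]; gcongr
    have h8 : 4 ^ (-a₁) * ‖y‖ ^ (-min a₁ 1) ≤ ‖y‖ ^ (-a₁) := by
      rcases le_total ‖y‖ 1 with h1 | h1
      · have h9 : ‖y‖ ^ (-min a₁ 1) ≤ ‖y‖ ^ (-a₁) :=
          Real.rpow_le_rpow_of_exponent_ge hy h1 (by have := min_le_left a₁ 1; linarith)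
        have h10 : 0 < ‖y‖ ^ (-min a₁ 1) := Real.rpow_pos_of_pos hy _
        calc 4 ^ (-a₁) * ‖y‖ ^ (-min a₁ 1) ≤ 1 * ‖y‖ ^ (-min a₁ 1) := by gcongr
          _ ≤ _ := by linarith
      · have h9 : ‖y‖ ^ (-min a₁ 1) ≤ 1 := Real.rpow_le_one_of_one_le_of_nonpos h1 (by
          have : 0 < min a₁ 1 := lt_min ha₁ one_pos
          linarith)
        have h10 : (4 : ℝ) ^ (-a₁) ≤ ‖y‖ ^ (-a₁) :=
          Real.rpow_le_rpow_of_nonpos hy (h4 0 (Nat.zero_le _)) (by linarith)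
        calc 4 ^ (-a₁) * ‖y‖ ^ (-min a₁ 1) ≤ 4 ^ (-a₁) * 1 := by gcongr
          _ ≤ _ := by linarith
    have h9 : 0 < ‖y‖ ^ (-min a₁ 1) := Real.rpow_pos_of_pos hy _
    calc κq * 4 ^ (-a₁) * Real.exp (η * n) * ‖y‖ ^ (-min a₁ 1)
        = κq * Real.exp (η * n) * (4 ^ (-a₁) * ‖y‖ ^ (-min a₁ 1)) := by ring
      _ ≤ κq * Real.exp (ηq * n) * ‖y‖ ^ (-a₁) := by gcongr
  · intro c r y n hr hrr hc h4 hfar
    have hr1 : r ≤ re := hrr.trans ((min_le_left _ _).trans (min_le_right _ _))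
    have hr2 : r ≤ 1 := hrr.trans (min_le_right _ _)
    have he1 : Real.exp (-(1 / 4 : ℝ)) ≤ 1 := by
      rw [Real.exp_le_one_iff]; norm_num
    have hp0 : (0 : ℝ) ≤ 1 - 3 / (4 * (d : ℝ)) := by
      rw [sub_nonneg, div_le_one (by positivity)]
      linarith
    have hrp : r ^ (1 - 3 / (4 * (d : ℝ))) ≤ 1 := Real.rpow_le_one hr.le hr2 hp0
    have hrp0 : 0 < r ^ (1 - 3 / (4 * (d : ℝ))) := Real.rpow_pos_of_pos hr _
    have hexp : ∀ m : ℕ, Real.exp (η * m) ≤ Real.exp (ηe * m) := fun m => by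
      rw [Real.exp_le_exp]; gcongr
    rcases HE c r y n hr hr1 hc h4 hfar with h1 | ⟨i, hi, b1, b2, b3, b4, -⟩
    · refine le_trans ?_ h1
      calc κe ^ 2 * Real.exp (-(1 / 4)) * r ^ (1 - 3 / (4 * (d : ℝ))) * Real.exp (η * n)
          ≤ κe * 1 * 1 * Real.exp (ηe * n) := by
            have : κe ^ 2 ≤ κe := by nlinarith
            gcongr
        _ = κe * Real.exp (ηe * n) := by ring
    · obtain ⟨x, hx⟩ : ∃ x : ℝ, x = ‖(f d c)^[i] y‖ := ⟨_, rfl⟩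
      have hfi := hfar i hi
      rw [← hx] at b2 b3 b4 hfi
      have hx0 : 0 < x := by
        by_contra hcon
        push Not at hcon
        have h9 : x = 0 := le_antisymm hcon (by rw [hx]; exact norm_nonneg _)
        rw [h9, zero_pow (by omega)] at hfi
        linarith
      refine le_trans ?_ b4
      have e1 : Real.exp (η * n) ≤ Real.exp (η * i) * (Real.exp (1 / 4) * x ^ (-(1 / 4 : ℝ))) := by
        rw [Real.rpow_def_of_pos hx0, ← Real.exp_add, ← Real.exp_add, Real.exp_le_exp]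
        have hl : 0 ≤ Real.log (1 / x) := by
          apply Real.log_nonneg
          rw [le_div_iff₀ hx0]; linarith
        have h5 : η * ((n : ℝ) - i) ≤ 1 / 4 * (1 + Real.log (1 / x)) := by
          calc η * ((n : ℝ) - i) ≤ η * (K * (1 + Real.log (1 / x))) := by gcongr
            _ = η * K * (1 + Real.log (1 / x)) := by ring
            _ ≤ _ := by gcongr
        rw [one_div x, Real.log_inv] at h5
        linarith
      have e2 : r ^ (1 - 3 / (4 * (d : ℝ))) ≤ x ^ (d - 1) * x ^ (1 / 4 : ℝ) := by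
        have h5 : x ^ (d - 1) * x ^ (1 / 4 : ℝ) = (x ^ d) ^ (1 - 3 / (4 * (d : ℝ))) := by
          rw [← Real.rpow_natCast, ← Real.rpow_natCast, ← Real.rpow_add hx0, ← Real.rpow_mul hx0.le]
          congr 1
          rw [Nat.cast_sub (by omega)]
          push_cast
          field_simp
          ring
        rw [h5]
        exact Real.rpow_le_rpow hr.le hfi hp0
      have e3 : x ^ (1 / 4 : ℝ) * x ^ (-(1 / 4 : ℝ)) = 1 := by
        rw [← Real.rpow_add hx0]; simp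
      have e4 : Real.exp (-(1 / 4 : ℝ)) * Real.exp (1 / 4) = 1 := by
        rw [← Real.exp_add]; simp
      have hxp : 0 < x ^ (-(1 / 4 : ℝ)) := Real.rpow_pos_of_pos hx0 _
      calc κe ^ 2 * Real.exp (-(1 / 4)) * r ^ (1 - 3 / (4 * (d : ℝ))) * Real.exp (η * n)
          ≤ κe ^ 2 * Real.exp (-(1 / 4)) * (x ^ (d - 1) * x ^ (1 / 4 : ℝ)) *
            (Real.exp (η * i) * (Real.exp (1 / 4) * x ^ (-(1 / 4 : ℝ)))) := by gcongr
        _ = κe ^ 2 * x ^ (d - 1) * Real.exp (η * i) * (Real.exp (-(1 / 4)) * Real.exp (1 / 4)) *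
            (x ^ (1 / 4 : ℝ) * x ^ (-(1 / 4 : ℝ))) := by ring
        _ = κe * x ^ (d - 1) * (κe * Real.exp (η * i)) := by rw [e3, e4]; ring
        _ ≤ κe * x ^ (d - 1) * ‖deriv ((f d c)^[i]) y‖ := by
            have := (mul_le_mul_of_nonneg_left (hexp i) hκe.le).trans b1
            gcongr
  · intro t ht ht1 j l hjl hrec
    have hr : 0 < min rq (t ^ d) := lt_min hrq (by positivity)
    have h2 := (HQ c₀ (min rq (t ^ d)) (zz d c₀ j) (l - j) hr (min_le_left _ _)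
      (by rw [sub_self, norm_zero]; exact hr.le)).2.2 t ht ht1 (min_le_right _ _)
      (fun i _ => by rw [zz_add]; exact (h.bd _).trans (by norm_num))
      (fun i hi => by rw [zz_add]; exact hrec _ (by omega))
    have h3 : Pd d c₀ l = ‖deriv ((f d c₀)^[l - j]) (zz d c₀ j)‖ * Pd d c₀ j := by
      rw [← Pd_add, Nat.sub_add_cancel hjl]
    have hPj := h.Pd_pos j
    have htA : 0 < t ^ A := Real.rpow_pos_of_pos ht _
    rw [h3]
    have h7 : Real.exp (η * ((l - j : ℕ) : ℝ)) ≤ Real.exp (ηq * ((l - j : ℕ) : ℝ)) := by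
      rw [Real.exp_le_exp]; gcongr
    calc κq * 4 ^ (-a₁) * t ^ A * Real.exp (η * ((l - j : ℕ) : ℝ)) * Pd d c₀ j
        ≤ κq * 1 * t ^ A * Real.exp (ηq * ((l - j : ℕ) : ℝ)) * Pd d c₀ j := by gcongr
      _ = κq * t ^ A * Real.exp (ηq * ((l - j : ℕ) : ℝ)) * Pd d c₀ j := by ring
      _ ≤ _ := by gcongr

/-- The derivative along an orbit. -/
theorem PP_orbit (d : ℕ) (c y : ℂ) {i l : ℕ} (h : i ≤ l) :
    PP (fun k => ‖deriv (f d c) ((f d c)^[k] y)‖) i l =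
      ‖deriv ((f d c)^[l - i]) ((f d c)^[i] y)‖ := by
  obtain ⟨m, rfl⟩ := Nat.exists_eq_add_of_le h
  clear h
  rw [Nat.add_sub_cancel_left]
  induction m with
  | zero => simp [PP]
  | succ m ih =>
    rw [← add_assoc, PP_mul _ (by omega : i ≤ i + m) (by omega : i + m ≤ i + m + 1), ih, deriv_succ]
    have e1 : PP (fun k => ‖deriv (f d c) ((f d c)^[k] y)‖) (i + m) (i + m + 1) =
        ‖deriv (f d c) ((f d c)^[i + m] y)‖ := by
      simp [PP]
    rw [e1, deriv_f, norm_mul, norm_pow, Complex.norm_natCast, ← Function.iterate_add_apply,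
      add_comm m i]
    ring

/-- **A close passage.** -/
theorem ver_pass {N : ℝ → ℕ} {as b As W r₀ κ η a κ₂ A r₁ : ℝ} (hN : Scale d c₀ N as b As W r₀)
    (hP : Pas d c₀ N r₀) (hE : Exd d c₀ κ η a κ₂ A r₁) (hd : 2 ≤ d) {R t s : ℝ} (hR : 0 < R)
    (hRr : R ≤ r₀) (ht : 0 < t) (ht1 : t ≤ 1) (hrec : ∀ j ≤ N R, t ≤ ‖zz d c₀ j‖) (hs : 0 < s)
    {c y : ℂ} (hc : ‖c - c₀‖ ≤ R) (hy : s ≤ ‖y‖) (hyR : ‖y‖ ^ d ≤ R) :
    as * t ^ As * s ^ (d - 1) / R ≤ ‖deriv ((f d c)^[N R + 1]) y‖ ∧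
    (∀ l, 0 < l → l ≤ N R + 1 →
      κ * t ^ A * s ^ (d - 1) * Real.exp (-η) * Real.exp (η * l) ≤ ‖deriv ((f d c)^[l]) y‖) ∧
    ∀ k, 0 < k → k < N R + 1 → t / 2 ≤ ‖(f d c)^[k] y‖ ∧ ∀ l, k < l → l ≤ N R + 1 →
      κ * t ^ A / 4 * Real.exp (η * ((l - k : ℕ) : ℝ)) ≤
        ‖deriv ((f d c)^[l - k]) ((f d c)^[k] y)‖ := by
  have hdR : (2 : ℝ) ≤ d := by exact_mod_cast hd
  have hd0 : (0 : ℝ) < d := by linarith
  have hκ := hE.κ0
  have htA : 0 < t ^ A := Real.rpow_pos_of_pos ht _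
  have htAs : 0 < t ^ As := Real.rpow_pos_of_pos ht _
  obtain ⟨x, hx⟩ : ∃ x, x = f d c y := ⟨_, rfl⟩
  have hxc : ‖x - c‖ ≤ R := by
    rw [hx]
    unfold f
    rw [add_sub_cancel_right, norm_pow]
    exact hyR
  have hpas := hP R hR hRr c x hc hxc
  have hP0 : ∀ j, 0 ≤ Pd d c₀ j := fun j => Pd_nonneg d c₀ j
  -- the derivative at `y`
  have hder : ∀ l, ‖deriv ((f d c)^[l + 1]) y‖ = d * ‖y‖ ^ (d - 1) * ‖deriv ((f d c)^[l]) x‖ := by
    intro l
    rw [deriv_iter_add, Function.iterate_one, deriv_f, norm_mul, norm_mul, norm_pow,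
      Complex.norm_natCast, ← hx, mul_comm]
  have hys : s ^ (d - 1) ≤ ‖y‖ ^ (d - 1) := pow_le_pow_left₀ hs.le hy _
  have hs0 : 0 < s ^ (d - 1) := by positivity
  have hlow : ∀ l ≤ N R, s ^ (d - 1) * Pd d c₀ l ≤ ‖deriv ((f d c)^[l + 1]) y‖ := by
    intro l hl
    rw [hder]
    have h1 := (hpas l hl).1
    calc s ^ (d - 1) * Pd d c₀ l = 2 * s ^ (d - 1) * (Pd d c₀ l / 2) := by ring
      _ ≤ d * ‖y‖ ^ (d - 1) * ‖deriv ((f d c)^[l]) x‖ := by
          have := hP0 l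
          gcongr
  have hPd0 : Pd d c₀ 0 = 1 := Pd_zero d c₀
  refine ⟨?_, ?_, ?_⟩
  · refine le_trans ?_ (hlow (N R) le_rfl)
    have h1 := hN.low R hR t ht ht1 hrec
    calc as * t ^ As * s ^ (d - 1) / R ≤ (R * Pd d c₀ (N R)) * s ^ (d - 1) / R := by gcongr
      _ = _ := by field_simp
  · intro l hl hlN
    obtain ⟨m, rfl⟩ : ∃ m, l = m + 1 := ⟨l - 1, by omega⟩
    refine le_trans ?_ (hlow m (by omega))
    have h1 := hE.cri t ht ht1 0 m (Nat.zero_le _) (fun i hi => hrec i (by omega))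
    rw [hPd0, mul_one, Nat.sub_zero] at h1
    have h2 : Real.exp (-η) * Real.exp (η * ((m + 1 : ℕ) : ℝ)) = Real.exp (η * m) := by
      rw [← Real.exp_add]
      congr 1
      push_cast
      ring
    calc κ * t ^ A * s ^ (d - 1) * Real.exp (-η) * Real.exp (η * ((m + 1 : ℕ) : ℝ))
        = s ^ (d - 1) * (κ * t ^ A * (Real.exp (-η) * Real.exp (η * ((m + 1 : ℕ) : ℝ)))) := by ring
      _ = s ^ (d - 1) * (κ * t ^ A * Real.exp (η * m)) := by rw [h2]
      _ ≤ _ := by gcongr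
  · intro k hk hkN
    obtain ⟨m, rfl⟩ : ∃ m, k = m + 1 := ⟨k - 1, by omega⟩
    have hit : ∀ j, (f d c)^[j + 1] y = (f d c)^[j] x := fun j => by
      rw [Function.iterate_succ_apply, hx]
    refine ⟨?_, ?_⟩
    · rw [hit]
      have h1 := (hpas m (by omega)).2.2 (by omega)
      have h2 := hrec m (by omega)
      linarith
    · intro l hl hlN
      obtain ⟨l', rfl⟩ : ∃ l', l = l' + 1 := ⟨l - 1, by omega⟩
      have e1 : l' + 1 - (m + 1) = l' - m := by omega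
      rw [e1, hit]
      have h1 := (hpas l' (by omega)).1
      have h2 := (hpas m (by omega)).2.1
      have h3 := hE.cri t ht ht1 m l' (by omega) (fun i hi => hrec i (by omega))
      have h4 : ‖deriv ((f d c)^[l']) x‖ =
          ‖deriv ((f d c)^[l' - m]) ((f d c)^[m] x)‖ * ‖deriv ((f d c)^[m]) x‖ := by
        have e2 : l' = (l' - m) + m := by omega
        nth_rewrite 1 [e2]
        rw [deriv_iter_add, norm_mul]
      rw [h4] at h1
      have h5 : 0 ≤ ‖deriv ((f d c)^[l' - m]) ((f d c)^[m] x)‖ := norm_nonneg _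
      have h6 : Pd d c₀ l' / 2 ≤ ‖deriv ((f d c)^[l' - m]) ((f d c)^[m] x)‖ * (2 * Pd d c₀ m) :=
        h1.trans (by gcongr)
      have h7 : 0 < Pd d c₀ m := by
        have h8 := (hpas m (by omega)).1
        have h9 := (hpas m (by omega)).2.1
        rcases (hP0 m).lt_or_eq with h | h
        · exact h
        · exfalso
          have h10 := hE.cri t ht ht1 0 m (Nat.zero_le _) (fun i hi => hrec i (by omega))
          rw [hPd0, mul_one, ← h] at h10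
          have : 0 < κ * t ^ A * Real.exp (η * ((m - 0 : ℕ) : ℝ)) := by positivity
          linarith
      have h8 : (κ * t ^ A / 4 * Real.exp (η * ((l' - m : ℕ) : ℝ))) * Pd d c₀ m ≤
          ‖deriv ((f d c)^[l' - m]) ((f d c)^[m] x)‖ * Pd d c₀ m := by linarith
      exact le_of_mul_le_mul_right h8 h7

end Pool.Agent.KS6_34
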