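import Mathlib
import Pool.Agent.KS6_34.Orb2

/-!
# The sums along the orbits
-/

set_option autoImplicit false

open Set Filter Metric Topology

namespace Pool.Agent.KS6_34

open Pool.Agent.TH279.MD Pool.Agent.Y298.SH Pool.Agent.Y298.SH.CD
open Pool.Agent.N253.LS (Slow t_EXQ' t_EXP')

variable {d : ℕ} {c₀ : ℂ}

/-- The numerical conditions at the scale `R`, with recurrence `t` and critical radius `s`. -/
structure Gd (d : ℕ) (c₀ : ℂ) (N : ℝ → ℕ) (as b As r₀ κ η a κ₂ A r₁ G₀ L₀ R t s : ℝ) : Prop where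
  R0 : 0 < R
  Rr : R ≤ r₀
  Rr1 : R ≤ r₁
  t0 : 0 < t
  t1 : t ≤ 1
  rc : ∀ j ≤ N R, t ≤ ‖zz d c₀ j‖
  s0 : 0 < s
  st : s ≤ t / 2
  sd : (2 * s) ^ d < R
  n1 : κ * t ^ A * s ^ (d - 1) * Real.exp (-η) ≤ κ₂ * R ^ (1 - 3 / (4 * (d : ℝ)))
  n2 : 1 / (κ * t ^ A / 4 * (Real.exp η - 1) * (t / 2)) ≤ 1 / (as * t ^ As * s ^ (d - 1) / R * s)
  n3 : (R ^ (1 / (d : ℝ))) ^ (a - 1) / (κ * (Real.exp η - 1)) ≤
    1 / (as * t ^ As * s ^ (d - 1) / R * s)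
  n4 : N R * (1 / (κ * t ^ A / 4 * (Real.exp η - 1) * (t / 2))) ≤
    1 / (κ * t ^ A * s ^ (d - 1) * Real.exp (-η) * (Real.exp η - 1) * s)
  n5 : 1 / (κ₂ * R ^ (1 - 3 / (4 * (d : ℝ))) * (Real.exp η - 1) * R ^ (1 / (d : ℝ))) / η ≤
    1 / (κ * t ^ A * s ^ (d - 1) * Real.exp (-η) * (Real.exp η - 1) * s)
  n6 : 768 * s ≤ b * as * t ^ As * κ
  G1 : 2 ≤ G₀ * (κ / 4)
  gam : G₀ ≤ as * t ^ As * s ^ (d - 1) / R
  lam : L₀ ≤ b * as * t ^ As / R * (κ * t ^ A * s ^ (d - 1) * Real.exp (-η))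

variable {N : ℝ → ℕ} {as b As W r₀ κ η a κ₂ A r₁ G₀ L₀ R t s : ℝ}

theorem mk_orb (hN : Scale d c₀ N as b As W r₀) (hP : Pas d c₀ N r₀) (hE : Exd d c₀ κ η a κ₂ A r₁)
    (hd : 2 ≤ d) (hG : Gd d c₀ N as b As r₀ κ η a κ₂ A r₁ G₀ L₀ R t s) {c y : ℂ}
    (hc : ‖c - c₀‖ ≤ R) {j : ℕ} (h4 : ∀ i ≤ j, ‖(f d c)^[i] y‖ ≤ 4)
    (hfar : ∀ i < j, s ≤ ‖(f d c)^[i] y‖) (hend : ‖(f d c)^[j] y‖ < s) :
    Orb j (N R) (fun i => ‖(f d c)^[i] y‖ ^ d < R) (fun i => ‖deriv (f d c) ((f d c)^[i] y)‖)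
      (fun i => ‖(f d c)^[i] y‖) κ η a s (as * t ^ As * s ^ (d - 1) / R)
      (κ * t ^ A * s ^ (d - 1) * Real.exp (-η)) (κ * t ^ A / 4)
      (κ₂ * R ^ (1 - 3 / (4 * (d : ℝ)))) (t / 2) (R ^ (1 / (d : ℝ))) := by
  have hR := hG.R0
  have ht := hG.t0
  have hs := hG.s0
  have hd0 : (0 : ℝ) < d := by
    have : (2 : ℝ) ≤ d := by exact_mod_cast hd
    linarith
  have htA : 0 < t ^ A := Real.rpow_pos_of_pos ht _
  have htAs : 0 < t ^ As := Real.rpow_pos_of_pos ht _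
  have hs1 : 0 < s ^ (d - 1) := by positivity
  have has := hN.a0
  have hκ := hE.κ0
  have hk2 := hE.k2
  have hit : ∀ i k, (f d c)^[k] ((f d c)^[i] y) = (f d c)^[i + k] y := fun i k => by
    rw [← Function.iterate_add_apply, add_comm]
  have hRp : 0 < R ^ (1 - 3 / (4 * (d : ℝ))) := Real.rpow_pos_of_pos hR _
  refine ⟨hκ, hE.κ1, hE.η0, hE.a0.le, hE.a1, hs, by positivity, by positivity, by positivity,
    by positivity, by positivity, Real.rpow_pos_of_pos hR _, ?_, hfar, fun i hi => h4 i hi.le,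
    ?_, ?_, ?_, ?_, ?_, ?_, ?_⟩
  · intro i hi
    have h1 := hfar i hi
    rw [deriv_f, norm_mul, norm_pow, Complex.norm_natCast]
    have : 0 < ‖(f d c)^[i] y‖ := hs.trans_le h1
    positivity
  · intro i hi hC
    by_contra hcon
    push Not at hcon
    obtain ⟨-, -, h3⟩ := ver_pass hN hP hE hd hR hG.Rr ht hG.t1 hG.rc hs hc (hfar i hi) hC.le
    have h4 := (h3 (j - i) (by omega) (by omega)).1
    rw [hit, show i + (j - i) = j by omega] at h4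
    have := hG.st
    linarith
  · intro i hi hC
    obtain ⟨h1, -, -⟩ := ver_pass hN hP hE hd hR hG.Rr ht hG.t1 hG.rc hs hc (hfar i hi) hC.le
    rw [PP_orbit d c y (by omega)]
    rwa [show i + N R + 1 - i = N R + 1 by omega]
  · intro i hi hC l hl hlN
    obtain ⟨-, h2, -⟩ := ver_pass hN hP hE hd hR hG.Rr ht hG.t1 hG.rc hs hc (hfar i hi) hC.le
    rw [PP_orbit d c y hl.le]
    exact h2 (l - i) (by omega) (by omega)
  · intro i hi hC k hk hkN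
    obtain ⟨-, -, h3⟩ := ver_pass hN hP hE hd hR hG.Rr ht hG.t1 hG.rc hs hc (hfar i hi) hC.le
    obtain ⟨h4, h5⟩ := h3 (k - i) (by omega) (by omega)
    rw [hit, show i + (k - i) = k by omega] at h4 h5
    refine ⟨h4, fun l hl hlN => ?_⟩
    rw [PP_orbit d c y hl.le]
    have h6 := h5 (l - i) (by omega) (by omega)
    rwa [show l - i - (k - i) = l - k by omega] at h6
  · intro i l hil hlj hno hC
    rw [PP_orbit d c y hil.le]
    refine hE.ret c R ((f d c)^[i] y) (l - i) hR hG.Rr1 hc ?_ ?_ (by omega) ?_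
    · intro k hk
      rw [hit]
      exact h4 _ (by omega)
    · intro k hk
      rw [hit]
      exact not_lt.mp (hno (i + k) (by omega) (by omega))
    · rw [hit, show i + (l - i) = l by omega]
      exact hC
  · intro i l hil hlj hno
    rw [PP_orbit d c y hil.le]
    refine hE.fre c R ((f d c)^[i] y) (l - i) hR hG.Rr1 hc ?_ ?_
    · intro k hk
      rw [hit]
      exact h4 _ (by omega)
    · intro k hk
      rw [hit]
      exact not_lt.mp (hno (i + k) (by omega) (by omega))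
  · intro i hi hC
    have h1 : R ≤ ‖(f d c)^[i] y‖ ^ d := not_lt.mp hC
    have h7 : R ^ (1 / (d : ℝ)) ≤ (‖(f d c)^[i] y‖ ^ d) ^ (1 / (d : ℝ)) :=
      Real.rpow_le_rpow hR.le h1 (by positivity)
    rwa [← Real.rpow_natCast, ← Real.rpow_mul (norm_nonneg _), mul_one_div_cancel hd0.ne',
      Real.rpow_one] at h7

/-- The constants in the bounds of the sums. -/
noncomputable def C1 (κ η : ℝ) : ℝ := (5 + 4 * (16 / κ + 2)) / (Real.exp η - 1)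

theorem mk_cst (hN : Scale d c₀ N as b As W r₀) (hE : Exd d c₀ κ η a κ₂ A r₁)
    (hG : Gd d c₀ N as b As r₀ κ η a κ₂ A r₁ G₀ L₀ R t s) :
    ∃ α β γ u : ℝ, Orb.Cst (N R) κ η a s (as * t ^ As * s ^ (d - 1) / R)
      (κ * t ^ A * s ^ (d - 1) * Real.exp (-η)) (κ * t ^ A / 4)
      (κ₂ * R ^ (1 - 3 / (4 * (d : ℝ)))) (t / 2) (R ^ (1 / (d : ℝ))) α β γ u ∧
      α = 4 / (κ * t ^ A * s ^ (d - 1) * Real.exp (-η) * (Real.exp η - 1)) ∧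
      β ≤ (16 / κ + 2) / (G₀ * s) ∧
      γ + α * β + u ≤ 2 * C1 κ η / (κ * t ^ A * s ^ (d - 1) * Real.exp (-η) * s) := by
  have hR := hG.R0
  have ht := hG.t0
  have hs := hG.s0
  have hQ : 0 < Real.exp η - 1 := by
    have := Real.one_lt_exp_iff.2 hE.η0
    linarith
  have hη := hE.η0
  have has := hN.a0
  have hκ := hE.κ0
  have hκ1 := hE.κ1
  have hk2 := hE.k2
  have htA : 0 < t ^ A := Real.rpow_pos_of_pos ht _
  have htAs : 0 < t ^ As := Real.rpow_pos_of_pos ht _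
  have hRp : 0 < R ^ (1 - 3 / (4 * (d : ℝ))) := Real.rpow_pos_of_pos hR _
  have hr1 : 0 < R ^ (1 / (d : ℝ)) := Real.rpow_pos_of_pos hR _
  have n1 := hG.n1
  have n2 := hG.n2
  have n3 := hG.n3
  have n4 := hG.n4
  have n5 := hG.n5
  have g1 := hG.G1
  have g2 := hG.gam
  obtain ⟨Q, hQd⟩ : ∃ Q, Q = Real.exp η - 1 := ⟨_, rfl⟩
  obtain ⟨Γ, hΓ⟩ : ∃ Γ, Γ = as * t ^ As * s ^ (d - 1) / R := ⟨_, rfl⟩
  obtain ⟨q₀, hq₀⟩ : ∃ q₀, q₀ = κ * t ^ A * s ^ (d - 1) * Real.exp (-η) := ⟨_, rfl⟩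
  obtain ⟨q₁, hq₁⟩ : ∃ q₁, q₁ = κ * t ^ A / 4 := ⟨_, rfl⟩
  obtain ⟨q₂, hq₂⟩ : ∃ q₂, q₂ = κ₂ * R ^ (1 - 3 / (4 * (d : ℝ))) := ⟨_, rfl⟩
  obtain ⟨ρ, hρ⟩ : ∃ ρ, ρ = R ^ (1 / (d : ℝ)) := ⟨_, rfl⟩
  have pΓ : 0 < Γ := by rw [hΓ]; positivity
  have p0 : 0 < q₀ := by rw [hq₀]; positivity
  have p1 : 0 < q₁ := by rw [hq₁]; positivity
  have p2 : 0 < q₂ := by rw [hq₂]; positivity
  rw [← hρ] at hr1 n3 n5 ⊢
  rw [← hQd] at hQ n2 n3 n4 n5 ⊢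
  rw [← hΓ] at n2 n3 g2 ⊢
  rw [← hq₁] at n2 n4 ⊢
  rw [← hq₀] at n1 n4 n5 ⊢
  rw [← hq₂] at n1 n5 ⊢
  have hG0 : 8 ≤ G₀ := by nlinarith
  have hΓ8 : 8 ≤ Γ := hG0.trans g2
  have hG00 : 0 < G₀ := by linarith
  obtain ⟨B, hB⟩ : ∃ B, B = 1 / (Γ * s) := ⟨_, rfl⟩
  have pB : 0 < B := by rw [hB]; positivity
  obtain ⟨Z, hZ⟩ : ∃ Z, Z = 1 / (q₀ * Q * s) := ⟨_, rfl⟩
  have pZ : 0 < Z := by rw [hZ]; positivity
  have hBG : B ≤ 1 / (G₀ * s) := by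
    rw [hB]
    apply one_div_le_one_div_of_le (by positivity)
    gcongr
  have hα2 : 1 / (q₂ * Q) ≤ 1 / (q₀ * Q) := by
    apply one_div_le_one_div_of_le (by positivity)
    gcongr
  have hBs : B ≤ 1 / s := by
    rw [hB]
    apply one_div_le_one_div_of_le hs
    nlinarith
  have hγ5 : 1 / (q₀ * Q * s) + N R * (1 / (q₁ * Q * (t / 2))) +
      1 / (q₂ * Q) * (1 / (Γ * s) + 1 / (q₁ * Q * (t / 2))) + 1 / (q₂ * Q * ρ) / η ≤ 5 * Z := by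
    rw [← hB] at n2 ⊢
    rw [← hZ] at n4 n5 ⊢
    have h1 : 1 / (q₂ * Q) * (B + 1 / (q₁ * Q * (t / 2))) ≤ 1 / (q₀ * Q) * (1 / s + 1 / s) := by
      have : 1 / (q₁ * Q * (t / 2)) ≤ 1 / s := n2.trans hBs
      gcongr
    have h2 : 1 / (q₀ * Q) * (1 / s + 1 / s) = 2 * Z := by
      rw [hZ]; field_simp; ring
    linarith
  have hαβ : 4 / (q₀ * Q) * ((16 / κ + 2) * B) ≤ 4 * (16 / κ + 2) * Z := by
    have h2 : 4 / (q₀ * Q) * ((16 / κ + 2) * (1 / s)) = 4 * (16 / κ + 2) * Z := by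
      rw [hZ]; field_simp
    rw [← h2]
    gcongr
  refine ⟨4 / (q₀ * Q), (16 / κ + 2) * B, 5 * Z,
    8 / (Γ * κ) * (5 * Z + 4 / (q₀ * Q) * ((16 / κ + 2) * B)), ⟨?_, by linarith, ?_, ?_, ?_, ?_⟩,
    rfl, ?_, ?_⟩
  · calc 2 ≤ G₀ * (κ / 4) := g1
      _ ≤ Γ * (κ / 4) := by gcongr
  · rw [← hQd]
    have : 4 / (q₀ * Q) = 2 * (1 / (q₀ * Q) + 1 / (q₀ * Q)) := by ring
    rw [this]
    gcongr
  · rw [← hQd, ← hB]
    rw [← hB] at n2 n3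
    have h1 : (B + 1 / (q₁ * Q * (t / 2))) * (4 / κ) ≤ (B + B) * (4 / κ) := by gcongr
    have h2 : (16 / κ + 2) * B = 2 * ((B + B) * (4 / κ) + B) := by ring
    rw [h2]
    linarith
  · rw [← hQd]
    exact hγ5
  · apply le_of_eq
    field_simp
    ring
  · calc (16 / κ + 2) * B ≤ (16 / κ + 2) * (1 / (G₀ * s)) := by gcongr
      _ = _ := by ring
  · have h8 : 8 / (Γ * κ) ≤ 1 := by
      rw [div_le_one (by positivity)]
      nlinarith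
    have h9 : 5 * Z + 4 / (q₀ * Q) * ((16 / κ + 2) * B) ≤ C1 κ η / (q₀ * s) := by
      have h10 : C1 κ η / (q₀ * s) = (5 + 4 * (16 / κ + 2)) * Z := by
        unfold C1
        rw [hZ, ← hQd]
        field_simp
      rw [h10]
      linarith
    have h11 : 0 ≤ 5 * Z + 4 / (q₀ * Q) * ((16 / κ + 2) * B) := by positivity
    have h12 : 8 / (Γ * κ) * (5 * Z + 4 / (q₀ * Q) * ((16 / κ + 2) * B)) ≤
        1 * (5 * Z + 4 / (q₀ * Q) * ((16 / κ + 2) * B)) := by gcongr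
    have h13 : 2 * C1 κ η / (q₀ * s) = 2 * (C1 κ η / (q₀ * s)) := by ring
    rw [h13]
    linarith

end Pool.Agent.KS6_34
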