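import Mathlib
import Pool.Agent.KS6_34.Orb3
import Pool.Graph.R_pool_sql_team_seeded_63374d34.N253.EC.Ent
import Pool.Graph.R_pool_sql_team_seeded_63374d34.N253.LC.Back

/-!
# The parameters of a curve whose critical orbits enter the small disc at the same time
-/

set_option autoImplicit false

open Set Filter Metric Topology

namespace Pool.Agent.KS6_34

open Pool.Agent.TH279.MD Pool.Agent.Y298.SH Pool.Agent.Y298.SH.CD
open Pool.Agent.N253.LS (Slow)
open Pool.Agent.N253.LC (t_BACK)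
open Pool.Agent.N253.EC.ENTaux (sub_interval)

variable {d : ℕ} {c₀ : ℂ} {N : ℝ → ℕ} {as b As W r₀ κ η a κ₂ A r₁ : ℝ}

theorem entry (hN : Scale d c₀ N as b As W r₀) (hP : Pas d c₀ N r₀) (hE : Exd d c₀ κ η a κ₂ A r₁)
    (hd : 2 ≤ d) : ∃ G₀ L₀ : ℝ, 0 < G₀ ∧ 0 < L₀ ∧ 2 ≤ G₀ * (κ / 4) ∧ ∀ R t s : ℝ,
    Gd d c₀ N as b As r₀ κ η a κ₂ A r₁ G₀ L₀ R t s →
    ∀ (γ : ℝ → ℂ) (p0 q0 t₀ : ℝ) (j : ℕ), t₀ ∈ Icc p0 q0 → ContinuousOn γ (Icc p0 q0) →
    (∀ t' ∈ Icc p0 q0, ‖γ t' - c₀‖ ≤ R) →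
    (∀ i < j, s ≤ ‖(f d (γ t₀))^[N R + i] (γ t₀)‖) → ‖(f d (γ t₀))^[N R + j] (γ t₀)‖ < s →
    (∀ t' ∈ Icc p0 q0, ‖(f d (γ t'))^[N R + j] (γ t')‖ ≤ 2 * s) →
    (∀ t' ∈ Icc p0 q0, ‖γ t' - γ t₀‖ ≤ 96 * s / (b * as * t ^ As / R * κ)) ∧
    ∀ i < j, ‖(f d (γ t₀))^[N R + i] (γ t₀)‖ ≤ 2 * s → ∀ t' ∈ Icc p0 q0,
      ‖(f d (γ t'))^[N R + i] (γ t') - (f d (γ t₀))^[N R + i] (γ t₀)‖ ≤ s / 4 := by
  have hη := hE.η0
  have hκ := hE.κ0
  have has := hN.a0
  have hb := hN.b0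
  obtain ⟨Q, hQd⟩ : ∃ Q, Q = Real.exp η - 1 := ⟨_, rfl⟩
  have hQ : 0 < Q := by
    rw [hQd]
    have := Real.one_lt_exp_iff.2 hE.η0
    linarith
  obtain ⟨κB, hκB, hback⟩ := t_BACK d hd
  have hC1 : 0 < C1 κ η := by
    unfold C1
    rw [← hQd]
    positivity
  obtain ⟨G₀, hG₀⟩ : ∃ G₀, G₀ = max (12 * (16 / κ + 2) / κB) (192 / κ) := ⟨_, rfl⟩
  obtain ⟨L₀, hL₀⟩ : ∃ L₀, L₀ = max (384 * C1 κ η / (κ * κB))
    (max (64 * (1 + 4 / κ) / Q) (6144 / (κ * Q))) := ⟨_, rfl⟩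
  have hG1 : 12 * (16 / κ + 2) / κB ≤ G₀ := by rw [hG₀]; exact le_max_left _ _
  have hG2 : 192 / κ ≤ G₀ := by rw [hG₀]; exact le_max_right _ _
  have hL1 : 384 * C1 κ η / (κ * κB) ≤ L₀ := by rw [hL₀]; exact le_max_left _ _
  have hL2 : 64 * (1 + 4 / κ) / Q ≤ L₀ := by
    rw [hL₀]; exact (le_max_left _ _).trans (le_max_right _ _)
  have hL3 : 6144 / (κ * Q) ≤ L₀ := by
    rw [hL₀]; exact (le_max_right _ _).trans (le_max_right _ _)
  have hG0 : 0 < G₀ := lt_of_lt_of_le (by positivity) hG2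
  have hL0 : 0 < L₀ := lt_of_lt_of_le (by positivity) hL1
  have hG48 : 48 ≤ G₀ * (κ / 4) := by
    rw [div_le_iff₀ hκ] at hG2
    linarith
  refine ⟨G₀, L₀, hG0, hL0, by linarith, ?_⟩
  intro R t s hG γ p0 q0 t₀ j ht₀ hγc hγR hfar hnear htrap
  have hR := hG.R0
  have ht := hG.t0
  have hs0 := hG.s0
  have htA : 0 < t ^ A := Real.rpow_pos_of_pos ht _
  have htAs : 0 < t ^ As := Real.rpow_pos_of_pos ht _
  have gam := hG.gam
  have lam := hG.lam
  obtain ⟨c, hc⟩ : ∃ c, c = γ t₀ := ⟨_, rfl⟩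
  obtain ⟨n, hn⟩ : ∃ n, n = N R := ⟨_, rfl⟩
  rw [← hc, ← hn] at hfar hnear
  rw [← hn] at htrap
  obtain ⟨y, hyd⟩ : ∃ y : ℕ → ℂ, ∀ i, y i = (f d c)^[n + i] c := ⟨_, fun i => rfl⟩
  simp only [← hyd] at hfar hnear
  have hcR : ‖c - c₀‖ ≤ R := by rw [hc]; exact hγR t₀ ht₀
  have hc3 : ‖c‖ ≤ 3 := by
    have := hN.stay R hR hG.Rr c c hcR (by rw [sub_self, norm_zero]; exact hR.le) 0 (Nat.zero_le _)
    simpa using this
  have hy : ∀ i, y (i + 1) = f d c (y i) := by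
    intro i
    rw [hyd, hyd, ← add_assoc, Function.iterate_succ_apply']
  have hyit : ∀ i, (f d c)^[i] ((f d c)^[n] c) = y i := by
    intro i
    rw [hyd, ← Function.iterate_add_apply, add_comm]
  have hy4 : ∀ i ≤ j, ‖y i‖ ≤ 4 := by
    intro i hi
    by_contra hcon
    push Not at hcon
    have hall : ∀ m, 4 < ‖y (i + m)‖ := by
      intro m
      induction m with
      | zero => exact hcon
      | succ m ih =>
        rw [← add_assoc, hy]
        have h5 : ‖y (i + m)‖ ^ 2 ≤ ‖y (i + m)‖ ^ d := pow_le_pow_right₀ (by linarith) hd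
        have h6 : ‖y (i + m)‖ ^ d ≤ ‖f d c (y (i + m))‖ + ‖c‖ := by
          have : (y (i + m)) ^ d = f d c (y (i + m)) - c := by
            unfold f
            ring
          rw [← norm_pow, this]
          exact norm_sub_le _ _
        nlinarith
    have h5 := hall (j - i)
    have h6 : i + (j - i) = j := by omega
    rw [h6] at h5
    have := hG.st
    have := hG.t1
    linarith
  have horb := mk_orb hN hP hE hd hG (y := (f d c)^[n] c) hcR (j := j)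
    (fun i hi => by rw [hyit]; exact hy4 i hi) (fun i hi => by rw [hyit]; exact hfar i hi)
    (by rw [hyit]; exact hnear)
  simp only [hyit] at horb
  obtain ⟨α, β, γ', u, hcst, hα, hβ, hγu⟩ := mk_cst hN hE hG
  have hend : ‖y j‖ ^ d < R := by
    refine lt_of_le_of_lt ?_ hG.sd
    exact pow_le_pow_left₀ (norm_nonneg _) (by linarith) d
  obtain ⟨g, hg⟩ : ∃ g : ℕ → ℝ, g = fun i => ‖deriv (f d c) (y i)‖ := ⟨_, rfl⟩
  obtain ⟨x, hx⟩ : ∃ x : ℕ → ℝ, x = fun i => ‖y i‖ := ⟨_, rfl⟩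
  rw [← hg, ← hx] at horb
  obtain ⟨T1, T2, T3, T4⟩ := horb.total hcst hend
  have hclose : ∀ i < j, ‖y i‖ ^ d < R → G₀ * (κ / 4) ≤ PP g i j ∧ HH g i j ≤ α := by
    intro i hi hC
    obtain ⟨-, h1, h2, -, -⟩ := horb.close hcst hend (j - i) i (by omega) hC
    refine ⟨le_trans ?_ (h1 hi), h2⟩
    gcongr
  obtain ⟨Γ, hΓ⟩ : ∃ Γ, Γ = as * t ^ As * s ^ (d - 1) / R := ⟨_, rfl⟩
  obtain ⟨q₀, hq₀⟩ : ∃ q₀, q₀ = κ * t ^ A * s ^ (d - 1) * Real.exp (-η) := ⟨_, rfl⟩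
  obtain ⟨L, hL⟩ : ∃ L, L = b * as * t ^ As / R := ⟨_, rfl⟩
  have hLp : 0 < L := by rw [hL]; positivity
  have pq0 : 0 < q₀ := by rw [hq₀]; positivity
  rw [← hq₀, ← hQd] at hα
  rw [← hq₀] at hγu lam
  rw [← hL] at lam ⊢
  have hLq : 0 < L * q₀ := by positivity
  have hαp : 0 < α := by rw [hα]; positivity
  have hypos : ∀ i < j, 0 < ‖y i‖ := fun i hi => lt_of_lt_of_le hs0 (hfar i hi)
  have hgpos : ∀ i < j, 0 < g i := horb.g0
  obtain ⟨D, hDd⟩ : ∃ D : ℕ → ℝ, ∀ i, D i = PP g i j := ⟨_, fun i => rfl⟩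
  have hDpos : ∀ i, i ≤ j → 0 < D i := by
    intro i _
    rw [hDd]
    exact horb.Ppos le_rfl
  have hD0 : κ / 4 ≤ D 0 := by rw [hDd]; exact T1
  have hD0p := hDpos 0 (Nat.zero_le j)
  have hsum : ∀ i ≤ j, ∑ l ∈ Finset.Ico (i + 1) (j + 1), D l / D i = HH g i j := by
    intro i hi
    unfold HH
    have e1 : Finset.Ico (i + 1) (j + 1) = Finset.Ioc i j := by
      ext l
      simp only [Finset.mem_Ico, Finset.mem_Ioc]
      omega
    rw [e1]
    refine Finset.sum_congr rfl fun l hl => ?_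
    rw [Finset.mem_Ioc] at hl
    rw [hDd, hDd, PP_mul g hl.1.le hl.2]
    have h1 : 0 < PP g i l := horb.Ppos hl.2
    have h2 : 0 < PP g l j := horb.Ppos le_rfl
    field_simp
  obtain ⟨ρ, hρ⟩ : ∃ ρ, ρ = 24 * s / (L * D 0) := ⟨_, rfl⟩
  have hρ0 : 0 < ρ := by rw [hρ]; positivity
  have hρle : ρ ≤ 96 * s / (L * κ) := by
    rw [hρ, div_le_div_iff₀ (by positivity) (by positivity)]
    have : κ ≤ 4 * D 0 := by linarith
    calc 24 * s * (L * κ) ≤ 24 * s * (L * (4 * D 0)) := by gcongr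
      _ = _ := by ring
  obtain ⟨E, hEd⟩ : ∃ E : ℕ → ℝ, ∀ i, E i = 3 * s / D i + ρ * ∑ l ∈ Finset.Ico (i + 1) (j + 1),
    D l / D i := ⟨_, fun i => rfl⟩
  have hEi : ∀ i ≤ j, E i = 3 * s / D i + ρ * HH g i j := by
    intro i hi
    rw [hEd, hsum i hi]
  have hEsum : ∑ i ∈ Finset.range j, E i / ‖y i‖ ≤ κB := by
    have e1 : ∑ i ∈ Finset.range j, E i / ‖y i‖ = 3 * s * B1 g x 0 j + ρ * B2 g x 0 j := by
      unfold B1 B2
      rw [← Finset.range_eq_Ico, Finset.mul_sum, Finset.mul_sum, ← Finset.sum_add_distrib]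
      refine Finset.sum_congr rfl fun i hi => ?_
      rw [Finset.mem_range] at hi
      rw [hEi i hi.le, hDd, hx]
      ring
    rw [e1]
    have k1 : 3 * s * B1 g x 0 j ≤ κB / 2 := by
      calc 3 * s * B1 g x 0 j ≤ 3 * s * (2 * ((16 / κ + 2) / (G₀ * s))) := by
            have : B1 g x 0 j ≤ 2 * ((16 / κ + 2) / (G₀ * s)) := by linarith
            gcongr
        _ = 6 * (16 / κ + 2) / G₀ := by field_simp; ring
        _ ≤ κB / 2 := by
            rw [div_le_iff₀ hG0]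
            rw [div_le_iff₀ hκB] at hG1
            linarith
    have k2 : ρ * B2 g x 0 j ≤ κB / 2 := by
      calc ρ * B2 g x 0 j ≤ ρ * (4 / κ * (2 * C1 κ η / (q₀ * s)) * D 0) := by
            have : B2 g x 0 j ≤ 4 / κ * (2 * C1 κ η / (q₀ * s)) * D 0 := by
              refine T4.trans ?_
              rw [← hDd]
              gcongr
            gcongr
        _ = 192 * C1 κ η / (κ * (L * q₀)) := by rw [hρ]; field_simp; ring
        _ ≤ κB / 2 := by
            rw [div_le_iff₀ (by positivity)]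
            rw [div_le_iff₀ (by positivity)] at hL1
            have : κ * κB * L₀ ≤ κ * κB * (L * q₀) := by gcongr
            linarith
    linarith
  have hρH : ∀ H : ℝ, H ≤ α * (1 + 4 / κ) → ρ * H ≤ 3 * s / (2 * D 0) := by
    intro H hH
    calc ρ * H ≤ ρ * (α * (1 + 4 / κ)) := by gcongr
      _ = (96 * (1 + 4 / κ) / (Q * (L * q₀))) * (s / D 0) := by
          rw [hρ, hα]; field_simp; ring
      _ ≤ (3 / 2) * (s / D 0) := by
          have : 96 * (1 + 4 / κ) / (Q * (L * q₀)) ≤ 3 / 2 := by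
            rw [div_le_iff₀ (by positivity)]
            rw [div_le_iff₀ hQ] at hL2
            have : L₀ * Q ≤ (L * q₀) * Q := by gcongr
            linarith
          gcongr
      _ = _ := by field_simp
  obtain ⟨Z, hZ⟩ : ∃ Z : ℕ → ℝ → ℂ, ∀ i t', Z i t' = (f d (γ t'))^[n + i] (γ t') :=
    ⟨_, fun i t' => rfl⟩
  have hZt : ∀ i, Z i t₀ = y i := by
    intro i
    rw [hZ, hyd, hc]
  have hZc : ∀ i, ContinuousOn (Z i) (Icc p0 q0) := by
    have h5 : ∀ m : ℕ, ContinuousOn (fun t' => (f d (γ t'))^[m] (γ t')) (Icc p0 q0) := by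
      intro m
      induction m with
      | zero => exact hγc
      | succ m ih =>
        have : (fun t' => (f d (γ t'))^[m + 1] (γ t')) =
            fun t' => ((f d (γ t'))^[m] (γ t')) ^ d + γ t' := by
          funext t'
          rw [Function.iterate_succ_apply']
          rfl
        rw [this]
        exact (ih.pow d).add hγc
    intro i
    have : Z i = fun t' => (f d (γ t'))^[n + i] (γ t') := funext fun t' => hZ i t'
    rw [this]
    exact h5 _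
  have happ : ∀ p q : ℝ, Icc p q ⊆ Icc p0 q0 → t₀ ∈ Icc p q → (∀ t' ∈ Icc p q, ‖γ t' - γ t₀‖ ≤ ρ) →
      ∀ i ≤ j, ∀ t' ∈ Icc p q, ‖Z i t' - Z i t₀‖ ≤ 2 * E i := by
    intro p q hpq htpq hγρ
    apply hback j p q t₀ (3 * s) ρ Z γ D E htpq (by positivity) hρ0.le
    · intro i _
      exact (hZc i).mono hpq
    · intro i _ t' _
      rw [hZ, hZ, ← add_assoc, Function.iterate_succ_apply']
      rfl
    · exact hγρ
    · intro t' ht'
      have h5 : ‖Z j t'‖ ≤ 2 * s := by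
        rw [hZ]
        exact htrap t' (hpq ht')
      rw [hZt]
      refine (norm_sub_le _ _).trans ?_
      linarith
    · intro i hi
      rw [hZt]
      exact norm_pos_iff.1 (hypos i hi)
    · intro i hi
      rw [hZt, hDd, hDd, PP_mul g (Nat.le_succ i) hi]
      have e1 : PP g i i.succ = g i := by simp [PP]
      rw [e1, hg]
      simp only
      rw [deriv_f, norm_mul, norm_pow, Complex.norm_natCast]
      ring
    · rw [hDd]
      exact PP_self g j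
    · intro i _
      exact hEd i
    · simp only [hZt]
      exact hEsum
  have htwo : ∀ c₁ c₂ : ℂ, ‖c₁ - c₀‖ ≤ R → ‖c₂ - c₀‖ ≤ R →
      L * ‖c₁ - c₂‖ ≤ ‖(f d c₁)^[n] c₁ - (f d c₂)^[n] c₂‖ := by
    intro c₁ c₂ h1 h2
    have h3 := hN.two R hR hG.Rr c₁ c₂ h1 h2
    rw [← hn] at h3
    refine le_trans ?_ h3
    have h4 := hN.low R hR t ht hG.t1 hG.rc
    rw [← hn] at h4
    have h5 : L ≤ b * Pd d c₀ n := by
      rw [hL, div_le_iff₀ hR]
      calc b * as * t ^ As = b * (as * t ^ As) := by ring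
        _ ≤ b * (R * Pd d c₀ n) := by gcongr
        _ = _ := by ring
    gcongr
  have hρall : ∀ t' ∈ Icc p0 q0, ‖γ t' - γ t₀‖ ≤ ρ := by
    by_contra hcon
    push Not at hcon
    obtain ⟨t1, ht1, hlt⟩ := hcon
    obtain ⟨p, q, t2, hpq, htpq, ht2, ht2e, hall⟩ := sub_interval (fun t' => ‖γ t' - γ t₀‖) p0 q0
      t₀ t1 ρ ht₀ ht1 ((hγc.sub continuousOn_const).norm)
      (by simp only [sub_self, norm_zero]; exact hρ0.le) hlt.le
    have h5 := happ p q hpq htpq hall 0 (Nat.zero_le j) t2 ht2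
    have h6 := htwo (γ t2) (γ t₀) (hγR t2 (hpq ht2)) (hγR t₀ ht₀)
    have h7 : ‖(f d (γ t2))^[n] (γ t2) - (f d (γ t₀))^[n] (γ t₀)‖ = ‖Z 0 t2 - Z 0 t₀‖ := by
      rw [hZ, hZ]
      rfl
    have ht2e' : ‖γ t2 - γ t₀‖ = ρ := ht2e
    rw [h7, ht2e'] at h6
    have h8 : L * ρ = 24 * s / D 0 := by
      rw [hρ]; field_simp
    have h9 := hρH (HH g 0 j) T2
    have h10 : E 0 ≤ 3 * s / D 0 + 3 * s / (2 * D 0) := by
      rw [hEi 0 (Nat.zero_le j)]
      linarith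
    have h11 : 24 * s / D 0 ≤ 2 * (3 * s / D 0 + 3 * s / (2 * D 0)) := by
      rw [← h8]
      linarith
    have h12 : 2 * (3 * s / D 0 + 3 * s / (2 * D 0)) = 9 * s / D 0 := by field_simp; ring
    rw [h12] at h11
    have h13 : 9 * s / D 0 < 24 * s / D 0 := by
      apply div_lt_div_of_pos_right _ hD0p
      linarith
    linarith
  rw [← hn]
  refine ⟨fun t' ht' => (hρall t' ht').trans hρle, fun i hi hyi t' ht' => ?_⟩
  have h5 := happ p0 q0 (subset_refl _) ht₀ hρall i hi.le t' ht'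
  rw [hZ, hZ] at h5
  refine h5.trans ?_
  rw [← hc, ← hyd] at hyi
  have hC : ‖y i‖ ^ d < R := lt_of_le_of_lt (pow_le_pow_left₀ (norm_nonneg _) hyi d) hG.sd
  obtain ⟨h6, h7⟩ := hclose i hi hC
  rw [← hDd] at h6
  have h8 : 3 * s / D i ≤ s / 16 := by
    rw [div_le_iff₀ (hDpos i hi.le)]
    have : 48 ≤ D i := hG48.trans h6
    nlinarith
  have h0H : 0 ≤ HH g i j := HH_nonneg fun k _ h2 => hgpos k h2
  have h9 : ρ * HH g i j ≤ s / 16 := by
    calc ρ * HH g i j ≤ (96 * s / (L * κ)) * α := by gcongr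
      _ = (384 / (κ * Q * (L * q₀))) * s := by rw [hα]; field_simp; ring
      _ ≤ (1 / 16) * s := by
          have : 384 / (κ * Q * (L * q₀)) ≤ 1 / 16 := by
            rw [div_le_iff₀ (by positivity)]
            rw [div_le_iff₀ (by positivity)] at hL3
            have : L₀ * (κ * Q) ≤ (L * q₀) * (κ * Q) := by gcongr
            linarith
          gcongr
      _ = _ := by ring
  rw [hEi i hi.le]
  linarith

end Pool.Agent.KS6_34
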