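import Mathlib
import Pool.Agent.KS6_34.Ent3
import Pool.Graph.R_pool_sql_team_seeded_63374d34.N253.LS.Gam

/-!
# Connected sets of parameters near a slow Collet-Eckmann parameter
-/

set_option autoImplicit false

open Set Filter Metric Topology

namespace Pool.Agent.KS6_34

open Pool.Agent.TH279.MD Pool.Agent.Y298.SH Pool.Agent.Y298.SH.CD
open Pool.Agent.N253.LS (Slow Semihyp meets_frontier impression_subset cluster_mem impr)
open Pool.Agent.N253 (EC.COMPaux.shift EC.COMPaux.diff_it EC.COMPaux.bd)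
open Pool.Agent.H713R2 (IsExteriorMap)

variable {d : ℕ} {c₀ : ℂ} {N : ℝ → ℕ} {as b As W r₀ κ η a κ₂ A r₁ G₀ L₀ R t s ρ : ℝ}

/-- The entry property at one scale. -/
def Entr (d : ℕ) (c₀ : ℂ) (n : ℕ) (R s ρ : ℝ) : Prop :=
  ∀ (γ : ℝ → ℂ) (p0 q0 t₀ : ℝ) (j : ℕ), t₀ ∈ Icc p0 q0 → ContinuousOn γ (Icc p0 q0) →
    (∀ t' ∈ Icc p0 q0, ‖γ t' - c₀‖ ≤ R) →
    (∀ i < j, s ≤ ‖(f d (γ t₀))^[n + i] (γ t₀)‖) → ‖(f d (γ t₀))^[n + j] (γ t₀)‖ < s →
    (∀ t' ∈ Icc p0 q0, ‖(f d (γ t'))^[n + j] (γ t')‖ ≤ 2 * s) →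
    (∀ t' ∈ Icc p0 q0, ‖γ t' - γ t₀‖ ≤ ρ) ∧
    ∀ i < j, ‖(f d (γ t₀))^[n + i] (γ t₀)‖ ≤ 2 * s → ∀ t' ∈ Icc p0 q0,
      ‖(f d (γ t'))^[n + i] (γ t') - (f d (γ t₀))^[n + i] (γ t₀)‖ ≤ s / 4

/-- The parameters of the disc whose critical orbit enters the disc of radius `s`. -/
def Ent (d : ℕ) (c₀ : ℂ) (R s : ℝ) : Set ℂ :=
  {t : ℂ | ‖t - c₀‖ < R ∧ ∃ k : ℕ, 1 ≤ k ∧ ‖(f d t)^[k] 0‖ < s}

theorem ent_open (hd : 2 ≤ d) (c₀ : ℂ) (R s : ℝ) : IsOpen (Ent d c₀ R s) := by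
  have e : Ent d c₀ R s = {t : ℂ | ‖t - c₀‖ < R} ∩ ⋃ k : ℕ, {t : ℂ | ‖(f d t)^[k] t‖ < s} := by
    ext t
    simp only [Ent, mem_setOf_eq, mem_inter_iff, mem_iUnion]
    refine and_congr_right fun _ => ⟨?_, ?_⟩
    · rintro ⟨k, hk, h⟩
      obtain ⟨j, rfl⟩ : ∃ j, k = j + 1 := ⟨k - 1, by omega⟩
      exact ⟨j, by rwa [EC.COMPaux.shift hd] at h⟩
    · rintro ⟨j, h⟩
      exact ⟨j + 1, by omega, by rwa [EC.COMPaux.shift hd]⟩
  rw [e]
  refine IsOpen.inter ?_ (isOpen_iUnion fun k => ?_)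
  · exact isOpen_lt (continuous_id.sub continuous_const).norm continuous_const
  · exact isOpen_lt (EC.COMPaux.diff_it d k).continuous.norm continuous_const

/-- **Small entry components.** -/
theorem comp3 (hP : Pas d c₀ N r₀) (hd : 2 ≤ d)
    (hG : Gd d c₀ N as b As r₀ κ η a κ₂ A r₁ G₀ L₀ R t s) (hρ : 0 ≤ ρ)
    (hent : Entr d c₀ (N R) R s ρ) {Γ : Set ℂ} (hΓ : IsPreconnected Γ) (hΓW : Γ ⊆ Ent d c₀ R s)
    {c c' : ℂ} (hc : c ∈ Γ) (hc' : c' ∈ Γ) : ‖c - c'‖ ≤ 2 * ρ := by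
  have hR := hG.R0
  have hs := hG.s0
  obtain ⟨n, hn⟩ : ∃ n, n = N R := ⟨_, rfl⟩
  rw [← hn] at hent
  have hn1 : ∀ c : ℂ, ‖c - c₀‖ ≤ R → ∀ i < n, s ≤ ‖(f d c)^[i] c‖ := by
    intro c hc i hi
    have h1 := (hP R hR hG.Rr c c hc (by rw [sub_self, norm_zero]; exact hR.le) i
      (by omega)).2.2 (by omega)
    have h2 := hG.rc i (by omega)
    have h3 := hG.st
    linarith
  obtain ⟨W', hW⟩ : ∃ W' : Set ℂ, W' = Ent d c₀ R s := ⟨_, rfl⟩
  have hWo : IsOpen W' := by rw [hW]; exact ent_open hd c₀ R s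
  rw [← hW] at hΓW
  have hcc : c' ∈ connectedComponentIn W' c := hΓ.subset_connectedComponentIn hc hΓW hc'
  have hpc : IsPathConnected (connectedComponentIn W' c) := by
    rw [← (hWo.connectedComponentIn).isConnected_iff_isPathConnected]
    exact isConnected_connectedComponentIn_iff.2 (hΓW hc)
  obtain ⟨p, hp⟩ := hpc.joinedIn c (mem_connectedComponentIn (hΓW hc)) c' hcc
  have hpW : ∀ t ∈ Icc (0 : ℝ) 1, p.extend t ∈ W' := by
    intro t ht
    rw [Path.extend_apply p ht]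
    exact connectedComponentIn_subset W' c (hp _)
  have hcont : Continuous p.extend := p.continuous_extend
  have key := Pool.Agent.N253.EC.t_CHN s ρ p.extend
    (fun i t => (f d (p.extend t))^[n + i] (p.extend t)) hs hρ
    (fun i => ((EC.COMPaux.diff_it d (n + i)).continuous.comp hcont).continuousOn) ?_ ?_
    0 (left_mem_Icc.2 zero_le_one) 1 (right_mem_Icc.2 zero_le_one)
  · rw [Path.extend_zero, Path.extend_one] at key
    exact key
  · intro a b t₀ j ha hb ht₀ k1 k2 k3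
    refine hent p.extend a b t₀ j ht₀ hcont.continuousOn ?_ k1 k2 k3
    intro t ht
    have := hpW t ⟨ha.trans ht.1, ht.2.trans hb⟩
    rw [hW] at this
    exact this.1.le
  · intro t ht
    have h3 := hpW t ht
    rw [hW] at h3
    obtain ⟨h4, k, hk1, hk⟩ := h3
    obtain ⟨k', rfl⟩ : ∃ k', k = k' + 1 := ⟨k - 1, by omega⟩
    rw [EC.COMPaux.shift hd] at hk
    have h5 : n ≤ k' := by
      by_contra hcon
      push Not at hcon
      exact absurd hk (not_lt.2 (hn1 _ h4.le k' hcon))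
    refine ⟨k' - n, ?_⟩
    show ‖(f d (p.extend t))^[n + (k' - n)] (p.extend t)‖ < s
    rw [Nat.add_sub_cancel' h5]
    exact hk

/-- **The parameters whose critical orbit does not enter the small disc are semihyperbolic.** -/
theorem semi3 (hN : Scale d c₀ N as b As W r₀) (hP : Pas d c₀ N r₀)
    (hE : Exd d c₀ κ η a κ₂ A r₁) (hd : 2 ≤ d)
    (hG : Gd d c₀ N as b As r₀ κ η a κ₂ A r₁ G₀ L₀ R t s) {c : ℂ}
    (hM : c ∈ N62a1eb23.multibrotSet d) (hc : ‖c - c₀‖ ≤ R) (hfar : ∀ k : ℕ, 1 ≤ k → s ≤ ‖(f d c)^[k] 0‖) :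
    Semihyp d c ∧ c ∉ interior (N62a1eb23.multibrotSet d) := by
  have hR := hG.R0
  have ht := hG.t0
  have hs := hG.s0
  have hκ := hE.κ0
  have hk2 := hE.k2
  have has := hN.a0
  have hd0 : (0 : ℝ) < d := by
    have : (2 : ℝ) ≤ d := by exact_mod_cast hd
    linarith
  have htA : 0 < t ^ A := Real.rpow_pos_of_pos ht _
  have htAs : 0 < t ^ As := Real.rpow_pos_of_pos ht _
  have hRp : 0 < R ^ (1 - 3 / (4 * (d : ℝ))) := Real.rpow_pos_of_pos hR _
  have hlow : ∀ i, s ≤ ‖(f d c)^[i] c‖ := by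
    intro i
    have := hfar (i + 1) (by omega)
    rwa [EC.COMPaux.shift hd] at this
  have hbd : ∀ i, ‖(f d c)^[i] c‖ ≤ 2 := EC.COMPaux.bd hd hM
  have hit : ∀ i k, (f d c)^[k] ((f d c)^[i] c) = (f d c)^[i + k] c := fun i k => by
    rw [← Function.iterate_add_apply, add_comm]
  have hgam := hG.gam
  have hG1 := hG.G1
  obtain ⟨c', e, hc', he, hgrow⟩ := grow_inf (N := N R) (Cl := fun i => ‖(f d c)^[i] c‖ ^ d < R)
    (g := fun i => ‖deriv (f d c) ((f d c)^[i] c)‖) (κ := κ) (η := η)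
    (Γ := as * t ^ As * s ^ (d - 1) / R) (q₀ := κ * t ^ A * s ^ (d - 1) * Real.exp (-η))
    (q₂ := κ₂ * R ^ (1 - 3 / (4 * (d : ℝ)))) hκ hE.κ1 hE.η0 (by positivity) (by positivity)
    (by positivity)
    (fun i => by
      rw [deriv_f, norm_mul, norm_pow, Complex.norm_natCast]
      have : 0 < ‖(f d c)^[i] c‖ := hs.trans_le (hlow i)
      positivity)
    (hG1.trans (by gcongr))
    (fun i hC => by
      obtain ⟨h1, -, -⟩ := ver_pass hN hP hE hd hR hG.Rr ht hG.t1 hG.rc hs hc (hlow i) hC.le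
      rw [PP_orbit d c c (by omega)]
      rwa [show i + N R + 1 - i = N R + 1 by omega])
    (fun i hC l hl hlN => by
      obtain ⟨-, h2, -⟩ := ver_pass hN hP hE hd hR hG.Rr ht hG.t1 hG.rc hs hc (hlow i) hC.le
      rw [PP_orbit d c c hl.le]
      exact h2 (l - i) (by omega) (by omega))
    (fun i l hil hno hC => by
      rw [PP_orbit d c c hil.le]
      have h1 := hE.ret c R ((f d c)^[i] c) (l - i) hR hG.Rr1 hc
        (fun k hk => by rw [hit]; exact (hbd _).trans (by norm_num))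
        (fun k hk => by rw [hit]; exact not_lt.mp (hno (i + k) (by omega) (by omega)))
        (by omega) (by rw [hit, show i + (l - i) = l by omega]; exact hC)
      refine le_trans ?_ h1
      have hx : 0 < ‖(f d c)^[i] c‖ := hs.trans_le (hlow i)
      have h2 : (1 : ℝ) / 4 ≤ ‖(f d c)^[i] c‖ ^ (-a) := by
        rw [Real.rpow_neg hx.le, one_div]
        apply inv_anti₀ (Real.rpow_pos_of_pos hx _)
        calc ‖(f d c)^[i] c‖ ^ a ≤ 4 ^ a :=
              Real.rpow_le_rpow hx.le ((hbd i).trans (by norm_num)) hE.a0.le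
          _ ≤ 4 ^ (1 : ℝ) := Real.rpow_le_rpow_of_exponent_le (by norm_num) hE.a1
          _ = 4 := Real.rpow_one 4
      calc κ / 4 * Real.exp (η * ((l - i : ℕ) : ℝ)) =
            κ * Real.exp (η * ((l - i : ℕ) : ℝ)) * (1 / 4) := by ring
        _ ≤ _ := by gcongr)
    (fun i l hil hno => by
      rw [PP_orbit d c c hil.le]
      exact hE.fre c R ((f d c)^[i] c) (l - i) hR hG.Rr1 hc
        (fun k hk => by rw [hit]; exact (hbd _).trans (by norm_num))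
        (fun k hk => by rw [hit]; exact not_lt.mp (hno (i + k) (by omega) (by omega))))
  have hPd : ∀ l : ℕ, c' * Real.exp (e * l) ≤ Pd d c l := by
    intro l
    have h1 := hgrow l
    rw [PP_orbit d c c (Nat.zero_le l)] at h1
    simpa [Pd] using h1
  have hC₁ : (1 : ℝ) ≤ max 1 (c'⁻¹) := le_max_left _ _
  have hcep : CEp d (max 1 (c'⁻¹)) (Real.exp e) c := by
    refine cep_of_mem hd hC₁ (Real.one_lt_exp_iff.2 he) hM fun l => ?_
    rw [← Real.exp_nat_mul]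
    have h1 := hPd l
    have h2 : c'⁻¹ ≤ max 1 (c'⁻¹) := le_max_right _ _
    have h3 : 0 < c'⁻¹ := inv_pos.2 hc'
    calc Real.exp (l * e) = c'⁻¹ * (c' * Real.exp (e * l)) := by
          rw [← mul_assoc, inv_mul_cancel₀ hc'.ne', one_mul, mul_comm]
      _ ≤ max 1 (c'⁻¹) * Pd d c l := by gcongr
      _ = _ := rfl
  have hslow : Slow d c := by
    refine ⟨⟨_, _, hcep⟩, fun e' he' => ⟨max 1 (s⁻¹), le_max_left _ _, fun l => ?_⟩⟩
    have h5 : s⁻¹ ≤ max 1 (s⁻¹) := le_max_right _ _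
    have h6 : 1 ≤ Real.exp (e' * l) := Real.one_le_exp (by positivity)
    have h7 : s ≤ ‖zz d c l‖ := hlow l
    have h8 : 0 < s⁻¹ := inv_pos.2 hs
    calc (1 : ℝ) = s⁻¹ * 1 * s := by rw [mul_one, inv_mul_cancel₀ hs.ne']
      _ ≤ max 1 (s⁻¹) * Real.exp (e' * l) * ‖zz d c l‖ := by gcongr
  refine ⟨⟨hslow, s, hs, hfar⟩, fun hint => ?_⟩
  obtain ⟨κ', εg, J, hκ', hεg, hg⟩ := hcep.grow
  obtain ⟨δ, hδ, hδM⟩ := Metric.isOpen_iff.1 isOpen_interior c hint
  have h5 : ∀ i, ‖deriv (fun t : ℂ => (f d t)^[i] t) c‖ ≤ 2 / (δ / 2) := by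
    intro i
    apply Complex.norm_deriv_le_of_forall_mem_sphere_norm_le (half_pos hδ)
    · exact (EC.COMPaux.diff_it d i).diffContOnCl
    · intro t ht
      apply EC.COMPaux.bd hd
      apply interior_subset
      apply hδM
      rw [mem_ball, mem_sphere.1 ht]
      linarith
  obtain ⟨m, hm⟩ := pow_unbounded_of_one_lt (2 / (δ / 2) / (κ' * c')) (Real.one_lt_exp_iff.2 he)
  obtain ⟨l, hl⟩ : ∃ l, l = max m J := ⟨_, rfl⟩
  have h6 := hg c hcep c (by rw [sub_self, norm_zero]; exact hεg.le) l (by rw [hl]; exact le_max_right _ _)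
    (fun j _ => by
      have := hcep.Pd_pos j
      show Pd d c j / 2 ≤ Pd d c j
      linarith)
  rw [P_succ_eq hd] at h6
  have h7 := h6.trans (h5 l)
  have h8 : Real.exp e ^ m ≤ Real.exp (e * l) := by
    rw [← Real.exp_nat_mul, Real.exp_le_exp, mul_comm]
    have : (m : ℝ) ≤ l := by exact_mod_cast (by rw [hl]; exact le_max_left _ _)
    gcongr
  have h9 : 2 / (δ / 2) < κ' * c' * Real.exp (e * l) := by
    rw [div_lt_iff₀ (by positivity)] at hm
    calc 2 / (δ / 2) < Real.exp e ^ m * (κ' * c') := hm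
      _ ≤ Real.exp (e * l) * (κ' * c') := by gcongr
      _ = _ := by ring
  have h10 : κ' * c' * Real.exp (e * l) ≤ κ' * Pd d c l := by
    rw [mul_assoc]
    exact mul_le_mul_of_nonneg_left (hPd l) hκ'.le
  linarith

/-- **A connected set all of whose points near `c₀` enter the small disc.** -/
theorem conn3 (hP : Pas d c₀ N r₀) (hd : 2 ≤ d)
    (hG : Gd d c₀ N as b As r₀ κ η a κ₂ A r₁ G₀ L₀ R t s) (hρ : 0 ≤ ρ) (hρR : 8 * ρ ≤ R)
    (hent : Entr d c₀ (N R) R s ρ) {Γ : Set ℂ} (hΓ : IsPreconnected Γ)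
    (hin : ∀ t ∈ Γ, ‖t - c₀‖ < R → ∃ k : ℕ, 1 ≤ k ∧ ‖(f d t)^[k] 0‖ < s)
    {c₁ : ℂ} (hc₁ : c₁ ∈ Γ) (hc₁R : ‖c₁ - c₀‖ ≤ R / 2) {c : ℂ} (hc : c ∈ Γ) :
    ‖c - c₁‖ ≤ 2 * ρ := by
  have hR := hG.R0
  obtain ⟨W', hW⟩ : ∃ W' : Set ℂ, W' = Ent d c₀ R s := ⟨_, rfl⟩
  have hWo : IsOpen W' := by rw [hW]; exact ent_open hd c₀ R s
  have hc₁W : c₁ ∈ W' := by
    rw [hW]
    exact ⟨by linarith, hin c₁ hc₁ (by linarith)⟩
  obtain ⟨V, hV⟩ : ∃ V : Set ℂ, V = connectedComponentIn W' c₁ := ⟨_, rfl⟩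
  have hVo : IsOpen V := by rw [hV]; exact hWo.connectedComponentIn
  have hVc : IsPreconnected V := by rw [hV]; exact isPreconnected_connectedComponentIn
  have hc₁V : c₁ ∈ V := by rw [hV]; exact mem_connectedComponentIn hc₁W
  have hVW : V ⊆ W' := by rw [hV]; exact connectedComponentIn_subset W' c₁
  have hVd : ∀ t ∈ V, ‖t - c₁‖ ≤ 2 * ρ := by
    intro t ht
    exact comp3 hP hd hG hρ hent hVc (by rw [← hW]; exact hVW) ht hc₁V
  have hVb : V ⊆ closedBall c₁ (2 * ρ) := by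
    intro t ht
    rw [mem_closedBall, dist_eq_norm]
    exact hVd t ht
  have hfr : ∀ y ∈ frontier V, y ∉ Γ := by
    intro y hy hcl
    have hyc : y ∈ closure V := frontier_subset_closure hy
    have hyb : y ∈ closedBall c₁ (2 * ρ) := closure_minimal hVb isClosed_closedBall hyc
    rw [mem_closedBall, dist_eq_norm] at hyb
    have hyR : ‖y - c₀‖ < R := by
      have := norm_add_le (y - c₁) (c₁ - c₀)
      rw [sub_add_sub_cancel] at this
      linarith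
    have hyW : y ∈ W' := by
      rw [hW]
      exact ⟨hyR, hin y hcl hyR⟩
    have hyo : connectedComponentIn W' y ∈ 𝓝 y :=
      hWo.connectedComponentIn.mem_nhds (mem_connectedComponentIn hyW)
    obtain ⟨z, hz1, hz2⟩ := mem_closure_iff_nhds.mp hyc _ hyo
    have h6 : connectedComponentIn W' y = V := by
      rw [hV] at hz2 ⊢
      rw [connectedComponentIn_eq hz1, connectedComponentIn_eq hz2]
    have h7 : y ∈ V := by
      rw [← h6]
      exact mem_connectedComponentIn hyW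
    rw [hVo.frontier_eq] at hy
    exact hy.2 h7
  have hcV : c ∈ V := by
    by_contra hcV
    have hcc : c ∈ (closure V)ᶜ := by
      intro h
      exact hfr c (by rw [hVo.frontier_eq]; exact ⟨h, hcV⟩) hc
    obtain ⟨y, hy1, hy2⟩ := meets_frontier hΓ ⟨c₁, hc₁, hc₁V⟩ ⟨c, hc, hcc⟩ hVo
    exact hfr y hy2 hy1
  exact hVd c hcV

end Pool.Agent.KS6_34
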