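import Mathlib
import Pool.Agent.KS6_34.Scale
import Pool.Graph.R_pool_sql_team_seeded_63374d34.N253.LS.All

/-!
# Two points of a parameter ray near a slow Collet-Eckmann parameter, with the recurrence

The first theorem is the argument of `N253/LS/Two.lean` at one scale, with the numerical conditions as
hypotheses.
-/

set_option autoImplicit false

open Set Filter Metric Topology

namespace Pool.Agent.KS6_34

open Pool.Agent.TH279.MD Pool.Agent.Y298.SH Pool.Agent.Y298.SH.CD Pool.Agent.Y298.CA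
open Pool.Agent.H713R2 (IsExteriorMap IsGm)
open Pool.Agent.H712R2 (P P_lt_of_gt)
open Pool.Agent.N253 (SM.small_pow)
open Pool.Agent.N253.LC (Ray Disp dd_pow coord_iter exp_pow norm_exp_mul gm_point)
open Pool.Agent.N253.LS (Slow t_SHAD t_EXQ' disp t_CMP)

/-- **Two points of a parameter ray**, at one scale. -/
theorem two_core {d : ℕ} (hd : 2 ≤ d) {c₀ : ℂ} {C E β T₀ A R T ω : ℝ} {n : ℕ}
    (hR : 0 < R) (hTpos : 0 < T) (hTT0 : T ≤ T₀) (hTA : A * T ≤ 1) (hRTA : R ≤ T ^ A)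
    (hTn : Real.log 4 ≤ (d : ℝ) ^ (n + 1) * T)
    (HD : ∀ c : ℂ, ‖c - c₀‖ ≤ R → ∀ j : ℕ, Disp C E β T₀ d c j)
    (HC : ∀ (r T : ℝ) (j : ℕ) (x γ : ℝ → ℂ) (u : ℂ), 0 < r → 0 < T → A * T ≤ 1 →
      r ≤ T ^ A → 4 ≤ Real.exp ((d : ℝ) ^ j * T) → ‖u‖ = Real.exp ((d : ℝ) ^ j * T) →
      ContinuousOn x (Icc 0 1) → ContinuousOn γ (Icc 0 1) → (∀ s ∈ Icc (0 : ℝ) 1, ‖γ s - c₀‖ ≤ r) →
      (∀ s ∈ Icc (0 : ℝ) 1, (f d (γ s))^[j] (x s) = u) → ‖x 0 - x 1‖ ≤ r * T ^ (-A))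
    (hn2 : ∀ c x : ℂ, ‖c - c₀‖ ≤ R → ‖x - c‖ ≤ R → ∀ j ≤ n, ‖(f d c)^[j] x‖ ≤ 3)
    (hn4 : ∀ c c' : ℂ, ‖c - c₀‖ ≤ R → ‖c' - c₀‖ ≤ R → R / 8 ≤ ‖c - c'‖ →
      ω ≤ ‖(f d c)^[n] c - (f d c')^[n] c'‖)
    (hnum : 2 * (C * T ^ β + E) + R * T ^ (-A) < ω) :
    ∃ m₀ : ℕ, ∀ m : ℕ, m₀ ≤ m → ∀ (g : ℂ → ℂ) (u : ℂ), IsGm d m g → ‖u‖ = 1 →
    ∀ t₁ t₂ : ℝ, 4 ≤ Real.exp ((d : ℝ) ^ m * t₁) → 4 ≤ Real.exp ((d : ℝ) ^ m * t₂) →
    ‖Real.exp t₁ * u * g (Real.exp t₁ * u)⁻¹ - c₀‖ ≤ R →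
    ‖Real.exp t₂ * u * g (Real.exp t₂ * u)⁻¹ - c₀‖ ≤ R →
    R / 8 ≤ ‖Real.exp t₁ * u * g (Real.exp t₁ * u)⁻¹ - Real.exp t₂ * u * g (Real.exp t₂ * u)⁻¹‖ →
    T / (d : ℝ) ^ n ≤ max t₁ t₂ := by
  have hdR : (2 : ℝ) ≤ d := by exact_mod_cast hd
  have hd0 : (0 : ℝ) < d := by linarith
  have hdnpos : (0 : ℝ) < (d : ℝ) ^ n := by positivity
  have hCo := Pool.Agent.N253.LC.t_COORD
  obtain ⟨k₀, hk₀⟩ : ∃ k₀ : ℕ, 2 / T < (2 : ℝ) ^ k₀ := pow_unbounded_of_one_lt _ (by norm_num)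
  refine ⟨n + k₀, ?_⟩
  intro m hm g u hg hu t₁ t₂ ht₁ ht₂ hc₁ hc₂ hdiff
  by_contra hcon
  push Not at hcon
  have hnm : n ≤ m := by omega
  obtain ⟨j, hj⟩ : ∃ j, j = m - n := ⟨_, rfl⟩
  have hjm : m = n + j := by omega
  have hjk : k₀ ≤ j := by omega
  have hTj : 2 ≤ (d : ℝ) ^ j * T := by
    have h1 : (2 : ℝ) ^ k₀ ≤ (d : ℝ) ^ j := by
      calc (2 : ℝ) ^ k₀ ≤ (d : ℝ) ^ k₀ := pow_le_pow_left₀ (by norm_num) hdR _
        _ ≤ (d : ℝ) ^ j := pow_le_pow_right₀ (by linarith) hjk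
    have h2 : 2 / T < (d : ℝ) ^ j := hk₀.trans_le h1
    rw [div_lt_iff₀ hTpos] at h2
    exact h2.le
  have hexp2 : (4 : ℝ) < Real.exp 2 := by
    have h5 : Real.exp 2 = Real.exp 1 * Real.exp 1 := by rw [← Real.exp_add]; norm_num
    nlinarith [Real.exp_one_gt_d9]
  have hTj4 : 4 < Real.exp ((d : ℝ) ^ j * T) := hexp2.trans_le (Real.exp_le_exp.mpr hTj)
  -- the curve of parameters
  set cc : ℝ → ℂ := fun t => (Real.exp t : ℂ) * u * g ((Real.exp t : ℂ) * u)⁻¹ with hcc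
  have hmin : ∀ t, min t₁ t₂ ≤ t → 4 ≤ Real.exp ((d : ℝ) ^ m * t) := by
    intro t ht
    have h1 : 4 ≤ Real.exp ((d : ℝ) ^ m * min t₁ t₂) := by
      rcases min_choice t₁ t₂ with h | h <;> rw [h] <;> assumption
    refine h1.trans ?_
    rw [Real.exp_le_exp]
    gcongr
  obtain ⟨X, hX1, hX2, hX3, hX4⟩ := hCo d hd
  obtain ⟨W, hW⟩ := hX4 m
  have hPcc : ∀ t, min t₁ t₂ ≤ t → P d (m + 1) (cc t) = ((Real.exp t : ℂ) * u) ^ (d ^ m) :=
    fun t ht => (gm_point hd hg hu (hmin t ht)).2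
  have hPn : ∀ t, min t₁ t₂ ≤ t → ‖P d (m + 1) (cc t)‖ = Real.exp ((d : ℝ) ^ m * t) := by
    intro t ht
    rw [hPcc t ht, norm_pow, norm_exp_mul t hu, ← Real.exp_nat_mul]
    push_cast
    rfl
  have hP2 : ∀ t, min t₁ t₂ ≤ t → 2 < ‖P d (m + 1) (cc t)‖ := by
    intro t ht
    rw [hPn t ht]
    linarith [hmin t ht]
  have hccc : ContinuousOn cc (Ici (min t₁ t₂)) := by
    have h1 : ContinuousOn (fun t : ℝ => ((Real.exp t : ℂ) * u)⁻¹) (Ici (min t₁ t₂)) := by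
      apply ContinuousOn.inv₀
      · fun_prop
      · intro t _ h
        have := norm_exp_mul t hu
        rw [h, norm_zero] at this
        exact (Real.exp_pos t).ne this
    have h2 : ContinuousOn (fun t : ℝ => g ((Real.exp t : ℂ) * u)⁻¹) (Ici (min t₁ t₂)) :=
      hg.diff.continuousOn.comp h1 (fun t ht => (gm_point hd hg hu (hmin t ht)).1)
    have h3 : ContinuousOn (fun t : ℝ => (Real.exp t : ℂ) * u) (Ici (min t₁ t₂)) := by fun_prop
    exact h3.mul h2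
  -- the rotation is constant
  have hNpos : 0 < d ^ m := pow_pos (by omega) _
  have hrot : ∀ t ∈ Icc (min t₁ t₂) (max t₁ t₂), ∀ t' ∈ Icc (min t₁ t₂) (max t₁ t₂),
      W (cc t) / ((Real.exp t : ℂ) * u) = W (cc t') / ((Real.exp t' : ℂ) * u) := by
    have hne : ∀ t : ℝ, (Real.exp t : ℂ) * u ≠ 0 := by
      intro t h
      have := norm_exp_mul t hu
      rw [h, norm_zero] at this
      exact (Real.exp_pos t).ne this
    have h1 : ContinuousOn (fun t : ℝ => W (cc t) / ((Real.exp t : ℂ) * u))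
        (Icc (min t₁ t₂) (max t₁ t₂)) := by
      apply ContinuousOn.div
      · intro t ht
        exact (hW (cc t) (hP2 t ht.1)).1.comp_continuousWithinAt
          ((hccc t ht.1).mono (fun s hs => hs.1))
      · fun_prop
      · exact fun t _ => hne t
    have h2 : MapsTo (fun t : ℝ => W (cc t) / ((Real.exp t : ℂ) * u))
        (Icc (min t₁ t₂) (max t₁ t₂)) {z : ℂ | z ^ (d ^ m) = 1} := by
      intro t ht
      show (W (cc t) / ((Real.exp t : ℂ) * u)) ^ (d ^ m) = 1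
      rw [div_pow, (hW (cc t) (hP2 t ht.1)).2.2.1, hPcc t ht.1]
      exact div_self (pow_ne_zero _ (hne t))
    have hfin : {z : ℂ | z ^ (d ^ m) = 1}.Finite := by
      have h3 : {z : ℂ | z ^ (d ^ m) = 1} ⊆ ((Polynomial.nthRoots (d ^ m) (1 : ℂ)).toFinset : Set ℂ) := by
        intro z hz
        simp only [Finset.mem_coe, Multiset.mem_toFinset]
        rw [Polynomial.mem_nthRoots hNpos]
        exact hz
      exact (Finset.finite_toSet _).subset h3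
    have hdis : IsDiscrete {z : ℂ | z ^ (d ^ m) = 1} := by
      rw [isDiscrete_iff_discreteTopology]
      have := hfin.to_subtype
      infer_instance
    intro t ht t' ht'
    exact isPreconnected_Icc.constant_of_mapsTo hdis h1 h2 ht ht'
  have hm1 : t₁ ∈ Icc (min t₁ t₂) (max t₁ t₂) := ⟨min_le_left _ _, le_max_left _ _⟩
  have hm2 : t₂ ∈ Icc (min t₁ t₂) (max t₁ t₂) := ⟨min_le_right _ _, le_max_right _ _⟩
  set κ : ℂ := W (cc t₁) / ((Real.exp t₁ : ℂ) * u) with hκ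
  have hne : ∀ t : ℝ, (Real.exp t : ℂ) * u ≠ 0 := by
    intro t h
    have := norm_exp_mul t hu
    rw [h, norm_zero] at this
    exact (Real.exp_pos t).ne this
  have hWt : ∀ t ∈ Icc (min t₁ t₂) (max t₁ t₂), W (cc t) = (Real.exp t : ℂ) * (κ * u) := by
    intro t ht
    have h1 := hrot t ht t₁ hm1
    rw [← hκ, div_eq_iff (hne t)] at h1
    rw [h1]; ring
  have hκ1 : ‖κ‖ = 1 := by
    have h1 : κ ^ (d ^ m) = 1 := by
      rw [hκ, div_pow, (hW (cc t₁) (hP2 t₁ hm1.1)).2.2.1, hPcc t₁ hm1.1]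
      exact div_self (pow_ne_zero _ (hne t₁))
    have h2 : ‖κ‖ ^ (d ^ m) = 1 := by rw [← norm_pow, h1, norm_one]
    exact (pow_eq_one_iff_of_nonneg (norm_nonneg _) hNpos.ne').mp h2
  obtain ⟨v, hv⟩ : ∃ v : ℂ, v = (κ * u) ^ (d ^ n) := ⟨_, rfl⟩
  have hv1 : ‖v‖ = 1 := by rw [hv, norm_pow, norm_mul, hκ1, hu]; simp
  -- the position after `n` steps
  have hxi : ∀ t ∈ Icc (min t₁ t₂) (max t₁ t₂),
      (f d (cc t))^[n] (cc t) = X j (cc t) ((Real.exp ((d : ℝ) ^ n * t) : ℂ) * v) := by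
    intro t ht
    obtain ⟨-, h1, -, h3⟩ := hW (cc t) (hP2 t ht.1)
    have h4 := coord_iter hX3 h1 n hnm
    rw [h3, ← hj, hWt t ht, exp_pow] at h4
    rw [h4, hv]
    push_cast
    rfl
  -- the displacement
  have hdist : ∀ t ∈ Icc (min t₁ t₂) (max t₁ t₂), ‖cc t - c₀‖ ≤ R →
      ‖(f d (cc t))^[n] (cc t) - X j (cc t) ((Real.exp T : ℂ) * v)‖ ≤ C * T ^ β + E := by
    intro t ht htR
    have hle : (d : ℝ) ^ n * t ≤ T := by
      have h1 : t ≤ T / (d : ℝ) ^ n := ht.2.trans hcon.le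
      rw [le_div_iff₀ hdnpos] at h1
      linarith
    have hjn : (d : ℝ) ^ j * ((d : ℝ) ^ n * t) = (d : ℝ) ^ m * t := by
      rw [← mul_assoc, ← pow_add, hjm, add_comm n j]
    have hcrit : ∀ i, 1 ≤ i → i ≤ j → ‖P d i (cc t)‖ < Real.exp ((d : ℝ) ^ j * ((d : ℝ) ^ n * t)) := by
      intro i h1 h2
      rw [hjn, ← hPn t ht.1]
      exact P_lt_of_gt hd (hP2 t ht.1) i h1 (by omega)
    have hDD : ∀ s, (d : ℝ) ^ n * t ≤ s →
        (cc t, (Real.exp s : ℂ) * v) ∈ Pool.Agent.N253.LC.DD d j := by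
      intro s hs
      refine ⟨?_, fun i h1 h2 => ?_⟩
      · intro h
        have := norm_exp_mul s hv1
        simp only at h
        rw [h, norm_zero] at this
        exact (Real.exp_pos s).ne this
      · show ‖P d i (cc t)‖ < ‖(Real.exp s : ℂ) * v‖ ^ (d ^ j)
        rw [norm_exp_mul s hv1, ← Real.exp_nat_mul]
        refine (hcrit i h1 h2).trans_le ?_
        rw [Real.exp_le_exp]
        push_cast
        gcongr
    have hRay : Ray d (cc t) j (v ^ (d ^ j)) (fun s => X j (cc t) ((Real.exp s : ℂ) * v))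
        ((d : ℝ) ^ n * t) T := by
      refine ⟨hle, ?_, by rw [norm_pow, hv1, one_pow], ?_, ?_, hcrit⟩
      · have h1 : ContinuousOn (fun s : ℝ => (cc t, (Real.exp s : ℂ) * v))
            (Icc ((d : ℝ) ^ n * t) T) := by fun_prop
        exact (hX1 j).comp h1 (fun s hs => hDD s hs.1)
      · intro s hs
        rw [hX2 j _ _ (hDD s hs.1), exp_pow]
        push_cast
        rfl
      · rw [hjn]; exact hmin t ht.1
    have h1 := HD (cc t) htR j _ _ _ _ hRay hTT0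
    rw [hxi t ht]
    exact h1
  -- comparison of the parameters
  have hball : ∀ s ∈ Icc (0 : ℝ) 1, ‖(cc t₁ + (s : ℂ) * (cc t₂ - cc t₁)) - c₀‖ ≤ R := by
    intro s hs
    have h1 : cc t₁ + (s : ℂ) * (cc t₂ - cc t₁) - c₀ =
        ((1 - s : ℝ) : ℂ) * (cc t₁ - c₀) + (s : ℂ) * (cc t₂ - c₀) := by push_cast; ring
    rw [h1]
    refine (norm_add_le _ _).trans ?_
    rw [norm_mul, norm_mul, Complex.norm_real, Complex.norm_real, Real.norm_of_nonneg
      (by linarith [hs.2] : (0 : ℝ) ≤ 1 - s), Real.norm_of_nonneg hs.1]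
    have h2 : (1 - s) * ‖cc t₁ - c₀‖ ≤ (1 - s) * R := by
      have : 0 ≤ 1 - s := by linarith [hs.2]
      gcongr
    have h3 : s * ‖cc t₂ - c₀‖ ≤ s * R := by
      have := hs.1
      gcongr
    linarith
  have hDDT : ∀ c : ℂ, ‖c - c₀‖ ≤ R →
      (c, (Real.exp T : ℂ) * v) ∈ Pool.Agent.N253.LC.DD d j := by
    intro c hc
    refine ⟨?_, fun i h1 h2 => ?_⟩
    · intro h
      have := norm_exp_mul T hv1
      simp only at h
      rw [h, norm_zero] at this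
      exact (Real.exp_pos T).ne this
    · show ‖P d i c‖ < ‖(Real.exp T : ℂ) * v‖ ^ (d ^ j)
      rw [norm_exp_mul T hv1, ← Real.exp_nat_mul]
      have hpos : ∀ l ≤ n, ‖P d (l + 1) c‖ ≤ 3 := by
        intro l hl
        have h3 := hn2 c c hc (by rw [sub_self, norm_zero]; exact hR.le) l hl
        rw [P_succ_eq hd]
        exact h3
      have hc3 : ‖c‖ ≤ 3 := by
        have := hpos 0 (Nat.zero_le _)
        rwa [zero_add, Pool.Agent.H712R2.P_one hd] at this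
      by_cases hin : i ≤ n + 1
      · have h3 := hpos (i - 1) (by omega)
        rw [Nat.sub_add_cancel h1] at h3
        have h4 : (d ^ j : ℕ) * T = (d : ℝ) ^ j * T := by push_cast; rfl
        rw [h4]
        linarith
      · obtain ⟨i', hi'⟩ : ∃ i', i = n + 1 + i' := ⟨i - (n + 1), by omega⟩
        have h3 := Pool.Agent.H713R2.up_growth hd (n := n + 1) (c := c) (R := 3) (by norm_num) hc3
          (hpos n le_rfl) i'
        rw [← hi'] at h3
        have h4 : (3 + 1 : ℝ) ^ (d ^ i') = Real.exp ((d : ℝ) ^ i' * Real.log 4) := by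
          have h5 : (3 + 1 : ℝ) = Real.exp (Real.log 4) := by
            rw [Real.exp_log (by norm_num)]; norm_num
          rw [h5, ← Real.exp_nat_mul]
          push_cast
          rfl
        rw [h4] at h3
        have h6 : Real.exp ((d : ℝ) ^ i' * Real.log 4) ≤ Real.exp (((d ^ j : ℕ) : ℝ) * T) := by
          rw [Real.exp_le_exp]
          push_cast
          calc (d : ℝ) ^ i' * Real.log 4 ≤ (d : ℝ) ^ i' * ((d : ℝ) ^ (n + 1) * T) := by gcongr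
            _ = (d : ℝ) ^ i * T := by rw [← mul_assoc, ← pow_add, hi', add_comm i' (n + 1)]
            _ ≤ (d : ℝ) ^ j * T := by
                have : (d : ℝ) ^ i ≤ (d : ℝ) ^ j := pow_le_pow_right₀ (by linarith) h2
                gcongr
        linarith
  have hcmp := HC R T j (fun s => X j (cc t₁ + (s : ℂ) * (cc t₂ - cc t₁)) ((Real.exp T : ℂ) * v))
    (fun s => cc t₁ + (s : ℂ) * (cc t₂ - cc t₁)) (((Real.exp T : ℂ) * v) ^ (d ^ j)) hR hTpos hTA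
    hRTA hTj4.le (by
      rw [norm_pow, norm_exp_mul T hv1, ← Real.exp_nat_mul]
      push_cast
      rfl)
    (by
      have h1 : ContinuousOn (fun s : ℝ => (cc t₁ + (s : ℂ) * (cc t₂ - cc t₁),
          (Real.exp T : ℂ) * v)) (Icc (0 : ℝ) 1) := by fun_prop
      exact (hX1 j).comp h1 (fun s hs => hDDT _ (hball s hs)))
    (by fun_prop) hball (fun s hs => hX2 j _ _ (hDDT _ (hball s hs)))
  simp only [Complex.ofReal_zero, zero_mul, add_zero, Complex.ofReal_one, one_mul,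
    add_sub_cancel] at hcmp
  have hlow := hn4 (cc t₁) (cc t₂) hc₁ hc₂ hdiff
  have hd1 := hdist t₁ hm1 hc₁
  have hd2 := hdist t₂ hm2 hc₂
  have e5 : ‖(f d (cc t₁))^[n] (cc t₁) - (f d (cc t₂))^[n] (cc t₂)‖ ≤
      (C * T ^ β + E) + R * T ^ (-A) + (C * T ^ β + E) := by
    set x₁ := X j (cc t₁) ((Real.exp T : ℂ) * v)
    set x₂ := X j (cc t₂) ((Real.exp T : ℂ) * v)
    have h1 : (f d (cc t₁))^[n] (cc t₁) - (f d (cc t₂))^[n] (cc t₂) =
        ((f d (cc t₁))^[n] (cc t₁) - x₁) + (x₁ - x₂) - ((f d (cc t₂))^[n] (cc t₂) - x₂) := by ring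
    rw [h1]
    refine (norm_sub_le _ _).trans (add_le_add ((norm_add_le _ _).trans (add_le_add hd1 hcmp)) hd2)
  linarith

/-- The critical orbit stays above a small power of the scale. -/
theorem rec_low {d : ℕ} {c₀ : ℂ} (hSl : Slow d c₀) {N : ℝ → ℕ} {a b A W r₀ : ℝ}
    (hN : Scale d c₀ N a b A W r₀) {ε : ℝ} (hε : 0 < ε) :
    ∃ R₀ : ℝ, 0 < R₀ ∧ R₀ ≤ r₀ ∧ R₀ < 1 ∧ ∀ R : ℝ, 0 < R → R ≤ R₀ → ∀ j ≤ N R,
      R ^ ε ≤ ‖zz d c₀ j‖ := by
  have hW := hN.W1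
  obtain ⟨C, hC1, hC⟩ := hSl.2 (ε / (2 * W)) (by positivity)
  obtain ⟨q, hq, hq1, Q⟩ := SM.small_pow (C * Real.exp (ε / 2)) (ε / 2) (by positivity)
  refine ⟨min r₀ q, lt_min hN.r0 hq, min_le_left _ _, (min_le_right _ _).trans_lt hq1, ?_⟩
  intro R hR hRR j hj
  have hRr : R ≤ r₀ := hRR.trans (min_le_left _ _)
  have hRq : R ≤ q := hRR.trans (min_le_right _ _)
  have h1 := hN.le R hR hRr
  have h2 : (j : ℝ) ≤ W * (1 + Real.log (1 / R)) := le_trans (by exact_mod_cast hj) h1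
  have h3 : ε / (2 * W) * j ≤ ε / 2 + ε / 2 * Real.log (1 / R) := by
    calc ε / (2 * W) * j ≤ ε / (2 * W) * (W * (1 + Real.log (1 / R))) := by gcongr
      _ = _ := by field_simp
  have h4 := hC j
  have h5 : Real.exp (ε / (2 * W) * j) ≤ Real.exp (ε / 2) * R ^ (-(ε / 2)) := by
    rw [Real.rpow_def_of_pos hR, ← Real.exp_add, Real.exp_le_exp]
    have h6 : Real.log (1 / R) = - Real.log R := by rw [one_div, Real.log_inv]
    rw [h6] at h3
    linarith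
  have h6 : 1 ≤ C * (Real.exp (ε / 2) * R ^ (-(ε / 2))) * ‖zz d c₀ j‖ := by
    refine h4.trans ?_
    gcongr
  have h7 := Q R hR hRq
  have h8 : R ^ (-(ε / 2)) * R ^ (ε / 2) = 1 := by
    rw [← Real.rpow_add hR]; simp
  have h9 : R ^ (ε / 2) * R ^ (ε / 2) = R ^ ε := by
    rw [← Real.rpow_add hR]; congr 1; ring
  have h10 : 0 < R ^ (ε / 2) := Real.rpow_pos_of_pos hR _
  have h11 : 0 < R ^ ε := Real.rpow_pos_of_pos hR _
  calc R ^ ε ≤ R ^ ε * (C * (Real.exp (ε / 2) * R ^ (-(ε / 2))) * ‖zz d c₀ j‖) :=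
        le_mul_of_one_le_right h11.le h6
    _ = (C * Real.exp (ε / 2) * R ^ (ε / 2)) * (R ^ (-(ε / 2)) * R ^ (ε / 2)) * ‖zz d c₀ j‖ := by
        rw [← h9]; ring
    _ ≤ 1 * 1 * ‖zz d c₀ j‖ := by rw [h8]; gcongr
    _ = _ := by ring

/-- **Two points of a parameter ray of finite level**, with the recurrence. -/
theorem two_fin {d : ℕ} (hd : 2 ≤ d) {c₀ : ℂ} (hSl : Slow d c₀) {N : ℝ → ℕ} {a b A W r₀ : ℝ}
    (hN : Scale d c₀ N a b A W r₀) :
    ∃ q p R₀ : ℝ, 0 < q ∧ q ≤ 1 ∧ 0 < p ∧ 0 < R₀ ∧ R₀ ≤ r₀ ∧ ∀ R : ℝ, 0 < R → R ≤ R₀ →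
    ∀ t : ℝ, 0 < t → t ≤ 1 → (∀ j ≤ N R, t ≤ ‖zz d c₀ j‖) →
    ∃ m₀ : ℕ, ∀ m : ℕ, m₀ ≤ m → ∀ (g : ℂ → ℂ) (u : ℂ), IsGm d m g → ‖u‖ = 1 →
    ∀ t₁ t₂ : ℝ, 4 ≤ Real.exp ((d : ℝ) ^ m * t₁) → 4 ≤ Real.exp ((d : ℝ) ^ m * t₂) →
    ‖Real.exp t₁ * u * g (Real.exp t₁ * u)⁻¹ - c₀‖ ≤ R →
    ‖Real.exp t₂ * u * g (Real.exp t₂ * u)⁻¹ - c₀‖ ≤ R →
    R / 8 ≤ ‖Real.exp t₁ * u * g (Real.exp t₁ * u)⁻¹ - Real.exp t₂ * u * g (Real.exp t₂ * u)⁻¹‖ →
    q * t ^ p / (d : ℝ) ^ (N R) ≤ max t₁ t₂ := by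
  have hdR : (2 : ℝ) ≤ d := by exact_mod_cast hd
  have hd0 : (0 : ℝ) < d := by linarith
  obtain ⟨C, β, δ₁, T₀, r₁, hC1, hβ0, hβ1, hδ1, hδ1', hT0, hT0', hr₁, HD⟩ := disp t_SHAD d c₀ hd hSl
  obtain ⟨Ac, hAc, HC⟩ := t_CMP t_SHAD t_EXQ' d c₀ hd hSl
  have ha := hN.a0
  have hb := hN.b0
  have hA1 := hN.A1
  have hL2 := LL_two hd
  have hC0 : 0 < C := by linarith
  obtain ⟨L, hL⟩ : ∃ L, L = LL d := ⟨_, rfl⟩
  rw [← hL] at hL2
  have hL0 : 0 < L := by linarith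
  have hlogd : 0 < Real.log d := Real.log_pos (by linarith)
  have hlogL : 0 < Real.log L := Real.log_pos (by linarith)
  obtain ⟨α, hα⟩ : ∃ α : ℝ, α = Real.log d / Real.log L := ⟨_, rfl⟩
  have hα0 : 0 < α := by rw [hα]; positivity
  have hαL : α * Real.log L = Real.log d := by rw [hα]; field_simp
  obtain ⟨δ₂, hδ₂⟩ : ∃ δ₂ : ℝ, δ₂ = 1 / (d : ℝ) - δ₁ := ⟨_, rfl⟩
  have hδ20 : 0 < δ₂ := by
    have h1 : 1 / (4 * (d : ℝ)) < 1 / d := by
      apply one_div_lt_one_div_of_lt hd0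
      linarith
    rw [hδ₂]; linarith
  -- the constants
  obtain ⟨p, hp⟩ : ∃ p : ℝ, p = A / β := ⟨_, rfl⟩
  have hp0 : 0 < p := by rw [hp]; positivity
  have hpβ : p * β = A := by rw [hp]; field_simp
  obtain ⟨ω₀, hω₀⟩ : ∃ ω₀ : ℝ, ω₀ = b * a / 8 := ⟨_, rfl⟩
  have hω0 : 0 < ω₀ := by rw [hω₀]; positivity
  obtain ⟨q, hq⟩ : ∃ q : ℝ, q = min (min 1 T₀) (min (1 / Ac) ((ω₀ / (8 * C)) ^ (1 / β))) := ⟨_, rfl⟩
  have hq0 : 0 < q := by rw [hq]; positivity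
  have hq1 : q ≤ 1 := by rw [hq]; exact (min_le_left _ _).trans (min_le_left _ _)
  have hqT : q ≤ T₀ := by rw [hq]; exact (min_le_left _ _).trans (min_le_right _ _)
  have hqA : Ac * q ≤ 1 := by
    have h1 : q ≤ 1 / Ac := by rw [hq]; exact (min_le_right _ _).trans (min_le_left _ _)
    rw [le_div_iff₀ (by linarith)] at h1
    linarith
  have hqω : C * q ^ β ≤ ω₀ / 8 := by
    have h1 : q ≤ (ω₀ / (8 * C)) ^ (1 / β) := by
      rw [hq]; exact (min_le_right _ _).trans (min_le_right _ _)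
    have h2 : q ^ β ≤ ω₀ / (8 * C) := by
      calc q ^ β ≤ ((ω₀ / (8 * C)) ^ (1 / β)) ^ β := Real.rpow_le_rpow hq0.le h1 hβ0.le
        _ = ω₀ / (8 * C) := by
          rw [← Real.rpow_mul (by positivity), one_div, inv_mul_cancel₀ hβ0.ne', Real.rpow_one]
    calc C * q ^ β ≤ C * (ω₀ / (8 * C)) := by gcongr
      _ = ω₀ / 8 := by field_simp
  obtain ⟨ε, hε⟩ : ∃ ε : ℝ, ε = min (δ₂ / (2 * A)) (min (1 / (2 * (p * Ac + A)))
    (α / (2 * (p + α * A)))) := ⟨_, rfl⟩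
  have hε0 : 0 < ε := by rw [hε]; positivity
  have hε1 : ε * A ≤ δ₂ / 2 := by
    have h1 : ε ≤ δ₂ / (2 * A) := by rw [hε]; exact min_le_left _ _
    calc ε * A ≤ δ₂ / (2 * A) * A := by gcongr
      _ = _ := by field_simp
  have hε2 : ε * (p * Ac + A) ≤ 1 / 2 := by
    have h1 : ε ≤ 1 / (2 * (p * Ac + A)) := by
      rw [hε]; exact (min_le_right _ _).trans (min_le_left _ _)
    calc ε * (p * Ac + A) ≤ 1 / (2 * (p * Ac + A)) * (p * Ac + A) := by gcongr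
      _ = _ := by field_simp
  have hε3 : ε * (p + α * A) ≤ α / 2 := by
    have h1 : ε ≤ α / (2 * (p + α * A)) := by
      rw [hε]; exact (min_le_right _ _).trans (min_le_right _ _)
    calc ε * (p + α * A) ≤ α / (2 * (p + α * A)) * (p + α * A) := by gcongr
      _ = _ := by field_simp
  obtain ⟨R₁, hR₁, hR₁r, hR₁1, HR₁⟩ := rec_low hSl hN hε0
  have hqAc : 0 < q ^ Ac := Real.rpow_pos_of_pos hq0 _
  obtain ⟨s₁, hs₁, -, Q1⟩ := SM.small_pow (8 * C / ω₀) (δ₂ / 2) (by positivity)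
  obtain ⟨s₂, hs₂, -, Q2⟩ := SM.small_pow (8 / (ω₀ * q ^ Ac)) (1 / 2) (by norm_num)
  obtain ⟨s₃, hs₃, -, Q3⟩ := SM.small_pow (1 / q ^ Ac) (1 / 2) (by norm_num)
  obtain ⟨s₄, hs₄, -, Q4⟩ := SM.small_pow (2 / (q * a ^ α)) (α / 2) (by positivity)
  refine ⟨q, p, min (min r₁ R₁) (min (min s₁ s₂) (min s₃ s₄)), hq0, hq1, hp0, by positivity,
    ((min_le_left _ _).trans (min_le_right _ _)).trans hR₁r, ?_⟩
  intro R hR hRR t' ht' ht'1 hrec'
  have hRa : R ≤ r₁ := hRR.trans ((min_le_left _ _).trans (min_le_left _ _))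
  have hRb : R ≤ R₁ := hRR.trans ((min_le_left _ _).trans (min_le_right _ _))
  have hRc : R ≤ s₁ := hRR.trans ((min_le_right _ _).trans ((min_le_left _ _).trans (min_le_left _ _)))
  have hRd : R ≤ s₂ := hRR.trans ((min_le_right _ _).trans ((min_le_left _ _).trans (min_le_right _ _)))
  have hRe : R ≤ s₃ := hRR.trans ((min_le_right _ _).trans ((min_le_right _ _).trans (min_le_left _ _)))
  have hRf : R ≤ s₄ := hRR.trans ((min_le_right _ _).trans ((min_le_right _ _).trans (min_le_right _ _)))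
  have hR1 : R < 1 := hRb.trans_lt hR₁1
  have hRr : R ≤ r₀ := hRb.trans hR₁r
  -- a better `t`
  obtain ⟨t, ht⟩ : ∃ t : ℝ, t = max t' (R ^ ε) := ⟨_, rfl⟩
  have htt' : t' ≤ t := by rw [ht]; exact le_max_left _ _
  have htR : R ^ ε ≤ t := by rw [ht]; exact le_max_right _ _
  have ht0 : 0 < t := ht'.trans_le htt'
  have ht1 : t ≤ 1 := by
    rw [ht]
    exact max_le ht'1 (Real.rpow_le_one hR.le hR1.le hε0.le)
  have hrec : ∀ j ≤ N R, t ≤ ‖zz d c₀ j‖ := by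
    intro j hj
    rw [ht]
    exact max_le (hrec' j hj) (HR₁ R hR hRb j hj)
  obtain ⟨T, hT⟩ : ∃ T : ℝ, T = q * t ^ p := ⟨_, rfl⟩
  have htp : 0 < t ^ p := Real.rpow_pos_of_pos ht0 _
  have htp1 : t ^ p ≤ 1 := Real.rpow_le_one ht0.le ht1 hp0.le
  have hTpos : 0 < T := by rw [hT]; positivity
  have hTq : T ≤ q := by rw [hT]; exact mul_le_of_le_one_right hq0.le htp1
  have htpR : R ^ (ε * p) ≤ t ^ p := by
    rw [Real.rpow_mul hR.le]
    exact Real.rpow_le_rpow (Real.rpow_nonneg hR.le _) htR hp0.le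
  have htAR : R ^ (ε * A) ≤ t ^ A := by
    rw [Real.rpow_mul hR.le]
    exact Real.rpow_le_rpow (Real.rpow_nonneg hR.le _) htR (by linarith)
  have htA0 : 0 < t ^ A := Real.rpow_pos_of_pos ht0 _
  -- (3)
  have hTA : T ^ Ac = q ^ Ac * t ^ (p * Ac) := by
    rw [hT, Real.mul_rpow hq0.le htp.le, ← Real.rpow_mul ht0.le]
  have htpAR : R ^ (ε * (p * Ac)) ≤ t ^ (p * Ac) := by
    rw [Real.rpow_mul hR.le]
    exact Real.rpow_le_rpow (Real.rpow_nonneg hR.le _) htR (by positivity)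
  have hεpA : ε * (p * Ac) ≤ 1 / 2 := by
    have h1 : 0 ≤ ε * A := by positivity
    have h2 : ε * (p * Ac + A) = ε * (p * Ac) + ε * A := by ring
    linarith
  have hRTA : R ≤ T ^ Ac := by
    rw [hTA]
    have h1 := Q3 R hR hRe
    have h2 : R ^ ((1 : ℝ) / 2) ≤ q ^ Ac := by
      rw [one_div, inv_mul_le_iff₀ hqAc, mul_one] at h1
      exact h1
    have h3 : R ^ ((1 : ℝ) / 2) ≤ t ^ (p * Ac) := by
      refine le_trans ?_ htpAR
      exact Real.rpow_le_rpow_of_exponent_ge hR hR1.le hεpA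
    calc R = R ^ ((1 : ℝ) / 2) * R ^ ((1 : ℝ) / 2) := by
          rw [← Real.rpow_add hR]; norm_num
      _ ≤ q ^ Ac * t ^ (p * Ac) := by gcongr
  -- the size of `d ^ n`
  obtain ⟨n, hn⟩ : ∃ n, n = N R := ⟨_, rfl⟩
  have hlow := hN.low R hR t ht0 ht1 hrec
  obtain ⟨C₁, lam, hCE⟩ := hSl.1
  have hPn : Pd d c₀ (N R) ≤ L ^ (N R) := by
    have h1 := Pd_add_le hCE 0 (N R)
    rw [zero_add, Pd_zero, mul_one] at h1
    rw [hL]
    exact h1
  have hLn : a * R ^ (ε * A) ≤ R * L ^ n := by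
    calc a * R ^ (ε * A) ≤ a * t ^ A := by gcongr
      _ ≤ R * Pd d c₀ (N R) := hlow
      _ ≤ R * L ^ n := by rw [hn]; gcongr
  have hdn : (d : ℝ) ^ n = (L ^ n) ^ α := by
    rw [← Real.rpow_natCast, ← Real.rpow_natCast, ← Real.rpow_mul hL0.le,
      Real.rpow_def_of_pos hd0, Real.rpow_def_of_pos hL0, ← hαL]
    congr 1
    ring
  have hdn2 : a ^ α * R ^ (α * (ε * A) - α) ≤ (d : ℝ) ^ n := by
    rw [hdn]
    have h1 : a * R ^ (ε * A - 1) ≤ L ^ n := by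
      rw [Real.rpow_sub hR, Real.rpow_one]
      rw [← mul_div_assoc, div_le_iff₀ hR]
      linarith
    calc a ^ α * R ^ (α * (ε * A) - α) = (a * R ^ (ε * A - 1)) ^ α := by
          rw [Real.mul_rpow ha.le (Real.rpow_nonneg hR.le _), ← Real.rpow_mul hR.le]
          congr 2
          ring
      _ ≤ (L ^ n) ^ α := Real.rpow_le_rpow (by positivity) h1 hα0.le
  have hTn : Real.log 4 ≤ (d : ℝ) ^ (n + 1) * T := by
    have h1 : R ^ (ε * p) * q ≤ T := by rw [hT, mul_comm q]; gcongr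
    have h2 : 2 ≤ (d : ℝ) ^ n * T := by
      have h3 := Q4 R hR hRf
      have h4 : q * a ^ α * R ^ (-(α / 2)) ≤ (d : ℝ) ^ n * T := by
        calc q * a ^ α * R ^ (-(α / 2)) ≤ q * a ^ α * R ^ ((α * (ε * A) - α) + ε * p) := by
              have h5 : (α * (ε * A) - α) + ε * p ≤ -(α / 2) := by
                have h6 : ε * (p + α * A) = ε * p + α * (ε * A) := by ring
                linarith
              have h6 : R ^ (-(α / 2)) ≤ R ^ ((α * (ε * A) - α) + ε * p) :=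
                Real.rpow_le_rpow_of_exponent_ge hR hR1.le h5
              gcongr
          _ = (a ^ α * R ^ (α * (ε * A) - α)) * (R ^ (ε * p) * q) := by
              rw [Real.rpow_add hR]; ring
          _ ≤ (d : ℝ) ^ n * T := by gcongr
      refine le_trans ?_ h4
      have h5 : R ^ (-(α / 2)) * R ^ (α / 2) = 1 := by
        rw [← Real.rpow_add hR]; simp
      have h6 : 0 < R ^ (α / 2) := Real.rpow_pos_of_pos hR _
      have h7 : 0 < R ^ (-(α / 2)) := Real.rpow_pos_of_pos hR _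
      have h8 : 0 < q * a ^ α := by positivity
      calc (2 : ℝ) = 2 / (q * a ^ α) * R ^ (α / 2) * (q * a ^ α * R ^ (-(α / 2))) := by
            have : 2 / (q * a ^ α) * R ^ (α / 2) * (q * a ^ α * R ^ (-(α / 2))) =
              2 * (R ^ (-(α / 2)) * R ^ (α / 2)) := by field_simp
            rw [this, h5, mul_one]
        _ ≤ 1 * (q * a ^ α * R ^ (-(α / 2))) := by gcongr
        _ = _ := one_mul _
    have h4 : Real.log 4 ≤ 2 := by
      rw [Real.log_le_iff_le_exp (by norm_num)]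
      have h5 : Real.exp 2 = Real.exp 1 * Real.exp 1 := by rw [← Real.exp_add]; norm_num
      nlinarith [Real.exp_one_gt_d9]
    calc Real.log 4 ≤ 2 := h4
      _ ≤ (d : ℝ) ^ n * T := h2
      _ ≤ (d : ℝ) ^ (n + 1) * T := by
          rw [pow_succ]
          have : 0 < (d : ℝ) ^ n * T := by positivity
          nlinarith
  -- the numbers
  obtain ⟨ω, hω⟩ : ∃ ω : ℝ, ω = ω₀ * t ^ A := ⟨_, rfl⟩
  have hωpos : 0 < ω := by rw [hω]; positivity
  have e2 : C * T ^ β ≤ ω / 8 := by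
    rw [hT, Real.mul_rpow hq0.le htp.le, ← Real.rpow_mul ht0.le, hpβ, hω]
    calc C * (q ^ β * t ^ A) = (C * q ^ β) * t ^ A := by ring
      _ ≤ ω₀ / 8 * t ^ A := by gcongr
      _ = _ := by ring
  have e3 : C * R ^ (1 / (d : ℝ) - δ₁) ≤ ω / 8 := by
    rw [← hδ₂]
    have h1 := Q1 R hR hRc
    have h2 : R ^ (δ₂ / 2) ≤ t ^ A := by
      refine le_trans ?_ htAR
      exact Real.rpow_le_rpow_of_exponent_ge hR hR1.le hε1
    calc C * R ^ δ₂ = (8 * C / ω₀ * R ^ (δ₂ / 2)) * (ω₀ * R ^ (δ₂ / 2)) / 8 := by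
          have : R ^ δ₂ = R ^ (δ₂ / 2) * R ^ (δ₂ / 2) := by
            rw [← Real.rpow_add hR]; congr 1; ring
          rw [this]; field_simp
      _ ≤ 1 * (ω₀ * t ^ A) / 8 := by gcongr
      _ = ω / 8 := by rw [hω, one_mul]
  have e4 : R * T ^ (-Ac) ≤ ω / 8 := by
    rw [Real.rpow_neg hTpos.le, hTA, ← div_eq_mul_inv, div_le_iff₀ (by positivity), hω]
    have h1 := Q2 R hR hRd
    have h2 : R ^ ((1 : ℝ) / 2) ≤ ω₀ * q ^ Ac / 8 := by
      rw [div_mul_eq_mul_div, div_le_one (by positivity)] at h1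
      linarith
    have h3 : R ^ ((1 : ℝ) / 2) ≤ t ^ A * t ^ (p * Ac) := by
      calc R ^ ((1 : ℝ) / 2) ≤ R ^ (ε * (p * Ac + A)) :=
            Real.rpow_le_rpow_of_exponent_ge hR hR1.le hε2
        _ = R ^ (ε * A) * R ^ (ε * (p * Ac)) := by
            rw [← Real.rpow_add hR]; congr 1; ring
        _ ≤ _ := by gcongr
    calc R = R ^ ((1 : ℝ) / 2) * R ^ ((1 : ℝ) / 2) := by
          rw [← Real.rpow_add hR]; norm_num
      _ ≤ (ω₀ * q ^ Ac / 8) * (t ^ A * t ^ (p * Ac)) := by gcongr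
      _ = _ := by ring
  have hcore := two_core hd (c₀ := c₀) (C := C) (E := C * R ^ (1 / (d : ℝ) - δ₁)) (β := β)
    (T₀ := T₀) (A := Ac) (R := R) (T := T) (ω := ω) (n := n) hR hTpos (hTq.trans hqT)
    ((mul_le_mul_of_nonneg_left hTq (by linarith)).trans hqA) hRTA hTn (fun c hc j => HD R hR hRa c hc j) HC
    (fun c x hc hx j hj => hN.stay R hR hRr c x hc hx j (by rw [← hn]; exact hj))
    (fun c c' hc hc' hcc => by
      have h1 := hN.two R hR hRr c c' hc hc'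
      rw [← hn] at h1
      refine le_trans ?_ h1
      rw [← hn] at hlow
      calc ω = b * (a * t ^ A) / 8 := by rw [hω, hω₀]; ring
        _ ≤ b * (R * Pd d c₀ n) / 8 := by gcongr
        _ = b * Pd d c₀ n * (R / 8) := by ring
        _ ≤ b * Pd d c₀ n * ‖c - c'‖ := by
            have := Pd_nonneg d c₀ n
            gcongr)
    (by linarith)
  obtain ⟨m₀, hm₀⟩ := hcore
  refine ⟨m₀, fun m hm g u hg hu t₁ t₂ h1 h2 h3 h4 h5 => ?_⟩
  have h6 := hm₀ m hm g u hg hu t₁ t₂ h1 h2 h3 h4 h5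
  refine le_trans ?_ h6
  rw [hT, ← hn]
  have h7 : t' ^ p ≤ t ^ p := Real.rpow_le_rpow ht'.le htt' hp0.le
  gcongr

end Pool.Agent.KS6_34
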