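import Mathlib
import Pool.Agent.KS6_34.Orb3
import Pool.Agent.KS6_34.Two

/-!
# The numerical conditions hold at all small scales
-/

set_option autoImplicit false

open Set Filter Metric Topology

namespace Pool.Agent.KS6_34

open Pool.Agent.TH279.MD Pool.Agent.Y298.SH Pool.Agent.Y298.SH.CD
open Pool.Agent.N253.LS (Slow)
open Pool.Agent.N253 (SM.small_pow)

variable {d : ℕ} {c₀ : ℂ} {N : ℝ → ℕ} {as b As W r₀ κ η a κ₂ A r₁ : ℝ}

/-- The critical radius at the scale `R`. -/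
noncomputable def crit (d : ℕ) (K₁ K₂ R t : ℝ) : ℝ := (K₁ * R * t ^ (-K₂)) ^ (1 / ((d : ℝ) - 1))

theorem crit_pow (hd : 2 ≤ d) {K₁ K₂ R t : ℝ} (hK : 0 < K₁) (hR : 0 < R) (ht : 0 < t) :
    crit d K₁ K₂ R t ^ (d - 1) = K₁ * R * t ^ (-K₂) := by
  have hdR : (2 : ℝ) ≤ d := by exact_mod_cast hd
  have h1 : 0 < K₁ * R * t ^ (-K₂) := by
    have := Real.rpow_pos_of_pos ht (-K₂)
    positivity
  unfold crit
  rw [← Real.rpow_natCast, ← Real.rpow_mul h1.le, Nat.cast_sub (by omega), Nat.cast_one,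
    one_div_mul_cancel (by linarith), Real.rpow_one]

theorem crit_pos {K₁ K₂ R t : ℝ} (hK : 0 < K₁) (hR : 0 < R) (ht : 0 < t) :
    0 < crit d K₁ K₂ R t := by
  have := Real.rpow_pos_of_pos ht (-K₂)
  unfold crit
  positivity

theorem exists_gd (hN : Scale d c₀ N as b As W r₀) (hE : Exd d c₀ κ η a κ₂ A r₁)
    (hd : 2 ≤ d) {G₀ L₀ : ℝ} (hG1 : 2 ≤ G₀ * (κ / 4)) :
    ∃ K₁ K₂ ε R₂ : ℝ, 1 ≤ K₁ ∧ 0 < K₂ ∧ 0 < ε ∧ 0 < R₂ ∧ R₂ < 1 ∧ ε * K₂ ≤ 1 / (8 * (d : ℝ) ^ 2) ∧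
    ∀ R : ℝ, 0 < R → R ≤ R₂ → ∀ t : ℝ,
      R ^ ε ≤ t → t ≤ 1 → (∀ j ≤ N R, t ≤ ‖zz d c₀ j‖) →
      Gd d c₀ N as b As r₀ κ η a κ₂ A r₁ G₀ L₀ R t (crit d K₁ K₂ R t) := by
  have hdR : (2 : ℝ) ≤ d := by exact_mod_cast hd
  have hd0 : (0 : ℝ) < d := by linarith
  have hd1 : (0 : ℝ) < (d : ℝ) - 1 := by linarith
  have hη := hE.η0
  have hκ := hE.κ0
  have hκ1 := hE.κ1
  have hk2 := hE.k2
  have has := hN.a0
  have hb := hN.b0
  have hW := hN.W1
  have hA := hE.A1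
  have hAs := hN.A1
  obtain ⟨Q, hQd⟩ : ∃ Q, Q = Real.exp η - 1 := ⟨_, rfl⟩
  have hQ : 0 < Q := by
    rw [hQd]
    have := Real.one_lt_exp_iff.2 hE.η0
    linarith
  obtain ⟨K₂, hK₂⟩ : ∃ K₂, K₂ = As + A := ⟨_, rfl⟩
  have hK₂0 : 0 < K₂ := by rw [hK₂]; linarith
  obtain ⟨K₁, hK₁⟩ : ∃ K₁ : ℝ, K₁ = max 1 (max (G₀ / as) (L₀ / (b * as * κ * Real.exp (-η)))) :=
    ⟨_, rfl⟩
  have hK₁1 : 1 ≤ K₁ := by rw [hK₁]; exact le_max_left _ _
  have hK₁0 : 0 < K₁ := by linarith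
  have hK₁G : G₀ ≤ as * K₁ := by
    have : G₀ / as ≤ K₁ := by rw [hK₁]; exact (le_max_left _ _).trans (le_max_right _ _)
    rw [div_le_iff₀ has] at this
    linarith
  have hK₁L : L₀ ≤ b * as * κ * Real.exp (-η) * K₁ := by
    have : L₀ / (b * as * κ * Real.exp (-η)) ≤ K₁ := by
      rw [hK₁]; exact (le_max_right _ _).trans (le_max_right _ _)
    rw [div_le_iff₀ (by positivity)] at this
    linarith
  obtain ⟨p, hp⟩ : ∃ p : ℝ, p = 1 / (2 * (d : ℝ) ^ 2) := ⟨_, rfl⟩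
  obtain ⟨e, he⟩ : ∃ e : ℝ, e = 1 / (8 * (d : ℝ) ^ 2) := ⟨_, rfl⟩
  have hpe : p = 4 * e := by rw [hp, he]; field_simp; norm_num
  have he0 : 0 < e := by rw [he]; positivity
  have hdp : d * p = 1 / (2 * (d : ℝ)) := by rw [hp]; field_simp
  have hde : d * e = 1 / (8 * (d : ℝ)) := by rw [he]; field_simp
  have hinv : 0 < 1 / (d : ℝ) := by positivity
  have hinv2 : 1 / (2 * (d : ℝ)) = 1 / d / 2 := by field_simp
  have hinv8 : 1 / (8 * (d : ℝ)) = 1 / d / 8 := by field_simp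
  have hinv4 : 1 / (4 * (d : ℝ)) = 1 / d / 4 := by field_simp
  have hinv34 : 3 / (4 * (d : ℝ)) = 1 / d * (3 / 4) := by field_simp
  have he8 : 2 * e ≤ 1 / d / 8 := by
    rw [← hinv8, ← hde]
    nlinarith
  obtain ⟨K₃, hK₃⟩ : ∃ K₃, K₃ = K₂ + 2 * A + As + 4 := ⟨_, rfl⟩
  have hK₃0 : 0 < K₃ := by rw [hK₃]; linarith
  obtain ⟨ε, hε⟩ : ∃ ε, ε = e / K₃ := ⟨_, rfl⟩
  have hε0 : 0 < ε := by rw [hε]; positivity
  have hεe : ∀ m : ℝ, m ≤ K₃ → ε * m ≤ e := by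
    intro m hm
    calc ε * m ≤ ε * K₃ := by gcongr
      _ = e := by rw [hε]; field_simp
  -- the small numbers
  obtain ⟨q1, hq1, hq11, Q1⟩ := SM.small_pow K₁ (1 / (2 * (d : ℝ)) - e) (by
    rw [hinv2]; linarith)
  obtain ⟨q2, hq2, hq21, Q2⟩ := SM.small_pow 2 (1 / (d : ℝ)) hinv
  obtain ⟨q3, hq3, hq31, Q3⟩ := SM.small_pow (2 * 2 ^ d) (1 / (2 * (d : ℝ))) (by positivity)
  obtain ⟨q4, hq4, hq41, Q4⟩ := SM.small_pow (K₁ / κ₂) (3 / (4 * (d : ℝ)) - e) (by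
    rw [hinv34]; linarith)
  obtain ⟨q5, hq5, hq51, Q5⟩ := SM.small_pow (8 * as * K₁ / (κ * Q)) (1 / (d : ℝ)) hinv
  obtain ⟨q6, hq6, hq61, Q6⟩ := SM.small_pow (as * K₁ / (κ * Q)) (p - e) (by linarith)
  obtain ⟨q7, hq7, hq71, Q7⟩ := SM.small_pow (8 * (W * (1 + 1 / e))) 1 one_pos
  obtain ⟨q8, hq8, hq81, Q8⟩ := SM.small_pow (1 / (κ₂ * η)) (1 / (4 * (d : ℝ))) (by positivity)
  obtain ⟨q9, hq9, hq91, Q9⟩ := SM.small_pow (768 / (b * as * κ)) (1 / (d : ℝ)) hinv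
  refine ⟨K₁, K₂, ε, min q9 (min (min (min r₀ r₁) (min q1 q2)) (min (min q3 q4)
    (min (min q5 q6) (min q7 q8)))), hK₁1, hK₂0, hε0, ?_, ?_, ?_, ?_⟩
  · have := hN.r0
    have := hE.r0
    positivity
  · exact lt_of_le_of_lt (min_le_left _ _) hq91
  · rw [← he]
    exact hεe K₂ (by rw [hK₃]; linarith)
  intro R hR hRR' t hεt ht1 hrec
  have hR9 : R ≤ q9 := hRR'.trans (min_le_left _ _)
  have hRR := hRR'.trans (min_le_right _ _)
  have hRr : R ≤ r₀ := hRR.trans ((min_le_left _ _).trans ((min_le_left _ _).trans (min_le_left _ _)))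
  have hRr1 : R ≤ r₁ := hRR.trans ((min_le_left _ _).trans ((min_le_left _ _).trans (min_le_right _ _)))
  have hR1 : R ≤ q1 := hRR.trans ((min_le_left _ _).trans ((min_le_right _ _).trans (min_le_left _ _)))
  have hR2 : R ≤ q2 := hRR.trans ((min_le_left _ _).trans ((min_le_right _ _).trans (min_le_right _ _)))
  have hR3 : R ≤ q3 := hRR.trans ((min_le_right _ _).trans ((min_le_left _ _).trans (min_le_left _ _)))
  have hR4 : R ≤ q4 := hRR.trans ((min_le_right _ _).trans ((min_le_left _ _).trans (min_le_right _ _)))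
  have hR5 : R ≤ q5 := hRR.trans ((min_le_right _ _).trans ((min_le_right _ _).trans
    ((min_le_left _ _).trans (min_le_left _ _))))
  have hR6 : R ≤ q6 := hRR.trans ((min_le_right _ _).trans ((min_le_right _ _).trans
    ((min_le_left _ _).trans (min_le_right _ _))))
  have hR7 : R ≤ q7 := hRR.trans ((min_le_right _ _).trans ((min_le_right _ _).trans
    ((min_le_right _ _).trans (min_le_left _ _))))
  have hR8 : R ≤ q8 := hRR.trans ((min_le_right _ _).trans ((min_le_right _ _).trans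
    ((min_le_right _ _).trans (min_le_right _ _))))
  have hRlt1 : R < 1 := lt_of_le_of_lt hR1 hq11
  have f1 := Q1 R hR hR1
  have f2 := Q2 R hR hR2
  have f3 := Q3 R hR hR3
  have f4 := Q4 R hR hR4
  have f5 := Q5 R hR hR5
  have f6 := Q6 R hR hR6
  have f7 := Q7 R hR hR7
  have f8 := Q8 R hR hR8
  have f9 := Q9 R hR hR9
  rw [Real.rpow_one] at f7
  have hRε : 0 < R ^ ε := Real.rpow_pos_of_pos hR _
  have ht : 0 < t := hRε.trans_le hεt
  have hRe : 0 < R ^ e := Real.rpow_pos_of_pos hR _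
  -- powers of `t`
  have htm : ∀ m : ℝ, 0 ≤ m → m ≤ K₃ → R ^ e ≤ t ^ m := by
    intro m hm hm3
    calc R ^ e ≤ R ^ (ε * m) := Real.rpow_le_rpow_of_exponent_ge hR hRlt1.le (hεe m hm3)
      _ = (R ^ ε) ^ m := by rw [Real.rpow_mul hR.le]
      _ ≤ t ^ m := Real.rpow_le_rpow hRε.le hεt hm
  have htm' : ∀ m : ℝ, 0 ≤ m → m ≤ K₃ → t ^ (-m) ≤ R ^ (-e) := by
    intro m hm hm3
    rw [Real.rpow_neg ht.le, Real.rpow_neg hR.le]
    exact inv_anti₀ hRe (htm m hm hm3)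
  obtain ⟨s, hs⟩ : ∃ s, s = crit d K₁ K₂ R t := ⟨_, rfl⟩
  have hs0 : 0 < s := by rw [hs]; exact crit_pos hK₁0 hR ht
  have hspow : s ^ (d - 1) = K₁ * R * t ^ (-K₂) := by rw [hs]; exact crit_pow hd hK₁0 hR ht
  rw [← hs]
  have htA : 0 < t ^ A := Real.rpow_pos_of_pos ht _
  have htAs : 0 < t ^ As := Real.rpow_pos_of_pos ht _
  have htK₂ : 0 < t ^ (-K₂) := Real.rpow_pos_of_pos ht _
  have htA1 : t ^ A ≤ 1 := Real.rpow_le_one ht.le ht1 (by linarith)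
  -- `s` is small
  have hsp : s ^ (d - 1) ≤ K₁ * R ^ (1 - e) := by
    rw [hspow]
    have h1 := htm' K₂ hK₂0.le (by rw [hK₃]; linarith)
    have h2 : R ^ (1 - e) = R * R ^ (-e) := by
      rw [sub_eq_add_neg, Real.rpow_add hR, Real.rpow_one]
    rw [h2]
    calc K₁ * R * t ^ (-K₂) ≤ K₁ * R * R ^ (-e) := by gcongr
      _ = _ := by ring
  have hsle : s ≤ R ^ (1 / (d : ℝ) + p) := by
    have h1 : s ^ (d - 1) ≤ (R ^ (1 / (d : ℝ) + p)) ^ (d - 1) := by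
      have h2 : (R ^ (1 / (d : ℝ) + p)) ^ (d - 1) = R ^ ((1 / (d : ℝ) + p) * ((d : ℝ) - 1)) := by
        rw [← Real.rpow_natCast, ← Real.rpow_mul hR.le, Nat.cast_sub (by omega), Nat.cast_one]
      have h3 : (1 / (d : ℝ) + p) * ((d : ℝ) - 1) ≤ 1 - 1 / (2 * (d : ℝ)) := by
        have h4 : (1 / (d : ℝ) + p) * ((d : ℝ) - 1) = 1 - 1 / d + d * p - p := by
          field_simp
          ring
        rw [h4, hdp, hinv2]
        have : 0 < p := by linarith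
        linarith
      have h5 : K₁ * R ^ (1 - e) ≤ R ^ (1 - 1 / (2 * (d : ℝ))) := by
        have h6 : R ^ (1 - e) = R ^ (1 / (2 * (d : ℝ)) - e) * R ^ (1 - 1 / (2 * (d : ℝ))) := by
          rw [← Real.rpow_add hR]
          congr 1
          ring
        rw [h6]
        have h7 : 0 < R ^ (1 - 1 / (2 * (d : ℝ))) := Real.rpow_pos_of_pos hR _
        calc K₁ * (R ^ (1 / (2 * (d : ℝ)) - e) * R ^ (1 - 1 / (2 * (d : ℝ))))
            = K₁ * R ^ (1 / (2 * (d : ℝ)) - e) * R ^ (1 - 1 / (2 * (d : ℝ))) := by ring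
          _ ≤ 1 * R ^ (1 - 1 / (2 * (d : ℝ))) := by gcongr
          _ = _ := one_mul _
      rw [h2]
      exact hsp.trans (h5.trans (Real.rpow_le_rpow_of_exponent_ge hR hRlt1.le h3))
    exact le_of_pow_le_pow_left₀ (by omega) (Real.rpow_nonneg hR.le _) h1
  have hp0 : 0 < p := by linarith
  have hRp : 0 < R ^ (1 / (d : ℝ) + p) := Real.rpow_pos_of_pos hR _
  have hs1 : s ≤ R ^ (1 / (d : ℝ)) * R ^ e * R ^ e * R ^ e := by
    refine hsle.trans ?_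
    rw [← Real.rpow_add hR, ← Real.rpow_add hR, ← Real.rpow_add hR]
    exact Real.rpow_le_rpow_of_exponent_ge hR hRlt1.le (by linarith)
  have hRe1 : R ^ e ≤ 1 := Real.rpow_le_one hR.le hRlt1.le he0.le
  have hRd : 0 < R ^ (1 / (d : ℝ)) := Real.rpow_pos_of_pos hR _
  have hsd : s ^ d ≤ R * R ^ (1 / (2 * (d : ℝ))) := by
    calc s ^ d ≤ (R ^ (1 / (d : ℝ) + p)) ^ d := pow_le_pow_left₀ hs0.le hsle d
      _ = R ^ ((1 / (d : ℝ) + p) * d) := by rw [← Real.rpow_natCast, ← Real.rpow_mul hR.le]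
      _ = R ^ (1 + 1 / (2 * (d : ℝ))) := by
          congr 1
          rw [← hdp]
          field_simp
      _ = _ := by rw [Real.rpow_add hR, Real.rpow_one]
  have hsd' : s ^ (d - 1) * s = s ^ d := by
    rw [← pow_succ]
    congr 1
    omega
  have hΓ : as * t ^ As * s ^ (d - 1) / R = as * K₁ * t ^ (-A) := by
    rw [hspow, hK₂]
    have h1 : t ^ As * t ^ (-(As + A)) = t ^ (-A) := by
      rw [← Real.rpow_add ht]
      congr 1
      ring
    calc as * t ^ As * (K₁ * R * t ^ (-(As + A))) / R =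
        as * K₁ * (t ^ As * t ^ (-(As + A))) := by field_simp
      _ = _ := by rw [h1]
  have htnA : 0 < t ^ (-A) := Real.rpow_pos_of_pos ht _
  have htnA1 : 1 ≤ t ^ (-A) := Real.one_le_rpow_of_pos_of_le_one_of_nonpos ht ht1 (by linarith)
  have hexpη : Real.exp (-η) ≤ 1 := by rw [Real.exp_le_one_iff]; linarith
  have hexp0 : 0 < Real.exp (-η) := Real.exp_pos _
  have hspos : 0 < s ^ (d - 1) := by positivity
  refine ⟨hR, hRr, hRr1, ht, ht1, hrec, hs0, ?_, ?_, ?_, ?_, ?_, ?_, ?_, ?_, hG1, ?_, ?_⟩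
  · -- `s ≤ t / 2`
    have h1 : t ^ (1 : ℝ) = t := Real.rpow_one t
    have h2 := htm 1 (by norm_num) (by rw [hK₃]; linarith)
    rw [h1] at h2
    have h3 : s ≤ R ^ (1 / (d : ℝ)) * R ^ e := by
      refine hs1.trans ?_
      calc R ^ (1 / (d : ℝ)) * R ^ e * R ^ e * R ^ e ≤ R ^ (1 / (d : ℝ)) * R ^ e * 1 * 1 := by gcongr
        _ = _ := by ring
    have h4 : 2 * R ^ (1 / (d : ℝ)) * R ^ e ≤ 1 * R ^ e := by gcongr
    linarith
  · -- `(2 s) ^ d < R`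
    rw [mul_pow]
    have h1 : 2 ^ d * s ^ d ≤ 2 ^ d * (R * R ^ (1 / (2 * (d : ℝ)))) := by gcongr
    have h2 : 2 * (2 ^ d * (R * R ^ (1 / (2 * (d : ℝ))))) ≤ 1 * R := by
      calc 2 * (2 ^ d * (R * R ^ (1 / (2 * (d : ℝ))))) = 2 * 2 ^ d * R ^ (1 / (2 * (d : ℝ))) * R := by ring
        _ ≤ 1 * R := by gcongr
    linarith
  · -- n1
    calc κ * t ^ A * s ^ (d - 1) * Real.exp (-η) ≤ 1 * 1 * s ^ (d - 1) * 1 := by gcongr
      _ = s ^ (d - 1) := by ring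
      _ ≤ K₁ * R ^ (1 - e) := hsp
      _ = (K₁ / κ₂ * R ^ (3 / (4 * (d : ℝ)) - e)) * (κ₂ * R ^ (1 - 3 / (4 * (d : ℝ)))) := by
          have h1 : R ^ (1 - e) = R ^ (3 / (4 * (d : ℝ)) - e) * R ^ (1 - 3 / (4 * (d : ℝ))) := by
            rw [← Real.rpow_add hR]
            congr 1
            ring
          rw [h1]
          field_simp
      _ ≤ 1 * (κ₂ * R ^ (1 - 3 / (4 * (d : ℝ)))) := by
          have := Real.rpow_pos_of_pos hR (1 - 3 / (4 * (d : ℝ)))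
          gcongr
      _ = _ := one_mul _
  · -- n2
    rw [hΓ, ← hQd]
    apply one_div_le_one_div_of_le (by positivity)
    have h1 : t ^ (-A) ≤ R ^ (-e) := htm' A (by linarith) (by rw [hK₃]; linarith)
    have h2 : R ^ e ≤ t ^ (A + 1) := htm (A + 1) (by linarith) (by rw [hK₃]; linarith)
    rw [Real.rpow_add ht, Real.rpow_one] at h2
    have h3 : R ^ (-e) * R ^ e = 1 := by rw [← Real.rpow_add hR]; simp
    have h4 : as * K₁ * (8 * R ^ (1 / (d : ℝ))) ≤ κ * Q := by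
      rw [div_mul_eq_mul_div, div_le_one (by positivity)] at f5
      linarith
    calc as * K₁ * t ^ (-A) * s ≤ as * K₁ * R ^ (-e) * (R ^ (1 / (d : ℝ)) * R ^ e * R ^ e * R ^ e) := by
          gcongr
      _ ≤ as * K₁ * R ^ (-e) * (R ^ (1 / (d : ℝ)) * R ^ e * R ^ e * 1) := by gcongr
      _ = as * K₁ * (8 * R ^ (1 / (d : ℝ))) * (R ^ (-e) * R ^ e) * R ^ e / 8 := by ring
      _ = as * K₁ * (8 * R ^ (1 / (d : ℝ))) * R ^ e / 8 := by rw [h3, mul_one]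
      _ ≤ κ * Q * (t ^ A * t) / 8 := by gcongr
      _ = _ := by ring
  · -- n3
    rw [hΓ, ← hQd]
    have h1 : t ^ (-A) ≤ R ^ (-e) := htm' A (by linarith) (by rw [hK₃]; linarith)
    have h2 : (R ^ (1 / (d : ℝ))) ^ (a - 1) ≤ (R ^ (1 / (d : ℝ)))⁻¹ := by
      have h3 : (R ^ (1 / (d : ℝ)))⁻¹ = (R ^ (1 / (d : ℝ))) ^ (-1 : ℝ) := by
        rw [Real.rpow_neg_one]
      rw [h3]
      apply Real.rpow_le_rpow_of_exponent_ge hRd
      · exact Real.rpow_le_one hR.le hRlt1.le hinv.le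
      · have := hE.a0
        linarith
    have h4 : as * K₁ * R ^ (p - e) ≤ κ * Q := by
      rw [div_mul_eq_mul_div, div_le_one (by positivity)] at f6
      exact f6
    rw [div_le_div_iff₀ (by positivity) (by positivity), one_mul]
    calc (R ^ (1 / (d : ℝ))) ^ (a - 1) * (as * K₁ * t ^ (-A) * s)
        ≤ (R ^ (1 / (d : ℝ)))⁻¹ * (as * K₁ * R ^ (-e) * R ^ (1 / (d : ℝ) + p)) := by gcongr
      _ = as * K₁ * R ^ (p - e) := by
          rw [Real.rpow_add hR, Real.rpow_sub hR, Real.rpow_neg hR.le]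
          field_simp
      _ ≤ _ := h4
  · -- n4
    rw [← hQd]
    have h1 : (N R : ℝ) ≤ W * (1 + Real.log (1 / R)) := hN.le R hR hRr
    have h2 : 1 + Real.log (1 / R) ≤ (1 + 1 / e) * R ^ (-e) := by
      have h3 := Real.log_le_rpow_div (x := 1 / R) (by positivity) he0
      have h4 : (1 / R) ^ e = R ^ (-e) := by
        rw [one_div, Real.inv_rpow hR.le, Real.rpow_neg hR.le]
      rw [h4] at h3
      have h5 : 1 ≤ R ^ (-e) := Real.one_le_rpow_of_pos_of_le_one_of_nonpos hR hRlt1.le (by linarith)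
      have h6 : (1 + 1 / e) * R ^ (-e) = R ^ (-e) + R ^ (-e) / e := by ring
      rw [h6]
      linarith
    have h3 : (N R : ℝ) * R ^ e ≤ W * (1 + 1 / e) := by
      have h4 : R ^ (-e) * R ^ e = 1 := by rw [← Real.rpow_add hR]; simp
      calc (N R : ℝ) * R ^ e ≤ (W * ((1 + 1 / e) * R ^ (-e))) * R ^ e := by
            have : (N R : ℝ) ≤ W * ((1 + 1 / e) * R ^ (-e)) := h1.trans (by gcongr)
            gcongr
        _ = W * (1 + 1 / e) * (R ^ (-e) * R ^ e) := by ring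
        _ = _ := by rw [h4, mul_one]
    have h5 : t ^ (1 : ℝ) = t := Real.rpow_one t
    have h6 := htm 1 (by norm_num) (by rw [hK₃]; linarith)
    rw [h5] at h6
    have h7 : R ^ (1 / (2 * (d : ℝ))) ≤ R ^ e * R ^ e := by
      rw [← Real.rpow_add hR]
      apply Real.rpow_le_rpow_of_exponent_ge hR hRlt1.le
      rw [hinv2]
      linarith
    have h8 : 8 * (N R : ℝ) * s ^ d ≤ t := by
      calc 8 * (N R : ℝ) * s ^ d ≤ 8 * (N R : ℝ) * (R * (R ^ e * R ^ e)) := by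
            have : s ^ d ≤ R * (R ^ e * R ^ e) := hsd.trans (by gcongr)
            gcongr
        _ = 8 * ((N R : ℝ) * R ^ e) * R * R ^ e := by ring
        _ ≤ 8 * (W * (1 + 1 / e)) * R * R ^ e := by gcongr
        _ ≤ 1 * R ^ e := by gcongr
        _ ≤ t := by rw [one_mul]; exact h6
    rw [mul_one_div, div_le_div_iff₀ (by positivity) (by positivity), one_mul]
    calc (N R : ℝ) * (κ * t ^ A * s ^ (d - 1) * Real.exp (-η) * Q * s)
        = (κ * t ^ A * Q / 8) * (8 * (N R : ℝ) * (s ^ (d - 1) * s)) * Real.exp (-η) := by ring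
      _ ≤ (κ * t ^ A * Q / 8) * t * 1 := by
          rw [hsd']
          gcongr
      _ = _ := by ring
  · -- n5
    rw [← hQd]
    have h8 : R ^ (1 / (4 * (d : ℝ))) ≤ κ₂ * η := by
      rw [one_div_mul_eq_div, div_le_one (by positivity)] at f8
      exact f8
    have h1 : s ^ d ≤ κ₂ * η * (R ^ (1 - 3 / (4 * (d : ℝ))) * R ^ (1 / (d : ℝ))) := by
      have h2 : R * R ^ (1 / (2 * (d : ℝ))) =
          R ^ (1 / (4 * (d : ℝ))) * (R ^ (1 - 3 / (4 * (d : ℝ))) * R ^ (1 / (d : ℝ))) := by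
        rw [← Real.rpow_add hR, ← Real.rpow_add hR]
        nth_rewrite 1 [← Real.rpow_one R]
        rw [← Real.rpow_add hR]
        congr 1
        rw [hinv2, hinv4, hinv34]
        ring
      have h3 : 0 < R ^ (1 - 3 / (4 * (d : ℝ))) * R ^ (1 / (d : ℝ)) := by
        have := Real.rpow_pos_of_pos hR (1 - 3 / (4 * (d : ℝ)))
        positivity
      calc s ^ d ≤ R * R ^ (1 / (2 * (d : ℝ))) := hsd
        _ = R ^ (1 / (4 * (d : ℝ))) * (R ^ (1 - 3 / (4 * (d : ℝ))) * R ^ (1 / (d : ℝ))) := h2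
        _ ≤ _ := by gcongr
    have h4 := Real.rpow_pos_of_pos hR (1 - 3 / (4 * (d : ℝ)))
    rw [div_div, div_le_div_iff₀ (by positivity) (by positivity), one_mul, one_mul]
    calc κ * t ^ A * s ^ (d - 1) * Real.exp (-η) * Q * s
        = κ * t ^ A * Real.exp (-η) * Q * (s ^ (d - 1) * s) := by ring
      _ ≤ 1 * 1 * 1 * Q * (κ₂ * η * (R ^ (1 - 3 / (4 * (d : ℝ))) * R ^ (1 / (d : ℝ)))) := by
          rw [hsd']
          gcongr
      _ = _ := by ring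
  · -- n6
    have h1 : R ^ e ≤ t ^ As := htm As (by linarith) (by rw [hK₃]; linarith)
    have h2 : 768 * R ^ (1 / (d : ℝ)) ≤ b * as * κ := by
      rw [div_mul_eq_mul_div, div_le_one (by positivity)] at f9
      exact f9
    calc 768 * s ≤ 768 * (R ^ (1 / (d : ℝ)) * R ^ e * R ^ e * R ^ e) := by gcongr
      _ ≤ 768 * (R ^ (1 / (d : ℝ)) * R ^ e * 1 * 1) := by gcongr
      _ = 768 * R ^ (1 / (d : ℝ)) * R ^ e := by ring
      _ ≤ b * as * κ * t ^ As := by gcongr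
      _ = _ := by ring
  · rw [hΓ]
    calc G₀ ≤ as * K₁ * 1 := by linarith
      _ ≤ as * K₁ * t ^ (-A) := by gcongr
  · have h1 : t ^ As * t ^ A * t ^ (-K₂) = 1 := by
      rw [← Real.rpow_add ht, ← Real.rpow_add ht, hK₂]
      simp
    rw [hspow]
    calc L₀ ≤ b * as * κ * Real.exp (-η) * K₁ := hK₁L
      _ = b * as * κ * Real.exp (-η) * K₁ * (t ^ As * t ^ A * t ^ (-K₂)) := by rw [h1, mul_one]
      _ = _ := by field_simp

end Pool.Agent.KS6_34
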