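import Mathlib
import Pool.Agent.KS6_34.Comp3
import Pool.Agent.KS6_34.Num3

/-!
# Impressions and connected sets near a slow Collet-Eckmann parameter are small
-/

set_option autoImplicit false

open Set Filter Metric Topology

namespace Pool.Agent.KS6_34

open Pool.Agent.TH279.MD Pool.Agent.Y298.SH Pool.Agent.Y298.SH.CD
open Pool.Agent.N253.LS (Slow Semihyp meets_frontier impression_subset cluster_mem impr infq t_TRV
  t_SHAD)
open Pool.Agent.N253.LC (t_KOE t_CON)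
open Pool.Agent.H713R2 (IsExteriorMap)

variable {d : ℕ} {c₀ : ℂ} {N : ℝ → ℕ} {as b As W r₀ κ η a κ₂ A r₁ G₀ L₀ R t s ρ : ℝ}

/-- **Small impressions**, at one scale. -/
theorem imp3 (hN : Scale d c₀ N as b As W r₀) (hP : Pas d c₀ N r₀)
    (hE : Exd d c₀ κ η a κ₂ A r₁) (hd : 2 ≤ d)
    (hG : Gd d c₀ N as b As r₀ κ η a κ₂ A r₁ G₀ L₀ R t s) (hρ : 0 ≤ ρ) (hρR : 8 * ρ ≤ R)
    (hent : Entr d c₀ (N R) R s ρ) {ψ : ℂ → ℂ} (hψ : IsExteriorMap (N62a1eb23.multibrotSet d) ψ)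
    {ζ : ℂ} (hζ : ‖ζ‖ = 1) {c₁ : ℂ} (hc₁ : c₁ ∈ impr ψ ζ) (hc₁R : ‖c₁ - c₀‖ ≤ R / 2)
    {c : ℂ} (hc : c ∈ impr ψ ζ) : ‖c - c₁‖ ≤ 2 * ρ := by
  have hR := hG.R0
  have hcomp := Pool.Agent.H712R2.isCompact_multibrot hd
  by_cases hcase : ∃ x : ℂ, x ∈ impr ψ ζ ∧ ‖x - c₀‖ < R ∧ ∀ k : ℕ, 1 ≤ k → s ≤ ‖(f d x)^[k] 0‖
  · obtain ⟨x, hx1, hx2, hx3⟩ := hcase
    have hxM := cluster_mem hψ hζ hx1
    have hslow := (semi3 hN hP hE hd hG hxM hx2.le hx3).1.1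
    obtain ⟨R₄, hR₄, H4⟩ := infq t_SHAD d x hd hslow
    have hlim := t_TRV t_KOE (N62a1eb23.multibrotSet d) ψ x hcomp hψ hxM
      ⟨R₄, hR₄, fun R' h1 h2 => H4 ψ hψ R' h1 h2⟩ ζ hζ hx1
    have huniq : ∀ y : ℂ, y ∈ impr ψ ζ → y = x := by
      intro y hy
      have h5 : ClusterPt y (𝓝 x) := MapClusterPt.clusterPt hy |>.mono hlim
      exact eq_of_nhds_neBot h5
    rw [huniq c hc, huniq c₁ hc₁, sub_self, norm_zero]
    positivity
  · push Not at hcase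
    obtain ⟨W', hW⟩ : ∃ W' : Set ℂ, W' = Ent d c₀ R s := ⟨_, rfl⟩
    have hWo : IsOpen W' := by rw [hW]; exact ent_open hd c₀ R s
    have hc₁W : c₁ ∈ W' := by
      rw [hW]
      exact ⟨by linarith, hcase c₁ hc₁ (by linarith)⟩
    obtain ⟨V, hV⟩ : ∃ V : Set ℂ, V = connectedComponentIn W' c₁ := ⟨_, rfl⟩
    have hVo : IsOpen V := by rw [hV]; exact hWo.connectedComponentIn
    have hVc : IsPreconnected V := by rw [hV]; exact isPreconnected_connectedComponentIn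
    have hc₁V : c₁ ∈ V := by rw [hV]; exact mem_connectedComponentIn hc₁W
    have hVW : V ⊆ W' := by rw [hV]; exact connectedComponentIn_subset W' c₁
    have hVd : ∀ t ∈ V, ‖t - c₁‖ ≤ 2 * ρ := by
      intro t ht
      exact comp3 hP hd hG hρ hent hVc (by rw [← hW]; exact hVW) ht hc₁V
    have hVb : V ⊆ closedBall c₁ (2 * ρ) := by
      intro t ht
      rw [mem_closedBall, dist_eq_norm]
      exact hVd t ht
    have hfr : ∀ y ∈ frontier V, ¬ MapClusterPt y (𝓝[{w | 1 < ‖w‖}] ζ) ψ := by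
      intro y hy hcl
      have hyc : y ∈ closure V := frontier_subset_closure hy
      have hyb : y ∈ closedBall c₁ (2 * ρ) := closure_minimal hVb isClosed_closedBall hyc
      rw [mem_closedBall, dist_eq_norm] at hyb
      have hyR : ‖y - c₀‖ < R := by
        have := norm_add_le (y - c₁) (c₁ - c₀)
        rw [sub_add_sub_cancel] at this
        linarith
      have hyW : y ∈ W' := by
        rw [hW]
        exact ⟨hyR, hcase y hcl hyR⟩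
      have hyo : connectedComponentIn W' y ∈ 𝓝 y :=
        hWo.connectedComponentIn.mem_nhds (mem_connectedComponentIn hyW)
      obtain ⟨z, hz1, hz2⟩ := mem_closure_iff_nhds.mp hyc _ hyo
      have h6 : connectedComponentIn W' y = V := by
        rw [hV] at hz2 ⊢
        rw [connectedComponentIn_eq hz1, connectedComponentIn_eq hz2]
      have h7 : y ∈ V := by
        rw [← h6]
        exact mem_connectedComponentIn hyW
      rw [hVo.frontier_eq] at hy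
      exact hy.2 h7
    have hcV := impression_subset hψ.diff.continuousOn hζ hVo
      (Metric.isBounded_closedBall.subset hVb) hc₁V hc₁ hfr hc
    exact hVd c hcV

/-- **The main theorem**: all scales. -/
theorem main3 (hd : 2 ≤ d) (hSl : Slow d c₀) :
    ∃ K₀ : ℕ, ∀ K : ℕ, K₀ ≤ K → ∃ R₀ : ℝ, 0 < R₀ ∧ ∀ R : ℝ, 0 < R → R ≤ R₀ →
    ∀ t : ℝ, 0 < t → t ≤ 1 → (∀ j : ℕ, (j : ℝ) ≤ K * Real.log (1 / R) → t ≤ ‖zz d c₀ j‖) →
    ∃ s : ℝ, 0 < s ∧ s ^ d < R ∧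
    (∀ ψ : ℂ → ℂ, IsExteriorMap (N62a1eb23.multibrotSet d) ψ → ∀ ζ : ℂ, ‖ζ‖ = 1 →
      ∀ c₁ ∈ impr ψ ζ, ‖c₁ - c₀‖ ≤ 2 * R → ∀ c ∈ impr ψ ζ,
        ‖c - c₁‖ ≤ K * R ^ ((d : ℝ) / (d - 1)) / t ^ K / 4) ∧
    (∀ Γ : Set ℂ, IsPreconnected Γ →
      (∀ x ∈ Γ, ‖x - c₀‖ < 4 * R → ∃ k : ℕ, 1 ≤ k ∧ ‖(f d x)^[k] 0‖ < s) →
      ∀ c₁ ∈ Γ, ‖c₁ - c₀‖ ≤ 2 * R → ∀ c ∈ Γ, ‖c - c₁‖ ≤ K * R ^ ((d : ℝ) / (d - 1)) / t ^ K / 4) ∧
    ∀ x ∈ N62a1eb23.multibrotSet d, ‖x - c₀‖ ≤ 4 * R → (∀ k : ℕ, 1 ≤ k → s ≤ ‖(f d x)^[k] 0‖) →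
      Semihyp d x ∧ x ∉ interior (N62a1eb23.multibrotSet d) := by
  have hdR : (2 : ℝ) ≤ d := by exact_mod_cast hd
  have hd0 : (0 : ℝ) < d := by linarith
  have hd1 : (0 : ℝ) < (d : ℝ) - 1 := by linarith
  obtain ⟨N, as, b, As, W, r₀, hN, hP⟩ := exists_scale2 hd hSl
  obtain ⟨κ, η, a, κ₂, A, r₁, hE⟩ := exists_exd hd hSl
  obtain ⟨G₀, L₀, hG0, hL0, hG1, hentry⟩ := entry hN hP hE hd
  obtain ⟨K₁, K₂, ε, R₂, hK₁, hK₂, hε, hR₂, hR₂1, hεK, hgd⟩ := exists_gd (L₀ := L₀) hN hE hd hG1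
  obtain ⟨R₃, hR₃, hR₃r, hR₃1, hrl⟩ := rec_low hSl hN hε
  have has := hN.a0
  have hb := hN.b0
  have hκ := hE.κ0
  have hW := hN.W1
  have hAs := hN.A1
  obtain ⟨C, hC⟩ : ∃ C : ℝ, C = 12288 * K₁ / (b * as * κ) := ⟨_, rfl⟩
  have hC0 : 0 < C := by rw [hC]; positivity
  obtain ⟨K₀, hK₀⟩ := exists_nat_ge (max (2 * W) (max C (As + K₂)))
  refine ⟨K₀, fun K hK => ?_⟩
  have hKR : (K₀ : ℝ) ≤ K := by exact_mod_cast hK
  have hKW : 2 * W ≤ K := (le_max_left _ _).trans (hK₀.trans hKR)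
  have hKC : C ≤ K := (le_max_left _ _).trans ((le_max_right _ _).trans (hK₀.trans hKR))
  have hKA : As + K₂ ≤ K := (le_max_right _ _).trans ((le_max_right _ _).trans (hK₀.trans hKR))
  refine ⟨min (min (R₂ / 4) (R₃ / 4)) (Real.exp (-1)), by
    have := Real.exp_pos (-1)
    positivity, ?_⟩
  intro R hR hRR t' ht' ht'1 hrec'
  have hRa : 4 * R ≤ R₂ := by
    have := hRR.trans ((min_le_left _ _).trans (min_le_left _ _))
    linarith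
  have hRb : 4 * R ≤ R₃ := by
    have := hRR.trans ((min_le_left _ _).trans (min_le_right _ _))
    linarith
  have hRc : R ≤ Real.exp (-1) := hRR.trans (min_le_right _ _)
  have h4R : 0 < 4 * R := by linarith
  have h4R1 : 4 * R < 1 := hRa.trans_lt hR₂1
  have hlog : 1 ≤ Real.log (1 / R) := by
    rw [one_div, Real.log_inv]
    have := Real.log_le_log hR hRc
    rw [Real.log_exp] at this
    linarith
  -- the recurrence
  obtain ⟨t, ht⟩ : ∃ t : ℝ, t = max t' ((4 * R) ^ ε) := ⟨_, rfl⟩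
  have htt' : t' ≤ t := by rw [ht]; exact le_max_left _ _
  have htR : (4 * R) ^ ε ≤ t := by rw [ht]; exact le_max_right _ _
  have ht0 : 0 < t := ht'.trans_le htt'
  have ht1 : t ≤ 1 := by
    rw [ht]
    exact max_le ht'1 (Real.rpow_le_one h4R.le h4R1.le hε.le)
  have hrec : ∀ j ≤ N (4 * R), t ≤ ‖zz d c₀ j‖ := by
    intro j hj
    rw [ht]
    refine max_le (hrec' j ?_) (hrl (4 * R) h4R hRb j hj)
    have h1 := hN.le (4 * R) h4R (hRb.trans hR₃r)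
    have h2 : (j : ℝ) ≤ N (4 * R) := by exact_mod_cast hj
    have h3 : Real.log (1 / (4 * R)) ≤ Real.log (1 / R) := by
      apply Real.log_le_log (by positivity)
      apply one_div_le_one_div_of_le hR
      linarith
    calc (j : ℝ) ≤ W * (1 + Real.log (1 / (4 * R))) := h2.trans h1
      _ ≤ W * (Real.log (1 / R) + Real.log (1 / R)) := by gcongr
      _ = 2 * W * Real.log (1 / R) := by ring
      _ ≤ K * Real.log (1 / R) := by gcongr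
  have hG := hgd (4 * R) h4R hRa t htR ht1 hrec
  obtain ⟨s, hs⟩ : ∃ s, s = crit d K₁ K₂ (4 * R) t := ⟨_, rfl⟩
  rw [← hs] at hG
  have hs0 := hG.s0
  have htAs : 0 < t ^ As := Real.rpow_pos_of_pos ht0 _
  obtain ⟨ρ, hρ⟩ : ∃ ρ, ρ = 96 * s / (b * as * t ^ As / (4 * R) * κ) := ⟨_, rfl⟩
  have hρ0 : 0 < ρ := by rw [hρ]; positivity
  have hent : Entr d c₀ (N (4 * R)) (4 * R) s ρ := by
    rw [hρ]
    exact hentry (4 * R) t s hG
  have hρR : 8 * ρ ≤ 4 * R := by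
    have h1 := hG.n6
    have h2 : ρ = 96 * s * (4 * R) / (b * as * t ^ As * κ) := by
      rw [hρ]; field_simp
    rw [h2, ← mul_div_assoc, div_le_iff₀ (by positivity)]
    nlinarith
  have hfin : 2 * ρ ≤ K * R ^ ((d : ℝ) / (d - 1)) / t' ^ K / 4 := by
    have hp0 : 0 ≤ 1 / ((d : ℝ) - 1) := by positivity
    have hp1 : 1 / ((d : ℝ) - 1) ≤ 1 := by
      rw [div_le_one hd1]
      linarith
    have h1 : s ≤ 4 * K₁ * (R ^ (1 / ((d : ℝ) - 1)) * t ^ (-K₂)) := by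
      have htK : 0 < t ^ (-K₂) := Real.rpow_pos_of_pos ht0 _
      have htK1 : 1 ≤ t ^ (-K₂) := Real.one_le_rpow_of_pos_of_le_one_of_nonpos ht0 ht1 (by linarith)
      rw [hs]
      unfold crit
      have e1 : K₁ * (4 * R) * t ^ (-K₂) = (4 * K₁ * t ^ (-K₂)) * R := by ring
      rw [e1, Real.mul_rpow (by positivity) hR.le]
      have h2 : (4 * K₁ * t ^ (-K₂)) ^ (1 / ((d : ℝ) - 1)) ≤ 4 * K₁ * t ^ (-K₂) := by
        have h3 : 1 ≤ 4 * K₁ * t ^ (-K₂) := by nlinarith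
        calc (4 * K₁ * t ^ (-K₂)) ^ (1 / ((d : ℝ) - 1)) ≤ (4 * K₁ * t ^ (-K₂)) ^ (1 : ℝ) :=
              Real.rpow_le_rpow_of_exponent_le h3 hp1
          _ = _ := Real.rpow_one _
      have h4 : 0 < R ^ (1 / ((d : ℝ) - 1)) := Real.rpow_pos_of_pos hR _
      calc (4 * K₁ * t ^ (-K₂)) ^ (1 / ((d : ℝ) - 1)) * R ^ (1 / ((d : ℝ) - 1))
          ≤ 4 * K₁ * t ^ (-K₂) * R ^ (1 / ((d : ℝ) - 1)) := by gcongr
        _ = _ := by ring
    have h2 : R ^ ((d : ℝ) / (d - 1)) = R * R ^ (1 / ((d : ℝ) - 1)) := by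
      have h3 : (d : ℝ) / (d - 1) = 1 + 1 / (d - 1) := by field_simp; ring
      rw [h3, Real.rpow_add hR, Real.rpow_one]
    have h3 : t ^ (-K₂) / t ^ As ≤ 1 / t' ^ K := by
      have h4 : t ^ (-K₂) / t ^ As = t ^ (-(As + K₂)) := by
        rw [← Real.rpow_sub ht0]
        congr 1
        ring
      have h5 : 1 / t' ^ K = t' ^ (-(K : ℝ)) := by
        rw [Real.rpow_neg ht'.le, Real.rpow_natCast, one_div]
      rw [h4, h5]
      calc t ^ (-(As + K₂)) ≤ t ^ (-(K : ℝ)) :=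
            Real.rpow_le_rpow_of_exponent_ge ht0 ht1 (by linarith)
        _ ≤ t' ^ (-(K : ℝ)) := Real.rpow_le_rpow_of_nonpos ht' htt' (by
            have : (0 : ℝ) ≤ K := Nat.cast_nonneg _
            linarith)
    have hRp : 0 < R ^ (1 / ((d : ℝ) - 1)) := Real.rpow_pos_of_pos hR _
    have htK : 0 < t' ^ K := by positivity
    calc 2 * ρ = 768 / (b * as * κ) * R * (s / t ^ As) := by
          rw [hρ]; field_simp; ring
      _ ≤ 768 / (b * as * κ) * R * ((4 * K₁ * (R ^ (1 / ((d : ℝ) - 1)) * t ^ (-K₂))) / t ^ As) := by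
          gcongr
      _ = C / 4 * (R * R ^ (1 / ((d : ℝ) - 1))) * (t ^ (-K₂) / t ^ As) := by
          rw [hC]; field_simp; ring
      _ ≤ K / 4 * (R * R ^ (1 / ((d : ℝ) - 1))) * (1 / t' ^ K) := by gcongr
      _ = _ := by rw [h2]; ring
  refine ⟨s, hs0, ?_, ?_, ?_, ?_⟩
  · have h1 := hG.sd
    have h2 : s ^ d * 4 ≤ (2 * s) ^ d := by
      rw [mul_pow]
      have : (2 : ℝ) ^ 2 ≤ 2 ^ d := pow_le_pow_right₀ (by norm_num) hd
      have h3 : 0 < s ^ d := by positivity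
      nlinarith
    linarith
  · intro ψ hψ ζ hζ c₁ hc₁ hc₁R c hc
    exact (imp3 hN hP hE hd hG hρ0.le hρR hent hψ hζ hc₁ (by linarith) hc).trans hfin
  · intro Γ hΓ hin c₁ hc₁ hc₁R c hc
    exact (conn3 hP hd hG hρ0.le hρR hent hΓ hin hc₁ (by linarith) hc).trans hfin
  · intro x hx hxR hfar
    exact semi3 hN hP hE hd hG hx hxR hfar

/-- **Connected sets of parameters which are interior or not semihyperbolic.** -/
theorem sets3 (hd : 2 ≤ d) (hSl : Slow d c₀) :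
    ∃ K₀ : ℕ, ∀ K : ℕ, K₀ ≤ K → ∃ R₀ : ℝ, 0 < R₀ ∧ ∀ R : ℝ, 0 < R → R ≤ R₀ →
    ∀ t : ℝ, 0 < t → t ≤ 1 → (∀ j : ℕ, (j : ℝ) ≤ K * Real.log (1 / R) → t ≤ ‖zz d c₀ j‖) →
    (∀ ψ : ℂ → ℂ, IsExteriorMap (N62a1eb23.multibrotSet d) ψ → ∀ ζ : ℂ, ‖ζ‖ = 1 →
      ∀ c₁ ∈ impr ψ ζ, ‖c₁ - c₀‖ ≤ 2 * R → ∀ c ∈ impr ψ ζ,
        ‖c - c₁‖ ≤ K * R ^ ((d : ℝ) / (d - 1)) / t ^ K / 4) ∧
    (∀ Γ : Set ℂ, IsPreconnected Γ →
      (∀ x ∈ Γ, ‖x - c₀‖ < 4 * R → x ∈ N62a1eb23.multibrotSet d ∧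
        (x ∈ interior (N62a1eb23.multibrotSet d) ∨ ¬ Semihyp d x)) →
      ∀ c₁ ∈ Γ, ‖c₁ - c₀‖ ≤ 2 * R → ∀ c ∈ Γ, ‖c - c₁‖ ≤ K * R ^ ((d : ℝ) / (d - 1)) / t ^ K / 4) ∧
    ∃ δ : ℝ, 0 < δ ∧ ∀ c ∈ N62a1eb23.multibrotSet d, ‖c - c₀‖ ≤ R →
      ∀ c' ∈ N62a1eb23.multibrotSet d, ‖c' - c‖ ≤ δ → ∃ S : Set ℂ,
        S ⊆ N62a1eb23.multibrotSet d ∧ IsCompact S ∧ IsConnected S ∧ c ∈ S ∧ c' ∈ S ∧
        S ⊆ closedBall c (K * R ^ ((d : ℝ) / (d - 1)) / t ^ K) := by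
  obtain ⟨K₀, H⟩ := main3 hd hSl
  refine ⟨max K₀ 1, fun K hK => ?_⟩
  obtain ⟨R₀, hR₀, H⟩ := H K ((le_max_left _ _).trans hK)
  have hK1 : (1 : ℝ) ≤ K := by exact_mod_cast (le_max_right _ _).trans hK
  refine ⟨R₀, hR₀, fun R hR hRR t ht ht1 hrec => ?_⟩
  obtain ⟨s, hs, -, h1, h2, h3⟩ := H R hR hRR t ht ht1 hrec
  refine ⟨h1, ?_, ?_⟩
  · intro Γ hΓ hin c₁ hc₁ hc₁R c hc
    refine h2 Γ hΓ (fun x hx hxR => ?_) c₁ hc₁ hc₁R c hc
    by_contra hcon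
    push Not at hcon
    obtain ⟨hxM, hor⟩ := hin x hx hxR
    obtain ⟨h4, h5⟩ := h3 x hxM hxR.le hcon
    rcases hor with hi | hs
    · exact h5 hi
    · exact hs h4
  · obtain ⟨β, hβ⟩ := Pool.Agent.H713R2.exists_beta (d := d) hd
    have hψ := Pool.Agent.H713R2.exteriorMap_of_beta hβ
    have hρ : 0 < K * R ^ ((d : ℝ) / (d - 1)) / t ^ K := by
      have := Real.rpow_pos_of_pos hR ((d : ℝ) / (d - 1))
      positivity
    obtain ⟨δ, hδ, H2⟩ := Pool.Agent.N253.LS.coarse (M := N62a1eb23.multibrotSet d) (c₀ := c₀)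
      (R := 4 * R) (ρ := K * R ^ ((d : ℝ) / (d - 1)) / t ^ K / 4) t_CON
      (Pool.Agent.H712R2.isCompact_multibrot hd) hψ (by positivity) (by positivity)
      (fun ζ hζ c₁ hc₁ hcR c hc => h1 _ hψ ζ hζ c₁ hc₁ (by linarith) c hc)
    refine ⟨δ, hδ, fun c hc hcR c' hc' hcc => ?_⟩
    obtain ⟨S, s1, s2, s3, s4, s5, s6⟩ := H2 c hc (by linarith) c' hc' hcc
    exact ⟨S, s1, s2, s3, s4, s5, s6.trans (closedBall_subset_closedBall (by linarith))⟩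

end Pool.Agent.KS6_34
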