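import Mathlib
import Pool.Agent.KS6_34.Two

/-!
# The modulus of local connectivity at a slow Collet-Eckmann parameter
-/

set_option autoImplicit false

open Set Filter Metric Topology

namespace Pool.Agent.KS6_34

open Pool.Agent.TH279.MD Pool.Agent.Y298.SH Pool.Agent.Y298.SH.CD Pool.Agent.Y298.CA
open Pool.Agent.H713R2 (IsExteriorMap IsGm)
open Pool.Agent.H712R2 (P P_lt_of_gt)
open Pool.Agent.N253 (SM.small_pow)
open Pool.Agent.N253.LC (norm_exp_mul gm_point)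
open Pool.Agent.N253.LS (Slow)

variable {d : ℕ} {c₀ : ℂ} {N : ℝ → ℕ} {a b A W r₀ : ℝ}

/-- **Two points of an external ray of the Multibrot set**, with the recurrence. -/
theorem two_inf (hd : 2 ≤ d) (hSl : Slow d c₀) (hN : Scale d c₀ N a b A W r₀) :
    ∃ q p R₀ : ℝ, 0 < q ∧ q ≤ 1 ∧ 0 < p ∧ 0 < R₀ ∧ R₀ ≤ r₀ ∧ ∀ ψ : ℂ → ℂ,
    IsExteriorMap (N62a1eb23.multibrotSet d) ψ → ∀ R : ℝ, 0 < R → R ≤ R₀ →
    ∀ t : ℝ, 0 < t → t ≤ 1 → (∀ j ≤ N R, t ≤ ‖zz d c₀ j‖) →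
    ∀ u : ℂ, ‖u‖ = 1 → ∀ t₁ t₂ : ℝ, 0 < t₁ → 0 < t₂ → ‖ψ (Real.exp t₁ * u) - c₀‖ ≤ R →
    ‖ψ (Real.exp t₂ * u) - c₀‖ ≤ R → R / 4 ≤ ‖ψ (Real.exp t₁ * u) - ψ (Real.exp t₂ * u)‖ →
    q * t ^ p / (d : ℝ) ^ (N R) ≤ max t₁ t₂ := by
  have hdR : (2 : ℝ) ≤ d := by exact_mod_cast hd
  obtain ⟨q, p, R₁, hq, hq1, hp, hR₁, hR₁r, HT⟩ := two_fin hd hSl hN
  obtain ⟨g, hg, hlim⟩ := Pool.Agent.N253.LC.t_LIM d hd
  refine ⟨q, p, R₁ / 2, hq, hq1, hp, by positivity, by linarith, ?_⟩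
  intro ψ hψ R hR hRa t ht ht1 hrec u hu t₁ t₂ ht₁ ht₂ h1 h2 h12
  have hNN : N (3 / 2 * R) ≤ N R := hN.mono R (3 / 2 * R) hR (by linarith)
  obtain ⟨m₀, HT'⟩ := HT (3 / 2 * R) (by linarith) (by linarith) t ht ht1
    (fun j hj => hrec j (hj.trans hNN))
  have hpow : Tendsto (fun m : ℕ => (d : ℝ) ^ m) (hyperfilter ℕ : Filter ℕ) atTop :=
    (tendsto_pow_atTop_atTop_of_one_lt (by linarith)).mono_left Nat.hyperfilter_le_atTop
  have hge : ∀ m₀ : ℕ, ∀ᶠ m in (hyperfilter ℕ : Filter ℕ), m₀ ≤ m := fun m₀ =>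
    Nat.hyperfilter_le_atTop (eventually_ge_atTop m₀)
  have hfour : ∀ t : ℝ, 0 < t → ∀ᶠ m in (hyperfilter ℕ : Filter ℕ),
      4 ≤ Real.exp ((d : ℝ) ^ m * t) := by
    intro t ht
    have h1 : Tendsto (fun m : ℕ => Real.exp ((d : ℝ) ^ m * t)) (hyperfilter ℕ : Filter ℕ) atTop :=
      Real.tendsto_exp_atTop.comp (hpow.atTop_mul_const ht)
    exact h1.eventually_ge_atTop 4
  have hgt : ∀ t : ℝ, 0 < t → 1 < ‖(Real.exp t : ℂ) * u‖ := by
    intro t ht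
    rw [norm_exp_mul t hu]
    exact Real.one_lt_exp_iff.mpr ht
  have l1 := hlim ψ hψ _ (hgt t₁ ht₁)
  have l2 := hlim ψ hψ _ (hgt t₂ ht₂)
  have e1 := (l1.sub_const c₀).norm.eventually_lt_const (u := 3 / 2 * R) (by linarith)
  have e2 := (l2.sub_const c₀).norm.eventually_lt_const (u := 3 / 2 * R) (by linarith)
  have e3 := (l1.sub l2).norm.eventually_const_lt (u := 3 / 2 * R / 8) (by linarith)
  obtain ⟨m, hm⟩ := (e1.and (e2.and (e3.and ((hge m₀).and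
    ((hfour t₁ ht₁).and (hfour t₂ ht₂)))))).exists
  obtain ⟨hm1, hm2, hm3, hm4, hm5, hm6⟩ := hm
  refine le_trans ?_ (HT' m hm4 (g m) u (hg m) hu t₁ t₂ hm5 hm6 hm1.le hm2.le hm3.le)
  have htp : 0 < t ^ p := Real.rpow_pos_of_pos ht _
  have h3 : (d : ℝ) ^ N (3 / 2 * R) ≤ (d : ℝ) ^ N R := pow_le_pow_right₀ (by linarith) hNN
  exact div_le_div_of_nonneg_left (by positivity) (by positivity) h3

/-- The level near `c₀`. -/
theorem level_up (hd : 2 ≤ d) (hN : Scale d c₀ N a b A W r₀) {ψ : ℂ → ℂ}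
    (hψ : IsExteriorMap (N62a1eb23.multibrotSet d) ψ) {r : ℝ} (hr : 0 < r) (hr2 : 2 * r ≤ r₀)
    {u : ℂ} (hu : ‖u‖ = 1) {t : ℝ} (ht : 0 < t) (hψt : ‖ψ (Real.exp t * u) - c₀‖ ≤ r) :
    (d : ℝ) ^ (N (2 * r)) * t ≤ 2 := by
  have hdR : (2 : ℝ) ≤ d := by exact_mod_cast hd
  have hd0 : (0 : ℝ) < d := by linarith
  obtain ⟨g, hg, hlim⟩ := Pool.Agent.N253.LC.t_LIM d hd
  have hpow : Tendsto (fun m : ℕ => (d : ℝ) ^ m) (hyperfilter ℕ : Filter ℕ) atTop :=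
    (tendsto_pow_atTop_atTop_of_one_lt (by linarith)).mono_left Nat.hyperfilter_le_atTop
  have hge : ∀ m₀ : ℕ, ∀ᶠ m in (hyperfilter ℕ : Filter ℕ), m₀ ≤ m := fun m₀ =>
    Nat.hyperfilter_le_atTop (eventually_ge_atTop m₀)
  have hfour : ∀ t : ℝ, 0 < t → ∀ᶠ m in (hyperfilter ℕ : Filter ℕ),
      4 ≤ Real.exp ((d : ℝ) ^ m * t) := by
    intro t ht
    have h1 : Tendsto (fun m : ℕ => Real.exp ((d : ℝ) ^ m * t)) (hyperfilter ℕ : Filter ℕ) atTop :=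
      Real.tendsto_exp_atTop.comp (hpow.atTop_mul_const ht)
    exact h1.eventually_ge_atTop 4
  have hgt : ∀ t : ℝ, 0 < t → 1 < ‖(Real.exp t : ℂ) * u‖ := by
    intro t ht
    rw [norm_exp_mul t hu]
    exact Real.one_lt_exp_iff.mpr ht
  have h1 := hlim ψ hψ _ (hgt t ht)
  have h2 : ∀ᶠ m in (hyperfilter ℕ : Filter ℕ),
      ‖(Real.exp t : ℂ) * u * g m ((Real.exp t : ℂ) * u)⁻¹ - c₀‖ < 2 * r := by
    have h3 := (h1.sub_const c₀).norm
    exact h3.eventually_lt_const (by linarith)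
  obtain ⟨n, hn⟩ : ∃ n, n = N (2 * r) := ⟨_, rfl⟩
  rw [← hn]
  obtain ⟨m, hm⟩ := (h2.and ((hge n).and (hfour t ht))).exists
  obtain ⟨hm1, hm2, hm3⟩ := hm
  obtain ⟨c, hc⟩ : ∃ c : ℂ, c = (Real.exp t : ℂ) * u * g m ((Real.exp t : ℂ) * u)⁻¹ := ⟨_, rfl⟩
  rw [← hc] at hm1
  have h4 : ∀ j ≤ n, ‖(f d c)^[j] c‖ ≤ 3 := fun j hj =>
    hN.stay (2 * r) (by linarith) hr2 c c hm1.le (by simp; linarith) j (by rw [← hn]; exact hj)
  have h5 : ‖P d (n + 1) c‖ ≤ 3 := by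
    rw [P_succ_eq hd]
    exact h4 n le_rfl
  have h6 : ‖c‖ ≤ 3 := h4 0 (Nat.zero_le _)
  have h7 := Pool.Agent.H713R2.up_growth hd (by norm_num : (2 : ℝ) ≤ 3) h6 h5 (m - n)
  rw [show n + 1 + (m - n) = m + 1 by omega] at h7
  have h8 := (gm_point hd (hg m) hu hm3).2
  rw [← hc] at h8
  rw [h8, norm_pow, norm_exp_mul t hu, ← Real.exp_nat_mul] at h7
  have h9 : Real.exp (((d ^ m : ℕ) : ℝ) * t) ≤ Real.exp (((d ^ (m - n) : ℕ) : ℝ) * 2) := by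
    refine h7.trans ((sub_le_self _ zero_le_one).trans ?_)
    rw [Real.exp_nat_mul]
    have h10 : (3 : ℝ) + 1 ≤ Real.exp 2 := by
      have h5 : Real.exp 2 = Real.exp 1 * Real.exp 1 := by rw [← Real.exp_add]; norm_num
      nlinarith [Real.exp_one_gt_d9]
    exact pow_le_pow_left₀ (by norm_num) h10 _
  rw [Real.exp_le_exp] at h9
  push_cast at h9
  have hdm : (d : ℝ) ^ m = (d : ℝ) ^ (m - n) * (d : ℝ) ^ n := by
    rw [← pow_add]; congr 1; omega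
  have hpos : (0 : ℝ) < (d : ℝ) ^ (m - n) := by positivity
  rw [hdm, mul_assoc] at h9
  exact le_of_mul_le_mul_left h9 hpos

/-- The numbers for the next theorem. -/
theorem choose_K (hd : 2 ≤ d) {q p : ℝ} (hq : 0 < q) (hp : 0 < p) :
    ∃ K₀ : ℕ, ∀ K : ℕ, K₀ ≤ K → ∀ (t : ℝ) (k : ℕ), 0 < t → t ≤ 1 →
      (K : ℝ) * t ≤ 6 * LL d ^ (k + 2) * t ^ K → 2 < q * t ^ p * (d : ℝ) ^ k := by
  have hdR : (2 : ℝ) ≤ d := by exact_mod_cast hd
  have hd0 : (0 : ℝ) < d := by linarith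
  have hL2 := LL_two hd
  obtain ⟨L, hL⟩ : ∃ L, L = LL d := ⟨_, rfl⟩
  rw [← hL] at hL2
  have hL0 : 0 < L := by linarith
  have hlogd : 0 < Real.log d := Real.log_pos (by linarith)
  have hlogL : 0 < Real.log L := Real.log_pos (by linarith)
  obtain ⟨α, hα⟩ : ∃ α : ℝ, α = Real.log d / Real.log L := ⟨_, rfl⟩
  have hα0 : 0 < α := by rw [hα]; positivity
  have hαL : α * Real.log L = Real.log d := by rw [hα]; field_simp
  obtain ⟨K₀, hK₀⟩ := exists_nat_gt (max (1 + p / α) (6 * L ^ 2 * (2 / q) ^ (1 / α)))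
  refine ⟨K₀ + 1, fun K hK t k ht ht1 hKt => ?_⟩
  have hKR : (K₀ : ℝ) ≤ K := by exact_mod_cast (by omega : K₀ ≤ K)
  have hK1 : 1 + p / α < K := lt_of_le_of_lt (le_max_left _ _) (hK₀.trans_le hKR)
  have hK2 : 6 * L ^ 2 * (2 / q) ^ (1 / α) < K :=
    lt_of_le_of_lt (le_max_right _ _) (hK₀.trans_le hKR)
  obtain ⟨K', hK'⟩ : ∃ K', K = K' + 1 := ⟨K - 1, by omega⟩
  have hK'p : p ≤ α * K' := by
    rw [hK'] at hK1
    push_cast at hK1
    have h1 : p / α < K' := by linarith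
    rw [div_lt_iff₀ hα0] at h1
    linarith
  rw [← hL] at hKt
  have h1 : (K : ℝ) ≤ 6 * L ^ (k + 2) * t ^ K' := by
    have h2 : (K : ℝ) * t ≤ (6 * L ^ (k + 2) * t ^ K') * t := by
      calc (K : ℝ) * t ≤ 6 * L ^ (k + 2) * t ^ K := hKt
        _ = _ := by rw [hK', pow_succ]; ring
    exact le_of_mul_le_mul_right h2 ht
  have h2 : (2 / q) ^ (1 / α) < L ^ k * t ^ K' := by
    have h3 : 6 * L ^ 2 * (2 / q) ^ (1 / α) < 6 * L ^ 2 * (L ^ k * t ^ K') := by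
      calc 6 * L ^ 2 * (2 / q) ^ (1 / α) < K := hK2
        _ ≤ 6 * L ^ (k + 2) * t ^ K' := h1
        _ = _ := by rw [pow_add]; ring
    exact lt_of_mul_lt_mul_left h3 (by positivity)
  have h3 : 2 / q < (d : ℝ) ^ k * t ^ (α * K') := by
    have h4 : ((2 / q) ^ (1 / α)) ^ α < (L ^ k * t ^ K') ^ α :=
      Real.rpow_lt_rpow (by positivity) h2 hα0
    rw [← Real.rpow_mul (by positivity), one_div, inv_mul_cancel₀ hα0.ne', Real.rpow_one,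
      Real.mul_rpow (by positivity) (by positivity)] at h4
    have h5 : (L ^ k) ^ α = (d : ℝ) ^ k := by
      rw [← Real.rpow_natCast, ← Real.rpow_natCast, ← Real.rpow_mul hL0.le,
        Real.rpow_def_of_pos hd0, Real.rpow_def_of_pos hL0, ← hαL]
      congr 1
      ring
    have h6 : (t ^ K') ^ α = t ^ (α * K') := by
      rw [← Real.rpow_natCast, ← Real.rpow_mul ht.le, mul_comm]
    rwa [h5, h6] at h4
  have h4 : t ^ (α * K') ≤ t ^ p := Real.rpow_le_rpow_of_exponent_ge ht ht1 hK'p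
  have hdk : (0 : ℝ) < (d : ℝ) ^ k := by positivity
  have h5 : 2 / q < (d : ℝ) ^ k * t ^ p := h3.trans_le (by gcongr)
  rw [div_lt_iff₀ hq] at h5
  linarith

theorem cont_ray {M : Set ℂ} {ψ : ℂ → ℂ} (h : IsExteriorMap M ψ) (c₀ : ℂ) {u : ℂ} (hu : ‖u‖ = 1)
    {a b : ℝ} (ha : 0 < a) : ContinuousOn (fun t : ℝ => ‖ψ (Real.exp t * u) - c₀‖) (Icc a b) := by
  have h1 : ContinuousOn (fun t : ℝ => ψ (Real.exp t * u)) (Icc a b) := by
    refine h.diff.continuousOn.comp (by fun_prop) ?_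
    intro t ht
    show 1 < ‖(Real.exp t : ℂ) * u‖
    rw [norm_exp_mul t hu]
    exact Real.one_lt_exp_iff.mpr (ha.trans_le ht.1)
  exact (h1.sub continuousOn_const).norm

/-- **A ray which comes near `c₀` stays near `c₀`.** -/
theorem stay (hd : 2 ≤ d) (hSl : Slow d c₀) (hN : Scale d c₀ N a b A W r₀) :
    ∃ K₀ : ℕ, ∀ K : ℕ, K₀ ≤ K → ∃ r₁ : ℝ, 0 < r₁ ∧ ∀ ψ : ℂ → ℂ,
    IsExteriorMap (N62a1eb23.multibrotSet d) ψ → ∀ r : ℝ, 0 < r → r ≤ r₁ →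
    ∀ t : ℝ, 0 < t → t ≤ 1 → (∀ j ≤ N r, t ≤ ‖zz d c₀ j‖) →
    ∀ u : ℂ, ‖u‖ = 1 → ∀ b : ℝ, 0 < b → ‖ψ (Real.exp b * u) - c₀‖ ≤ r →
    ∀ s : ℝ, 0 < s → s ≤ b → ‖ψ (Real.exp s * u) - c₀‖ ≤ K * r / t ^ K := by
  have hdR : (2 : ℝ) ≤ d := by exact_mod_cast hd
  have hd0 : (0 : ℝ) < d := by linarith
  obtain ⟨q, p, R₀, hq, hq1, hp, hR₀, hR₀r, H⟩ := two_inf hd hSl hN
  obtain ⟨K₀, HK⟩ := choose_K hd hq hp
  refine ⟨K₀ + 4, fun K hK => ?_⟩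
  have hKK : K₀ ≤ K := by omega
  have hK4 : (4 : ℝ) ≤ K := by exact_mod_cast (by omega : 4 ≤ K)
  obtain ⟨ε, hε⟩ : ∃ ε : ℝ, ε = 1 / (2 * K) := ⟨_, rfl⟩
  have hε0 : 0 < ε := by rw [hε]; positivity
  obtain ⟨R₁, hR₁, hR₁r, hR₁1, HR₁⟩ := rec_low hSl hN hε0
  obtain ⟨s₁, hs₁, hs₁1, Q1⟩ := SM.small_pow (K / R₀) (1 / 2) (by norm_num)
  refine ⟨min (r₀ / 2) (min R₁ s₁), by
    have := hN.r0
    positivity, ?_⟩
  intro ψ hψ r hr hrr t' ht' ht'1 hrec' u hu b hb hψb s hs hsb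
  have hra : 2 * r ≤ r₀ := by
    have := hrr.trans (min_le_left _ _)
    linarith
  have hrb : r ≤ R₁ := hrr.trans ((min_le_right _ _).trans (min_le_left _ _))
  have hrc : r ≤ s₁ := hrr.trans ((min_le_right _ _).trans (min_le_right _ _))
  have hr1 : r < 1 := hrb.trans_lt hR₁1
  obtain ⟨t, ht⟩ : ∃ t : ℝ, t = max t' (r ^ ε) := ⟨_, rfl⟩
  have htt' : t' ≤ t := by rw [ht]; exact le_max_left _ _
  have htR : r ^ ε ≤ t := by rw [ht]; exact le_max_right _ _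
  have ht0 : 0 < t := ht'.trans_le htt'
  have ht1 : t ≤ 1 := by
    rw [ht]
    exact max_le ht'1 (Real.rpow_le_one hr.le hr1.le hε0.le)
  have hrec : ∀ j ≤ N r, t ≤ ‖zz d c₀ j‖ := by
    intro j hj
    rw [ht]
    exact max_le (hrec' j hj) (HR₁ r hr hrb j hj)
  obtain ⟨R, hR⟩ : ∃ R : ℝ, R = K * r / t ^ K := ⟨_, rfl⟩
  have htK : 0 < t ^ K := by positivity
  have htK1 : t ^ K ≤ 1 := pow_le_one₀ ht0.le ht1
  have hR0 : 0 < R := by rw [hR]; positivity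
  have hRr : 4 * r ≤ R := by
    rw [hR, le_div_iff₀ htK]
    nlinarith
  -- `R` is small
  have htKr : r ^ ((1 : ℝ) / 2) ≤ t ^ K := by
    calc r ^ ((1 : ℝ) / 2) = (r ^ ε) ^ K := by
          rw [← Real.rpow_natCast, ← Real.rpow_mul hr.le, hε]
          congr 1
          field_simp
      _ ≤ t ^ K := pow_le_pow_left₀ (Real.rpow_nonneg hr.le _) htR K
  have hRR₀ : R ≤ R₀ := by
    have h1 := Q1 r hr hrc
    rw [hR, div_le_iff₀ htK]
    have h2 : K * r ^ ((1 : ℝ) / 2) ≤ R₀ := by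
      rw [div_mul_eq_mul_div, div_le_one hR₀] at h1
      exact h1
    calc K * r = (K * r ^ ((1 : ℝ) / 2)) * r ^ ((1 : ℝ) / 2) := by
          rw [mul_assoc, ← Real.rpow_add hr]; norm_num
      _ ≤ R₀ * t ^ K := by gcongr
  have hRfin : R ≤ K * r / t' ^ K := by
    rw [hR]
    have h1 : t' ^ K ≤ t ^ K := pow_le_pow_left₀ ht'.le htt' K
    exact div_le_div_of_nonneg_left (by positivity) (by positivity) h1
  refine le_trans ?_ hRfin
  by_contra hcon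
  push Not at hcon
  have h3 := intermediate_value_Icc' hsb (cont_ray hψ c₀ hu (b := b) hs)
  obtain ⟨x, hx, hxR⟩ := h3 ⟨by linarith, hcon.le⟩
  have hxR : ‖ψ (Real.exp x * u) - c₀‖ = R := hxR
  have hx0 : 0 < x := hs.trans_le hx.1
  have hNRr : N R ≤ N (2 * r) := hN.mono (2 * r) R (by linarith) (by linarith)
  have hN2r : N (2 * r) ≤ N r := hN.mono r (2 * r) hr (by linarith)
  have h4 := H ψ hψ R hR0 hRR₀ t ht0 ht1 (fun j hj => hrec j (hj.trans (hNRr.trans hN2r))) u hu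
    x b hx0 hb hxR.le (by linarith) (by
      have h5 : ‖ψ (Real.exp x * u) - c₀‖ ≤ ‖ψ (Real.exp x * u) - ψ (Real.exp b * u)‖ +
          ‖ψ (Real.exp b * u) - c₀‖ := by
        have := norm_add_le (ψ (Real.exp x * u) - ψ (Real.exp b * u)) (ψ (Real.exp b * u) - c₀)
        rwa [sub_add_sub_cancel] at this
      linarith)
  rw [max_eq_right hx.2] at h4
  have h5 := level_up hd hN hψ hr hra hu hb hψb
  have h6 := hN.grow (2 * r) R (by linarith) (by linarith) (hRR₀.trans hR₀r) t ht0 ht1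
    (fun j hj => hrec j (hj.trans hN2r))
  obtain ⟨k, hk⟩ : ∃ k, k = N (2 * r) - N R := ⟨_, rfl⟩
  rw [← hk] at h6
  have h7 : (K : ℝ) * t ≤ 6 * LL d ^ (k + 2) * t ^ K := by
    have h8 : K * t * r ≤ (6 * LL d ^ (k + 2) * t ^ K) * r := by
      have h9 : t * R * t ^ K = K * t * r := by
        rw [hR]; field_simp
      have h10 : t * R * t ^ K ≤ 3 * LL d ^ (k + 2) * (2 * r) * t ^ K := by gcongr
      rw [h9] at h10
      linarith
    exact le_of_mul_le_mul_right h8 hr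
  have h8 := HK K hKK t k ht0 ht1 h7
  have hdk : (d : ℝ) ^ (N (2 * r)) = (d : ℝ) ^ k * (d : ℝ) ^ (N R) := by
    rw [← pow_add, hk, Nat.sub_add_cancel hNRr]
  rw [hdk] at h5
  have hdN : (0 : ℝ) < (d : ℝ) ^ (N R) := by positivity
  rw [div_le_iff₀ hdN] at h4
  have h9 : q * t ^ p * (d : ℝ) ^ k ≤ b * (d : ℝ) ^ N R * (d : ℝ) ^ k := by gcongr
  nlinarith

/-- **The modulus of local connectivity.** -/
theorem modulus (hd : 2 ≤ d) (hSl : Slow d c₀) (hmem : c₀ ∈ N62a1eb23.multibrotSet d)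
    {ψ : ℂ → ℂ} (hψ : IsExteriorMap (N62a1eb23.multibrotSet d) ψ) :
    ∃ K₀ : ℕ, ∀ K : ℕ, K₀ ≤ K → ∃ r₁ : ℝ, 0 < r₁ ∧ ∀ r : ℝ, 0 < r → r ≤ r₁ →
    ∀ t : ℝ, 0 < t → t ≤ 1 → (∀ j : ℕ, (j : ℝ) ≤ K * Real.log (1 / r) → t ≤ ‖zz d c₀ j‖) →
    ∀ c ∈ N62a1eb23.multibrotSet d, ‖c - c₀‖ ≤ r → ∃ S : Set ℂ, S ⊆ N62a1eb23.multibrotSet d ∧
      IsCompact S ∧ IsConnected S ∧ c ∈ S ∧ c₀ ∈ S ∧ S ⊆ closedBall c₀ (K * r / t ^ K) := by
  obtain ⟨N, a, b, A, W, r₀, hN⟩ := exists_scale hd hSl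
  obtain ⟨K₁, HK⟩ := stay hd hSl hN
  obtain ⟨K₂, hK₂⟩ := exists_nat_ge (2 * W)
  refine ⟨max 1 (max K₁ K₂), fun K hK => ?_⟩
  have hKa : 1 ≤ K := (le_max_left _ _).trans hK
  have hKb : K₁ ≤ K := (le_max_left _ _).trans ((le_max_right _ _).trans hK)
  have hKc : 2 * W ≤ K := hK₂.trans (by
    exact_mod_cast (le_max_right _ _).trans ((le_max_right _ _).trans hK))
  obtain ⟨r₁, hr₁, H⟩ := HK K hKb
  refine ⟨min r₁ (min r₀ (Real.exp (-1))), by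
    have := hN.r0
    have := Real.exp_pos (-1)
    positivity, ?_⟩
  intro r hr hrr t ht ht1 hrec c hc hcr
  have hra : r ≤ r₁ := hrr.trans (min_le_left _ _)
  have hrb : r ≤ r₀ := hrr.trans ((min_le_right _ _).trans (min_le_left _ _))
  have hrc : r ≤ Real.exp (-1) := hrr.trans ((min_le_right _ _).trans (min_le_right _ _))
  have hlog : 1 ≤ Real.log (1 / r) := by
    rw [one_div, Real.log_inv]
    have := Real.log_le_log hr hrc
    rw [Real.log_exp] at this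
    linarith
  have hrec' : ∀ j ≤ N r, t ≤ ‖zz d c₀ j‖ := by
    intro j hj
    apply hrec
    have h1 := hN.le r hr hrb
    have h2 : (j : ℝ) ≤ N r := by exact_mod_cast hj
    have hW := hN.W1
    calc (j : ℝ) ≤ W * (1 + Real.log (1 / r)) := h2.trans h1
      _ ≤ W * (2 * Real.log (1 / r)) := by gcongr; linarith
      _ = 2 * W * Real.log (1 / r) := by ring
      _ ≤ K * Real.log (1 / r) := by gcongr
  have htK : 0 < t ^ K := by positivity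
  have htK1 : t ^ K ≤ 1 := pow_le_one₀ ht.le ht1
  have hK1 : (1 : ℝ) ≤ K := by exact_mod_cast hKa
  have hle : r ≤ K * r / t ^ K := by
    rw [le_div_iff₀ htK]
    nlinarith
  refine Pool.Agent.N253.LC.t_CON _ ψ c c₀ (K * r / t ^ K) (Pool.Agent.H712R2.isCompact_multibrot hd)
    hψ hc hmem (hcr.trans hle) ?_
  intro w hw hseg s hs hsw
  obtain ⟨b', u, hb, hu, hb', hu', hwu⟩ := Pool.Agent.N253.LC.polar hw
  have h1 : ‖ψ w - c₀‖ ≤ r := by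
    have h2 : segment ℝ c c₀ ⊆ closedBall c₀ r := by
      apply (convex_closedBall c₀ r).segment_subset
      · rwa [mem_closedBall, dist_eq_norm]
      · exact mem_closedBall_self hr.le
    have h3 := h2 hseg
    rwa [mem_closedBall, dist_eq_norm] at h3
  rw [hwu] at h1
  have h2 := H ψ hψ r hr hra t ht ht1 hrec' u hu b' hb h1 (Real.log s) (Real.log_pos hs) (by
    rw [hb']
    exact Real.log_le_log (by linarith) hsw)
  rw [Real.exp_log (by linarith)] at h2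
  rw [← hu']
  exact h2

end Pool.Agent.KS6_34
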