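import Mathlib
import Pool.Agent.KS6_34.Orb2
import Pool.Graph.R_seed8.Y298.CA.Low
import Pool.Graph.R_seed8.Y287.CA.Sch
import Pool.Graph.R_seed8.Y287.CA.Att

/-!
# Hyperbolic discs near a slow Collet-Eckmann parameter, without losses
-/

set_option autoImplicit false

open Set Filter Metric Topology

namespace Pool.Agent.KS6_34

open Pool.Agent.TH279.MD Pool.Agent.Y298.SH Pool.Agent.Y298.SH.CD
open Pool.Agent.N253.LS (Slow)
open Pool.Agent.H712R2 (P)
open Pool.Agent.N253 (EC.COMPaux.diff_it)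

variable {d : ℕ} {c₀ : ℂ}

/-- the iterates are differentiable on a line in the space of parameters and points -/
theorem diff_line (d : ℕ) (c u x v : ℂ) (n : ℕ) :
    Differentiable ℂ (fun s : ℂ => (f d (c + s * u))^[n] (x + s * v)) := by
  induction n with
  | zero =>
    simp only [Function.iterate_zero, id_eq]
    fun_prop
  | succ n ih =>
    have e : (fun s : ℂ => (f d (c + s * u))^[n + 1] (x + s * v)) =
        fun s : ℂ => ((f d (c + s * u))^[n] (x + s * v)) ^ d + (c + s * u) := by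
      funext s
      rw [Function.iterate_succ_apply']
      rfl
    rw [e]
    exact (ih.pow d).add (by fun_prop)

/-- Boundedness near a superattracting parameter. -/
theorem bnd3 {c' : ℂ} {R : ℝ} {n m : ℕ} (hd : 2 ≤ d) (hR : 0 < R) (hR1 : R ≤ 1)
    (hc' : ‖c' - c₀‖ ≤ R) (hbd : ∀ j, ‖(f d c')^[j] c'‖ ≤ 2)
    (hst : ∀ c x, ‖c - c₀‖ ≤ 4 * R → ‖x - c‖ ≤ 4 * R → ∀ j ≤ n, ‖(f d c)^[j] x‖ ≤ 3)
    {c x : ℂ} (hc : ‖c - c'‖ ≤ R / (28 * LL d ^ m)) (hx : ‖x - c‖ ≤ R / (28 * LL d ^ m)) :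
    ∀ j ≤ n + m, ‖(f d c)^[j] x‖ ≤ 3 := by
  have hL := LL_two hd
  have hL0 : 0 < LL d := by linarith
  have hLm : 1 ≤ LL d ^ m := one_le_pow₀ (by linarith)
  obtain ⟨Q, hQ⟩ : ∃ Q : ℝ, Q = LL d ^ m := ⟨_, rfl⟩
  rw [← hQ] at hLm hc hx
  have hQ0 : 0 < Q := by linarith
  have hσR : R / (28 * Q) ≤ R := by
    rw [div_le_iff₀ (by positivity)]
    nlinarith
  have hcc₀ : ‖c - c₀‖ ≤ 2 * R := by
    calc ‖c - c₀‖ = ‖(c - c') + (c' - c₀)‖ := by congr 1; ring
      _ ≤ ‖c - c'‖ + ‖c' - c₀‖ := norm_add_le _ _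
      _ ≤ 2 * R := by linarith
  intro j hj
  rcases le_or_gt j n with hjn | hjn
  · exact hst c x (by linarith) (by linarith) j hjn
  obtain ⟨i, rfl⟩ : ∃ i, j = n + i := ⟨j - n, by omega⟩
  have him : i ≤ m := by omega
  -- the difference at the time `n`
  have hD0 : ‖(f d c)^[n] x - (f d c')^[n] c'‖ ≤ 1 / (2 * Q) := by
    obtain ⟨h, hh⟩ : ∃ h : ℂ → ℂ, h = fun s : ℂ => (f d (c' + s * (c - c')))^[n]
      (c' + s * (x - c')) := ⟨_, rfl⟩
    have hdiff : Differentiable ℂ h := by rw [hh]; exact diff_line d c' (c - c') c' (x - c') n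
    have hxc' : ‖x - c'‖ ≤ 2 * (R / (28 * Q)) := by
      calc ‖x - c'‖ = ‖(x - c) + (c - c')‖ := by congr 1; ring
        _ ≤ ‖x - c‖ + ‖c - c'‖ := norm_add_le _ _
        _ ≤ _ := by linarith
    have hbound : ∀ s : ℂ, ‖s‖ < 14 * Q → ‖h s‖ ≤ 3 := by
      intro s hs
      rw [hh]
      have h1 : ‖s * (c - c')‖ ≤ R := by
        rw [norm_mul]
        calc ‖s‖ * ‖c - c'‖ ≤ 14 * Q * (R / (28 * Q)) := by gcongr
          _ = R / 2 := by field_simp; norm_num
          _ ≤ R := by linarith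
      have h2 : ‖s * (x - c)‖ ≤ R := by
        rw [norm_mul]
        calc ‖s‖ * ‖x - c‖ ≤ 14 * Q * (R / (28 * Q)) := by gcongr
          _ = R / 2 := by field_simp; norm_num
          _ ≤ R := by linarith
      refine hst _ _ ?_ ?_ n le_rfl
      · calc ‖c' + s * (c - c') - c₀‖ = ‖(c' - c₀) + s * (c - c')‖ := by congr 1; ring
          _ ≤ ‖c' - c₀‖ + ‖s * (c - c')‖ := norm_add_le _ _
          _ ≤ 4 * R := by linarith
      · calc ‖c' + s * (x - c') - (c' + s * (c - c'))‖ = ‖s * (x - c)‖ := by congr 1; ring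
          _ ≤ 4 * R := by linarith
    have hmaps : MapsTo h (ball 0 (14 * Q)) (closedBall (h 0) 7) := by
      intro s hs
      rw [mem_ball_zero_iff] at hs
      rw [mem_closedBall, dist_eq_norm]
      have h1 := hbound s hs
      have h2 := hbound 0 (by rw [norm_zero]; positivity)
      have h3 := norm_sub_le (h s) (h 0)
      linarith
    have h1 : (1 : ℂ) ∈ ball (0 : ℂ) (14 * Q) := by
      rw [mem_ball_zero_iff, norm_one]
      linarith
    have h2 := Complex.dist_le_div_mul_dist_of_mapsTo_ball hdiff.differentiableOn hmaps h1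
    rw [dist_eq_norm, dist_eq_norm, sub_zero, norm_one, mul_one] at h2
    have h3 : h 1 = (f d c)^[n] x := by
      rw [hh]
      simp only [one_mul]
      congr 2 <;> ring
    have h4 : h 0 = (f d c')^[n] c' := by
      rw [hh]
      simp
    rw [h3, h4] at h2
    calc _ ≤ 7 / (14 * Q) := h2
      _ = 1 / (2 * Q) := by field_simp; norm_num
  -- induction
  have key : ∀ i ≤ m, ‖(f d c)^[n + i] x - (f d c')^[n + i] c'‖ + R / (28 * Q) ≤
      LL d ^ i * (1 / (2 * Q) + R / (28 * Q)) ∧ ‖(f d c)^[n + i] x‖ ≤ 3 := by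
    have hfin : ∀ i ≤ m, ‖(f d c)^[n + i] x - (f d c')^[n + i] c'‖ + R / (28 * Q) ≤
      LL d ^ i * (1 / (2 * Q) + R / (28 * Q)) → ‖(f d c)^[n + i] x‖ ≤ 3 := by
      intro i hi h1
      have h2 : LL d ^ i ≤ Q := by rw [hQ]; exact pow_le_pow_right₀ (by linarith) hi
      have h3 : LL d ^ i * (1 / (2 * Q) + R / (28 * Q)) ≤ 1 := by
        calc LL d ^ i * (1 / (2 * Q) + R / (28 * Q)) ≤ Q * (1 / (2 * Q) + R / (28 * Q)) := by
              gcongr
          _ = 1 / 2 + R / 28 := by field_simp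
          _ ≤ 1 := by linarith
      have h4 : 0 < R / (28 * Q) := by positivity
      have h5 := hbd (n + i)
      calc ‖(f d c)^[n + i] x‖ = ‖((f d c)^[n + i] x - (f d c')^[n + i] c') +
            (f d c')^[n + i] c'‖ := by congr 1; ring
        _ ≤ _ := norm_add_le _ _
        _ ≤ 3 := by linarith
    intro i
    induction i with
    | zero =>
      intro _
      have h1 : ‖(f d c)^[n + 0] x - (f d c')^[n + 0] c'‖ + R / (28 * Q) ≤
          LL d ^ 0 * (1 / (2 * Q) + R / (28 * Q)) := by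
        rw [Nat.add_zero, pow_zero, one_mul]
        linarith
      exact ⟨h1, hfin 0 (by omega) h1⟩
    | succ i ih =>
      intro hi
      obtain ⟨ih1, ih2⟩ := ih (by omega)
      have h1 : ‖(f d c)^[n + (i + 1)] x - (f d c')^[n + (i + 1)] c'‖ + R / (28 * Q) ≤
          LL d ^ (i + 1) * (1 / (2 * Q) + R / (28 * Q)) := by
        have e1 : (f d c)^[n + (i + 1)] x - (f d c')^[n + (i + 1)] c' =
            (((f d c)^[n + i] x) ^ d - ((f d c')^[n + i] c') ^ d) + (c - c') := by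
          rw [← Nat.add_assoc, Function.iterate_succ_apply', Function.iterate_succ_apply']
          unfold f
          ring
        have h2 := pow_sub_le ((f d c)^[n + i] x) ((f d c')^[n + i] c') (m := 3) ih2
          ((hbd (n + i)).trans (by norm_num)) d
        have h3 : ‖(f d c)^[n + (i + 1)] x - (f d c')^[n + (i + 1)] c'‖ ≤
            LL d * ‖(f d c)^[n + i] x - (f d c')^[n + i] c'‖ + R / (28 * Q) := by
          rw [e1]
          refine (norm_add_le _ _).trans (add_le_add ?_ hc)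
          exact h2
        have h4 : 0 < R / (28 * Q) := by positivity
        calc _ ≤ LL d * ‖(f d c)^[n + i] x - (f d c')^[n + i] c'‖ + 2 * (R / (28 * Q)) := by
              linarith
          _ ≤ LL d * ‖(f d c)^[n + i] x - (f d c')^[n + i] c'‖ + LL d * (R / (28 * Q)) := by
              gcongr
          _ = LL d * (‖(f d c)^[n + i] x - (f d c')^[n + i] c'‖ + R / (28 * Q)) := by ring
          _ ≤ LL d * (LL d ^ i * (1 / (2 * Q) + R / (28 * Q))) := by gcongr
          _ = _ := by ring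
      exact ⟨h1, hfin (i + 1) hi h1⟩
  exact (key i him).2

/-- **A hyperbolic disc**, from the boundedness of the iterates. -/
theorem disc3 {c' : ℂ} {σ : ℝ} {n : ℕ} (hd : 2 ≤ d) (hn : 1 ≤ n) (hP : P d n c' = 0) (hσ : 0 < σ)
    (hσ1 : σ ≤ 1)
    (hb : ∀ c x : ℂ, ‖c - c'‖ ≤ σ → ‖x - c‖ ≤ σ → ∀ j ≤ n - 1, ‖(f d c)^[j] x‖ ≤ 3) :
    ∀ c ∈ ball c' ((σ / (12 * d)) ^ ((d : ℝ) / (d - 1))), c ∈ N62a1eb23.multibrotSet d ∧
      ∃ (m : ℕ) (z : ℂ), N62a1eb23.IsAttractingCycle (f d c) m z := by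
  have hdR : (2 : ℝ) ≤ d := by exact_mod_cast hd
  have hd1 : 0 < (d : ℝ) - 1 := by linarith
  have hd0 : 0 < (d : ℝ) := by linarith
  obtain ⟨X, hX⟩ : ∃ X : ℝ, X = σ / (12 * d) := ⟨_, rfl⟩
  have hX0 : 0 < X := by rw [hX]; positivity
  have hX1 : X ≤ 1 := by
    rw [hX, div_le_one (by positivity)]
    linarith
  obtain ⟨ρ, hρ⟩ : ∃ ρ : ℝ, ρ = X ^ (1 / ((d : ℝ) - 1)) := ⟨_, rfl⟩
  have hρ0 : 0 < ρ := by rw [hρ]; exact Real.rpow_pos_of_pos hX0 _
  have hρ1 : ρ ≤ 1 := by rw [hρ]; exact Real.rpow_le_one hX0.le hX1 (by positivity)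
  have hρp : ρ ^ (d - 1) = X := by
    rw [hρ, ← Real.rpow_natCast, ← Real.rpow_mul hX0.le, Nat.cast_sub (by omega), Nat.cast_one]
    rw [one_div, inv_mul_cancel₀ hd1.ne', Real.rpow_one]
  have hρd : ρ ^ d = ρ * X := by
    obtain ⟨k, rfl⟩ : ∃ k, d = k + 1 := ⟨d - 1, by omega⟩
    rw [Nat.add_sub_cancel] at hρp
    rw [pow_succ, hρp]
    ring
  have hη : X ^ ((d : ℝ) / (d - 1)) = ρ * X := by
    rw [hρ]
    nth_rewrite 3 [← Real.rpow_one X]
    rw [← Real.rpow_add hX0]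
    congr 1
    field_simp
    ring
  rw [← hX, hη]
  have hXσ : X ≤ σ / 24 := by
    rw [hX]
    apply div_le_div_of_nonneg_left hσ.le (by norm_num)
    linarith
  have hρX : ρ * X ≤ σ / 24 := by nlinarith
  refine Pool.Agent.Y287.CA.att d n c' (ρ * X) ρ (6 / σ) (6 / σ) hd hn hP (by positivity) hρ0
    ?_ ?_ ?_ ?_
  · intro c hc
    rw [mem_ball, dist_eq_norm] at hc
    have h1 : ∀ z ∈ sphere c (σ / 2), ‖P d n z‖ ≤ 3 := by
      intro z hz
      rw [mem_sphere, dist_eq_norm] at hz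
      have h2 : ‖z - c'‖ ≤ σ := by
        calc ‖z - c'‖ = ‖(z - c) + (c - c')‖ := by congr 1; ring
          _ ≤ ‖z - c‖ + ‖c - c'‖ := norm_add_le _ _
          _ ≤ σ := by linarith
      have h3 := hb z z h2 (by rw [sub_self, norm_zero]; exact hσ.le) (n - 1) le_rfl
      obtain ⟨k, rfl⟩ : ∃ k, n = k + 1 := ⟨n - 1, by omega⟩
      rw [P_succ_eq hd]
      exact h3
    have h2 := Complex.norm_deriv_le_of_forall_mem_sphere_norm_le (by positivity)
      (Pool.Agent.H713R2.differentiable_P d n).diffContOnCl h1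
    calc _ ≤ 3 / (σ / 2) := h2
      _ = 6 / σ := by field_simp; norm_num
  · intro c hc x hx
    rw [mem_ball, dist_eq_norm] at hc
    rw [mem_closedBall, dist_eq_norm, hρd] at hx
    have h1 : ∀ z ∈ sphere x (σ / 2), ‖(f d c)^[n - 1] z‖ ≤ 3 := by
      intro z hz
      rw [mem_sphere, dist_eq_norm] at hz
      refine hb c z (by linarith) ?_ (n - 1) le_rfl
      calc ‖z - c‖ = ‖(z - x) + (x - c)‖ := by congr 1; ring
        _ ≤ ‖z - x‖ + ‖x - c‖ := norm_add_le _ _
        _ ≤ σ := by linarith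
    have h2 := Complex.norm_deriv_le_of_forall_mem_sphere_norm_le (by positivity)
      (differentiable_fn d c (n - 1)).diffContOnCl h1
    calc _ ≤ 3 / (σ / 2) := h2
      _ = 6 / σ := by field_simp; norm_num
  · rw [hX]
    have h1 : 2 * (6 / σ) * (ρ * (σ / (12 * d))) = ρ / d := by field_simp; norm_num
    rw [h1, div_le_iff₀ hd0]
    nlinarith
  · rw [hρp, hX]
    apply le_of_eq
    field_simp
    norm_num

/-- **Hyperbolic discs near a slow Collet-Eckmann parameter.** -/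
theorem low3 (hd : 2 ≤ d) (hSl : Slow d c₀) :
    ∃ K₀ : ℕ, ∀ K : ℕ, K₀ ≤ K → ∃ R₀ : ℝ, 0 < R₀ ∧ ∀ R : ℝ, 0 < R → R ≤ R₀ →
    ∀ t : ℝ, 0 < t → t ≤ 1 → (∀ j : ℕ, (j : ℝ) ≤ K * Real.log (1 / R) → t ≤ ‖zz d c₀ j‖) →
    ∃ (c' : ℂ) (η : ℝ), R ^ ((d : ℝ) / (d - 1)) * t ^ K / K ≤ η ∧ ball c' η ⊆ ball c₀ R ∧
      ∀ c ∈ ball c' η, c ∈ N62a1eb23.multibrotSet d ∧
        ∃ (m : ℕ) (z : ℂ), N62a1eb23.IsAttractingCycle (f d c) m z := by
  have hdR : (2 : ℝ) ≤ d := by exact_mod_cast hd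
  have hd1 : 0 < (d : ℝ) - 1 := by linarith
  have hd0 : 0 < (d : ℝ) := by linarith
  obtain ⟨N, as, b, As, W, r₀, hN⟩ := exists_scale hd hSl
  obtain ⟨κ, η, a, κ₂, A, r₁, hE⟩ := exists_exd hd hSl
  obtain ⟨⟨C₁, lam, hC⟩, hrec₀⟩ := id hSl
  obtain ⟨CS, rS, J, hCS, hrS, hsch⟩ := Pool.Agent.Y287.CA.sch d C₁ lam c₀ hC
  have hL2 := LL_two hd
  have hL0 : 0 < LL d := by linarith
  have hlL : 0 < Real.log (LL d) := Real.log_pos (by linarith)
  have has := hN.a0
  have hκ := hE.κ0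
  have hη := hE.η0
  have hA := hE.A1
  have hAs := hN.A1
  have hW := hN.W1
  -- the number of additional steps
  obtain ⟨X, hX⟩ : ∃ X : ℝ, X = |Real.log (8 * CS / (κ * as))| := ⟨_, rfl⟩
  have hX0 : 0 ≤ X := by rw [hX]; exact abs_nonneg _
  obtain ⟨E, hEd⟩ : ∃ E : ℝ, E = (A + As) / η := ⟨_, rfl⟩
  have hE0 : 0 < E := by rw [hEd]; positivity
  obtain ⟨Y, hY⟩ : ∃ Y : ℝ, Y = X / η + J + 3 := ⟨_, rfl⟩
  have hY0 : 0 < Y := by
    rw [hY]
    have : 0 ≤ X / η := by positivity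
    positivity
  obtain ⟨F, hF⟩ : ∃ F : ℝ, F = 12 * d * (28 * Real.exp (Y * Real.log (LL d))) := ⟨_, rfl⟩
  have hF1 : 1 ≤ F := by
    have : 1 ≤ Real.exp (Y * Real.log (LL d)) := Real.one_le_exp (by positivity)
    rw [hF]
    nlinarith
  obtain ⟨K₀, hK₀⟩ : ∃ K₀ : ℕ, 2 * (W + Y + E) + 2 * (E * Real.log (LL d)) + F ^ 2 ≤ K₀ :=
    exists_nat_ge _
  refine ⟨K₀, fun K hK => ?_⟩
  have hKR : 2 * (W + Y + E) + 2 * (E * Real.log (LL d)) + F ^ 2 ≤ (K : ℝ) :=
    hK₀.trans (by exact_mod_cast hK)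
  have hEL : 0 < E * Real.log (LL d) := by positivity
  have hK1 : (1 : ℝ) ≤ K := by
    have : 0 < F ^ 2 := by positivity
    linarith
  have hK0 : (0 : ℝ) < K := by linarith
  -- the recurrence is at least `R`
  obtain ⟨Cr, hCr, hrec₁⟩ := hrec₀ (1 / (2 * K)) (by positivity)
  obtain ⟨R₀, hR₀⟩ : ∃ R₀ : ℝ, R₀ = min (min (r₀ / 8) (min rS (Real.exp (-1)))) (1 / Cr ^ 2) :=
    ⟨_, rfl⟩
  have hr₀ := hN.r0
  have hCr0 : 0 < Cr := by linarith
  refine ⟨R₀, by rw [hR₀]; have := Real.exp_pos (-1); positivity, ?_⟩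
  intro R hR hRR t₀ ht₀ ht₀1 hrecR
  have hRa : R ≤ r₀ / 8 := hRR.trans (by rw [hR₀]; exact (min_le_left _ _).trans (min_le_left _ _))
  have hRb : R ≤ rS := hRR.trans (by
    rw [hR₀]
    exact (min_le_left _ _).trans ((min_le_right _ _).trans (min_le_left _ _)))
  have hRe : R ≤ Real.exp (-1) := hRR.trans (by
    rw [hR₀]
    exact (min_le_left _ _).trans ((min_le_right _ _).trans (min_le_right _ _)))
  have hRc : R ≤ 1 / Cr ^ 2 := hRR.trans (by rw [hR₀]; exact min_le_right _ _)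
  have hR1 : R ≤ 1 := hRe.trans (Real.exp_le_one_iff.mpr (by norm_num))
  have hlog : 1 ≤ Real.log (1 / R) := by
    rw [one_div, Real.log_inv]
    have h1 := Real.log_le_log hR hRe
    rw [Real.log_exp] at h1
    linarith
  have hrecR' : ∀ j : ℕ, (j : ℝ) ≤ K * Real.log (1 / R) → R ≤ ‖zz d c₀ j‖ := by
    intro j hj
    have h1 := hrec₁ j
    have h2 : Real.exp (1 / (2 * K) * j) ≤ Real.exp (Real.log (1 / R) / 2) := by
      rw [Real.exp_le_exp]
      calc 1 / (2 * (K : ℝ)) * j ≤ 1 / (2 * K) * (K * Real.log (1 / R)) := by gcongr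
        _ = Real.log (1 / R) / 2 := by field_simp
    obtain ⟨y, hy⟩ : ∃ y : ℝ, y = Real.exp (Real.log (1 / R) / 2) := ⟨_, rfl⟩
    have hy0 : 0 < y := by rw [hy]; exact Real.exp_pos _
    have hy2 : y * y = 1 / R := by
      rw [hy, ← Real.exp_add, add_halves, Real.exp_log (by positivity)]
    rw [← hy] at h2
    have hz : 0 ≤ ‖zz d c₀ j‖ := norm_nonneg _
    have h3 : 1 ≤ Cr * y * ‖zz d c₀ j‖ := h1.trans (by gcongr)
    have h4 : Cr ≤ y := by
      have h5 : Cr * Cr ≤ y * y := by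
        rw [hy2, le_div_iff₀ hR]
        have : R * Cr ^ 2 ≤ 1 := by
          rw [le_div_iff₀ (by positivity)] at hRc
          exact hRc
        nlinarith
      exact le_of_not_gt fun h => absurd h5 (not_le.mpr (mul_self_lt_mul_self hy0.le h))
    have h5 : 1 ≤ y * y * ‖zz d c₀ j‖ := h3.trans (by gcongr)
    rw [hy2, div_mul_eq_mul_div, one_mul, le_div_iff₀ hR, one_mul] at h5
    exact h5
  -- reduction to `R ≤ t`
  obtain ⟨t, ht⟩ : ∃ t : ℝ, t = max t₀ R := ⟨_, rfl⟩
  have htR : R ≤ t := by rw [ht]; exact le_max_right _ _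
  have ht0 : 0 < t := by linarith
  have ht1 : t ≤ 1 := by rw [ht]; exact max_le ht₀1 hR1
  have htt : t₀ ≤ t := by rw [ht]; exact le_max_left _ _
  have hrec : ∀ j : ℕ, (j : ℝ) ≤ K * Real.log (1 / R) → t ≤ ‖zz d c₀ j‖ := by
    intro j hj
    rw [ht]
    exact max_le (hrecR j hj) (hrecR' j hj)
  have hlt : 0 ≤ Real.log (1 / t) := Real.log_nonneg (by rw [le_div_iff₀ ht0]; linarith)
  have hltR : Real.log (1 / t) ≤ Real.log (1 / R) := by
    apply Real.log_le_log (by positivity)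
    exact one_div_le_one_div_of_le hR htR
  have hltn : Real.log (1 / t) = -Real.log t := by rw [one_div, Real.log_inv]
  obtain ⟨m, hm⟩ : ∃ m : ℕ, m = ⌈X / η + E * Real.log (1 / t) + 1⌉₊ + J := ⟨_, rfl⟩
  have hm1 : X / η + E * Real.log (1 / t) + 1 + J ≤ m := by
    rw [hm, Nat.cast_add]
    have := Nat.le_ceil (X / η + E * Real.log (1 / t) + 1)
    linarith
  have hm2 : (m : ℝ) ≤ Y + E * Real.log (1 / t) := by
    rw [hm, Nat.cast_add, hY]
    have h1 : 0 ≤ X / η + E * Real.log (1 / t) + 1 := by positivity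
    have := (Nat.ceil_lt_add_one h1).le
    linarith
  have hNle : (N (4 * R) : ℝ) ≤ W * (1 + Real.log (1 / R)) := by
    have h1 := hN.le (4 * R) (by positivity) (by linarith)
    have h2 : Real.log (1 / (4 * R)) ≤ Real.log (1 / R) := by
      apply Real.log_le_log (by positivity)
      apply one_div_le_one_div_of_le hR
      linarith
    nlinarith
  have htime : ((N (4 * R) + m : ℕ) : ℝ) ≤ K * Real.log (1 / R) := by
    rw [Nat.cast_add]
    have h2 : (m : ℝ) ≤ Y * Real.log (1 / R) + E * Real.log (1 / R) := by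
      have h3 : Y * 1 ≤ Y * Real.log (1 / R) := by gcongr
      have h4 : E * Real.log (1 / t) ≤ E * Real.log (1 / R) := by gcongr
      linarith
    have h3 : W * (1 + Real.log (1 / R)) ≤ 2 * W * Real.log (1 / R) := by nlinarith
    have h4 : (2 * W + Y + E) * Real.log (1 / R) ≤ K * Real.log (1 / R) := by
      have h5 : 0 < F ^ 2 := by positivity
      have : 2 * W + Y + E ≤ K := by linarith
      gcongr
    nlinarith
  have hrecj : ∀ j ≤ N (4 * R) + m, t ≤ ‖zz d c₀ j‖ := by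
    intro j hj
    refine hrec j (le_trans ?_ htime)
    exact_mod_cast hj
  -- the derivative is large
  have hbig : CS < R / 2 * Pd d c₀ (N (4 * R) + m) := by
    have h1 := hN.low (4 * R) (by positivity) t ht0 ht1 (fun j hj => hrecj j (by omega))
    have h2 := hE.cri t ht0 ht1 (N (4 * R)) (N (4 * R) + m) (by omega)
      (fun i hi => hrecj i hi.le)
    rw [Nat.add_sub_cancel_left] at h2
    have h3 : 8 * CS / (κ * as) < t ^ A * t ^ As * Real.exp (η * m) := by
      have h4 : t ^ A * t ^ As = Real.exp (-(η * (E * Real.log (1 / t)))) := by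
        rw [← Real.rpow_add ht0, Real.rpow_def_of_pos ht0, hEd, hltn]
        congr 1
        field_simp
      rw [h4, ← Real.exp_add]
      have h5 : 8 * CS / (κ * as) ≤ Real.exp X := by
        rw [hX]
        calc 8 * CS / (κ * as) = Real.exp (Real.log (8 * CS / (κ * as))) := by
              rw [Real.exp_log (by positivity)]
          _ ≤ _ := Real.exp_le_exp.mpr (le_abs_self _)
      refine h5.trans_lt (Real.exp_lt_exp.mpr ?_)
      have h6 : η * (X / η + E * Real.log (1 / t) + 1 + J) ≤ η * m := by gcongr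
      have h7 : η * (X / η + E * Real.log (1 / t) + 1 + J) =
          X + η * (E * Real.log (1 / t)) + η + η * J := by field_simp
      have h8 : 0 ≤ η * (J : ℝ) := by positivity
      linarith
    rw [div_lt_iff₀ (by positivity)] at h3
    have htA : 0 < t ^ A := Real.rpow_pos_of_pos ht0 _
    have h9 : t ^ A * t ^ As * Real.exp (η * m) * (κ * as) ≤
        4 * R * Pd d c₀ (N (4 * R) + m) := by
      calc t ^ A * t ^ As * Real.exp (η * m) * (κ * as)
          = κ * t ^ A * Real.exp (η * m) * (as * t ^ As) := by ring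
        _ ≤ κ * t ^ A * Real.exp (η * m) * (4 * R * Pd d c₀ (N (4 * R))) := by gcongr
        _ = 4 * R * (κ * t ^ A * Real.exp (η * m) * Pd d c₀ (N (4 * R))) := by ring
        _ ≤ _ := by gcongr
    linarith
  obtain ⟨n, hn1, hn2, c', hc', hPc⟩ := hsch (R / 2) (by positivity) (by linarith)
    (N (4 * R) + m) (by omega) hbig
  rw [mem_ball, dist_eq_norm] at hc'
  have hbd' : ∀ j, ‖(f d c')^[j] c'‖ ≤ 2 := by
    intro j
    have h1 := Pool.Agent.Y298.CA.bd_of_centre hd hn1 hPc (j + 1)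
    rw [P_succ_eq hd] at h1
    exact h1
  have hLm : 1 ≤ LL d ^ m := one_le_pow₀ (by linarith)
  obtain ⟨σ, hσ⟩ : ∃ σ : ℝ, σ = R / (28 * LL d ^ m) := ⟨_, rfl⟩
  have hσ0 : 0 < σ := by rw [hσ]; positivity
  have hσR : σ ≤ R / 28 := by
    rw [hσ]
    apply div_le_div_of_nonneg_left hR.le (by norm_num)
    linarith
  have hdisc := disc3 hd hn1 hPc hσ0 (by linarith) (fun c x hc hx j hj =>
    bnd3 (c₀ := c₀) (n := N (4 * R)) (m := m) hd hR hR1 (by linarith) hbd'
      (fun c x h1 h2 j hj => hN.stay (4 * R) (by positivity) (by linarith) c x h1 h2 j hj)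
      (by rw [← hσ]; exact hc) (by rw [← hσ]; exact hx) j (by omega))
  have hμ1 : 1 ≤ (d : ℝ) / (d - 1) := by
    rw [le_div_iff₀ hd1]
    linarith
  have hμ2 : (d : ℝ) / (d - 1) ≤ 2 := by
    rw [div_le_iff₀ hd1]
    linarith
  have hY1 : σ / (12 * d) ≤ 1 := by
    rw [div_le_one (by positivity)]
    linarith
  have hY2 : 0 < σ / (12 * d) := by positivity
  refine ⟨c', (σ / (12 * d)) ^ ((d : ℝ) / (d - 1)), ?_, ?_, hdisc⟩
  · -- the size
    have h1 : LL d ^ m ≤ Real.exp (Y * Real.log (LL d)) * t ^ (-(E * Real.log (LL d))) := by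
      rw [← Real.rpow_natCast, Real.rpow_def_of_pos hL0, Real.rpow_def_of_pos ht0,
        ← Real.exp_add, Real.exp_le_exp]
      calc Real.log (LL d) * m ≤ Real.log (LL d) * (Y + E * Real.log (1 / t)) := by gcongr
        _ = _ := by rw [hltn]; ring
    obtain ⟨τ, hτ⟩ : ∃ τ : ℝ, τ = t ^ (E * Real.log (LL d)) := ⟨_, rfl⟩
    have hτ0 : 0 < τ := by rw [hτ]; exact Real.rpow_pos_of_pos ht0 _
    have hτ1 : τ ≤ 1 := by rw [hτ]; exact Real.rpow_le_one ht0.le ht1 hEL.le
    rw [Real.rpow_neg ht0.le, ← hτ] at h1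
    have h2 : R * (τ / F) ≤ σ / (12 * d) := by
      rw [hσ, div_div, mul_div_assoc']
      rw [div_le_div_iff₀ (by linarith) (by positivity)]
      calc R * τ * (28 * LL d ^ m * (12 * d))
          ≤ R * τ * (28 * (Real.exp (Y * Real.log (LL d)) * τ⁻¹) * (12 * d)) := by gcongr
        _ = R * F := by
          rw [hF]
          field_simp
    have hτF0 : 0 < τ / F := by positivity
    have hτF1 : τ / F ≤ 1 := by
      rw [div_le_one (by linarith)]
      linarith
    calc R ^ ((d : ℝ) / (d - 1)) * t₀ ^ K / K ≤ R ^ ((d : ℝ) / (d - 1)) * (τ / F) ^ (2 : ℕ) := by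
          rw [mul_div_assoc]
          have h3 : t₀ ^ K / K ≤ (τ / F) ^ (2 : ℕ) := by
            rw [div_pow]
            have h4 : t₀ ^ K ≤ τ ^ 2 := by
              calc t₀ ^ K ≤ t ^ K := pow_le_pow_left₀ ht₀.le htt K
                _ = t ^ (K : ℝ) := (Real.rpow_natCast _ _).symm
                _ ≤ t ^ (E * Real.log (LL d) * 2) := by
                  apply Real.rpow_le_rpow_of_exponent_ge ht0 ht1
                  have : 0 < F ^ 2 := by positivity
                  linarith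
                _ = τ ^ 2 := by
                  rw [hτ, ← Real.rpow_natCast (t ^ (E * Real.log (LL d))), ← Real.rpow_mul ht0.le]
                  norm_num
            have h5 : F ^ 2 ≤ K := by linarith
            exact div_le_div₀ (by positivity) h4 (by positivity) h5
          have := Real.rpow_pos_of_pos hR ((d : ℝ) / (d - 1))
          gcongr
      _ ≤ R ^ ((d : ℝ) / (d - 1)) * (τ / F) ^ ((d : ℝ) / (d - 1)) := by
          have := Real.rpow_pos_of_pos hR ((d : ℝ) / (d - 1))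
          have h3 : (τ / F) ^ (2 : ℕ) ≤ (τ / F) ^ ((d : ℝ) / (d - 1)) := by
            rw [← Real.rpow_natCast]
            apply Real.rpow_le_rpow_of_exponent_ge hτF0 hτF1
            push_cast
            exact hμ2
          gcongr
      _ = (R * (τ / F)) ^ ((d : ℝ) / (d - 1)) := by
          rw [Real.mul_rpow hR.le hτF0.le]
      _ ≤ _ := Real.rpow_le_rpow (by positivity) h2 (by linarith)
  · intro x hx
    rw [mem_ball, dist_eq_norm] at hx ⊢
    have h1 : (σ / (12 * d)) ^ ((d : ℝ) / (d - 1)) ≤ R / 28 := by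
      calc (σ / (12 * d)) ^ ((d : ℝ) / (d - 1)) ≤ (σ / (12 * d)) ^ (1 : ℝ) :=
            Real.rpow_le_rpow_of_exponent_ge hY2 hY1 hμ1
        _ = σ / (12 * d) := Real.rpow_one _
        _ ≤ σ := by
          rw [div_le_iff₀ (by positivity)]
          nlinarith
        _ ≤ R / 28 := hσR
    calc ‖x - c₀‖ = ‖(x - c') + (c' - c₀)‖ := by congr 1; ring
      _ ≤ ‖x - c'‖ + ‖c' - c₀‖ := norm_add_le _ _
      _ < R := by linarith

end Pool.Agent.KS6_34
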